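import Mathlib

namespace Pool.Agent.NCG

lemma split_ratio (al be : ℕ) (hco : Nat.Coprime al be) (hbe : 0 < be) (x y : ℤ)
    (h : (al : ℤ) * x = be * y) : ∃ s : ℤ, x = be * s ∧ y = al * s := by
  have h1 : IsCoprime (be : ℤ) (al : ℤ) := (Nat.isCoprime_iff_coprime.mpr hco).symm
  have h2 : (be : ℤ) ∣ x := h1.dvd_of_dvd_mul_left ⟨y, h⟩
  obtain ⟨s, hs⟩ := h2
  refine ⟨s, hs, ?_⟩
  have hbe' : (be : ℤ) ≠ 0 := by exact_mod_cast hbe.ne'
  apply mul_left_cancel₀ hbe'
  rw [← h, hs]; ring

lemma arith_central (z zt : ℕ) (hz : 0 < z) (hzt : 0 < zt)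
    (a b a1 b1 A B A1 B1 C C1 C2 : ℤ)
    (ha : (z : ℤ) * (a - 1) = zt * (A - 1)) (hb : (z : ℤ) * (b - 1) = zt * (B - 1))
    (ha1 : (z : ℤ) * (a1 - 1) = zt * (A1 - 1)) (hb1 : (z : ℤ) * (b1 - 1) = zt * (B1 - 1))
    (hC : (z : ℤ) * (a * b - 1) = zt * (C - 1))
    (hC1 : (z : ℤ) * (a * b1 - 1) = zt * (C1 - 1))
    (hC2 : (z : ℤ) * (a1 * b - 1) = zt * (C2 - 1))
    (dC : A * B ∣ C) (dC1 : A * B1 ∣ C1) (dC2 : A1 * B ∣ C2) (da : a1 ∣ a) (db : b1 ∣ b)
    (a1l : 1 < a1) (a1a : a1 < a) (b1l : 1 < b1) (b1b : b1 < b) (Cpos : 0 < C) : z = zt := by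
  obtain ⟨al, be, hco, hal, hbe⟩ := Nat.exists_coprime z zt
  have hd : 0 < Nat.gcd z zt := Nat.gcd_pos_of_pos_left _ hz
  set d := Nat.gcd z zt with hdd
  have hdZ : (d : ℤ) ≠ 0 := by exact_mod_cast hd.ne'
  have halZ : (z : ℤ) = al * d := by exact_mod_cast hal
  have hbeZ : (zt : ℤ) = be * d := by exact_mod_cast hbe
  have hal0 : 0 < al := Nat.pos_of_ne_zero (by rintro rfl; omega)
  have hbe0 : 0 < be := Nat.pos_of_ne_zero (by rintro rfl; omega)
  have red : ∀ x y : ℤ, (z : ℤ) * x = zt * y → ∃ s : ℤ, x = be * s ∧ y = al * s := by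
    intro x y hxy
    apply split_ratio al be hco hbe0
    apply mul_left_cancel₀ hdZ
    rw [halZ, hbeZ] at hxy
    linear_combination hxy
  obtain ⟨s, hs, hs'⟩ := red _ _ ha
  obtain ⟨t, ht, ht'⟩ := red _ _ hb
  obtain ⟨s1, hs1, hs1'⟩ := red _ _ ha1
  obtain ⟨t1, ht1, ht1'⟩ := red _ _ hb1
  obtain ⟨u, hu, hu'⟩ := red _ _ hC
  obtain ⟨u1, hu1, hu1'⟩ := red _ _ hC1
  obtain ⟨u2, hu2, hu2'⟩ := red _ _ hC2
  have al1 : (1 : ℤ) ≤ al := by exact_mod_cast hal0
  have be1 : (1 : ℤ) ≤ be := by exact_mod_cast hbe0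
  have beZ : (be : ℤ) ≠ 0 := by omega
  have bepos : (0 : ℤ) < be := by omega
  have s1p : 0 < s1 := by
    have h : 0 < (be : ℤ) * s1 := by linarith
    exact (mul_pos_iff_of_pos_left bepos).mp h
  have t1p : 0 < t1 := by
    have h : 0 < (be : ℤ) * t1 := by linarith
    exact (mul_pos_iff_of_pos_left bepos).mp h
  have sp : s1 < s := by
    have h : (be : ℤ) * s1 < be * s := by linarith
    exact lt_of_mul_lt_mul_left h bepos.le
  have tp : t1 < t := by
    have h : (be : ℤ) * t1 < be * t := by linarith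
    exact lt_of_mul_lt_mul_left h bepos.le
  have s0 : 0 < s := lt_trans s1p sp
  have t0 : 0 < t := lt_trans t1p tp
  have ea : a = 1 + be * s := by linarith
  have eb : b = 1 + be * t := by linarith
  have ea1 : a1 = 1 + be * s1 := by linarith
  have eb1 : b1 = 1 + be * t1 := by linarith
  have eA : A = 1 + al * s := by linarith
  have eB : B = 1 + al * t := by linarith
  have eA1 : A1 = 1 + al * s1 := by linarith
  have eB1 : B1 = 1 + al * t1 := by linarith
  have eu : u = s + t + be * s * t := by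
    apply mul_left_cancel₀ beZ
    rw [← hu, ea, eb]; ring
  have eu1 : u1 = s + t1 + be * s * t1 := by
    apply mul_left_cancel₀ beZ
    rw [← hu1, ea, eb1]; ring
  have eu2 : u2 = s1 + t + be * s1 * t := by
    apply mul_left_cancel₀ beZ
    rw [← hu2, ea1, eb]; ring
  have eC : C = A * B + al * ((be - al) * (s * t)) := by
    have : C = 1 + al * u := by linarith
    rw [this, eu, eA, eB]; ring
  have eC1 : C1 = A * B1 + al * ((be - al) * (s * t1)) := by
    have : C1 = 1 + al * u1 := by linarith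
    rw [this, eu1, eA, eB1]; ring
  have eC2 : C2 = A1 * B + al * ((be - al) * (s1 * t)) := by
    have : C2 = 1 + al * u2 := by linarith
    rw [this, eu2, eA1, eB]; ring
  have hle : (al : ℤ) ≤ be := by
    by_contra hcon
    push Not at hcon
    have h1 : A * B ≤ C := Int.le_of_dvd Cpos dC
    have h2 : 0 < s * t := mul_pos s0 t0
    have h3 : (be - al : ℤ) * (s * t) < 0 := mul_neg_of_neg_of_pos (by linarith) h2
    have h4 : (al : ℤ) * ((be - al) * (s * t)) < 0 := mul_neg_of_pos_of_neg (by omega) h3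
    linarith
  rcases lt_or_eq_of_le hle with hlt | heq
  · exfalso
    have coA : IsCoprime A (al * s) := ⟨1, -1, by rw [eA]; ring⟩
    have coB : IsCoprime B (al * t) := ⟨1, -1, by rw [eB]; ring⟩
    have h1 : A ∣ (be - al) * t1 := by
      have h2 : A ∣ C1 := (Dvd.intro B1 rfl).trans dC1
      have h3 : A ∣ al * ((be - al) * (s * t1)) := by
        have h4 : al * ((be - al) * (s * t1)) = C1 - A * B1 := by rw [eC1]; ring
        rw [h4]; exact dvd_sub h2 (Dvd.intro B1 rfl)
      have h5 : A ∣ (al * s) * ((be - al) * t1) := by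
        have h6 : (al * s) * ((be - al) * t1) = al * ((be - al) * (s * t1)) := by ring
        rw [h6]; exact h3
      exact coA.dvd_of_dvd_mul_left h5
    have h2 : B ∣ (be - al) * s1 := by
      have h2 : B ∣ C2 := (Dvd.intro_left A1 rfl).trans dC2
      have h3 : B ∣ al * ((be - al) * (s1 * t)) := by
        have h4 : al * ((be - al) * (s1 * t)) = C2 - A1 * B := by rw [eC2]; ring
        rw [h4]; exact dvd_sub h2 (Dvd.intro_left A1 rfl)
      have h5 : B ∣ (al * t) * ((be - al) * s1) := by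
        have h6 : (al * t) * ((be - al) * s1) = al * ((be - al) * (s1 * t)) := by ring
        rw [h6]; exact h3
      exact coB.dvd_of_dvd_mul_left h5
    have h3 : A ≤ (be - al) * t1 := Int.le_of_dvd (mul_pos (by linarith) t1p) h1
    have h4 : B ≤ (be - al) * s1 := Int.le_of_dvd (mul_pos (by linarith) s1p) h2
    have h5 : 1 + be * s1 ≤ s - s1 := by
      apply Int.le_of_dvd (by linarith)
      have h6 : (1 + be * s1) ∣ be * (s - s1) := by
        have h7 : be * (s - s1) = a - a1 := by rw [ea, ea1]; ring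
        rw [h7, ← ea1]
        exact dvd_sub da (dvd_refl a1)
      have h8 : IsCoprime (1 + be * s1) (be : ℤ) := ⟨1, -s1, by ring⟩
      exact h8.dvd_of_dvd_mul_left h6
    have h6 : 1 + be * t1 ≤ t - t1 := by
      apply Int.le_of_dvd (by linarith)
      have h6 : (1 + be * t1) ∣ be * (t - t1) := by
        have h7 : be * (t - t1) = b - b1 := by rw [eb, eb1]; ring
        rw [h7, ← eb1]
        exact dvd_sub db (dvd_refl b1)
      have h8 : IsCoprime (1 + be * t1) (be : ℤ) := ⟨1, -t1, by ring⟩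
      exact h8.dvd_of_dvd_mul_left h6
    have h7 : (al : ℤ) * (be * s1) < be * t1 := by
      have e1 : (al : ℤ) * (be * s1) ≤ al * s := by
        apply mul_le_mul_of_nonneg_left _ (by omega)
        linarith
      have e2 : (be - al : ℤ) * t1 < be * t1 := mul_lt_mul_of_pos_right (by omega) t1p
      linarith
    have h8 : (al : ℤ) * (be * t1) < be * s1 := by
      have e1 : (al : ℤ) * (be * t1) ≤ al * t := by
        apply mul_le_mul_of_nonneg_left _ (by omega)
        linarith
      have e2 : (be - al : ℤ) * s1 < be * s1 := mul_lt_mul_of_pos_right (by omega) s1p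
      linarith
    have h9 : (be : ℤ) * s1 ≤ al * (be * s1) :=
      le_mul_of_one_le_left (mul_pos bepos s1p).le al1
    have h10 : (be : ℤ) * t1 ≤ al * (be * t1) :=
      le_mul_of_one_le_left (mul_pos bepos t1p).le al1
    linarith
  · have h1 : al = be := by exact_mod_cast heq
    rw [hal, hbe, h1]

end Pool.Agent.NCG
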