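import Pool.Agent.NCG.Core

namespace Pool.Agent.NCG

open Subgroup

variable {G : Type} [Group G]

lemma card_eq_center_mul [Finite G] (K : Subgroup G) (hK : center G ≤ K) :
    Nat.card (center G) * ((center G).subgroupOf K).index = Nat.card K := by
  rw [← ((center G).subgroupOf K).card_mul_index]
  congr 1
  exact (Nat.card_congr (Subgroup.subgroupOfEquivOfLe hK).toEquiv).symm

lemma pow_index_center [Finite G] (K : Subgroup G) (g : G) (hg : g ∈ K) :
    g ^ ((center G).subgroupOf K).index ∈ center G := by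
  have h := ((center G).subgroupOf K).pow_index_mem ⟨g, hg⟩
  rw [Subgroup.mem_subgroupOf] at h
  exact h

/-- Cauchy modulo the centre -/
lemma cauchy_center [Finite G] (K : Subgroup G) (r : ℕ) (hr : r.Prime)
    (hd : r ∣ ((center G).subgroupOf K).index) : ∃ g ∈ K, g ∉ center G ∧ g ^ r ∈ center G := by
  haveI : Fact r.Prime := ⟨hr⟩
  rw [Subgroup.index_eq_card] at hd
  obtain ⟨q, hq⟩ := exists_prime_orderOf_dvd_card' (G := K ⧸ (center G).subgroupOf K) r hd
  obtain ⟨g, rfl⟩ := QuotientGroup.mk_surjective q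
  refine ⟨g.1, g.2, ?_, ?_⟩
  · intro h
    have h1 : ((g : K) : K ⧸ (center G).subgroupOf K) = 1 :=
      (QuotientGroup.eq_one_iff g).mpr (Subgroup.mem_subgroupOf.mpr h)
    rw [h1, orderOf_one] at hq
    exact hr.one_lt.ne hq
  · have h1 := pow_orderOf_eq_one ((g : K) : K ⧸ (center G).subgroupOf K)
    rw [hq] at h1
    have h2 : ((g ^ r : K) : K ⧸ (center G).subgroupOf K) = 1 := h1
    have h3 := (QuotientGroup.eq_one_iff (g ^ r)).mp h2
    rw [Subgroup.mem_subgroupOf] at h3
    exact h3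

lemma conj_pow_central {g v c : G} (hc : c ∈ center G) (h : g * v * g⁻¹ = c * v) (k : ℕ) :
    g ^ k * v * (g ^ k)⁻¹ = c ^ k * v := by
  induction k with
  | zero => simp
  | succ k ih =>
    have hck : c ^ k * g = g * c ^ k := by
      have h1 := Subgroup.mem_center_iff.mp ((center G).pow_mem hc k) g
      exact h1.symm
    calc g ^ (k + 1) * v * (g ^ (k + 1))⁻¹ = g * (g ^ k * v * (g ^ k)⁻¹) * g⁻¹ := by
          rw [pow_succ']; group
      _ = g * (c ^ k * v) * g⁻¹ := by rw [ih]
      _ = (g * c ^ k) * v * g⁻¹ := by group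
      _ = (c ^ k * g) * v * g⁻¹ := by rw [hck]
      _ = c ^ k * (g * v * g⁻¹) := by group
      _ = c ^ k * (c * v) := by rw [h]
      _ = c ^ (k + 1) * v := by rw [pow_succ]; group

lemma conj_pow_right {g v c : G} (hc : c ∈ center G) (h : g * v * g⁻¹ = c * v) (k : ℕ) :
    g * v ^ k * g⁻¹ = c ^ k * v ^ k := by
  have h1 : g * v ^ k * g⁻¹ = (g * v * g⁻¹) ^ k := by rw [conj_pow]
  rw [h1, h]
  have h2 : Commute c v := (Subgroup.mem_center_iff.mp hc v).symm
  exact h2.mul_pow k

variable {w : G} {n m : ℕ} {S : Subgroup G → Prop}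

lemma Data.caseI [Finite G] (D : Data G w n m S) {x v : G} (hx : ¬ Commute x w) (hv : v ∈ Dz w)
    (hvc : v ∉ center G) (hxv : x * v * x⁻¹ * v⁻¹ ∈ center G) :
    ∃ l : ℕ, l.Prime ∧ ∀ g : G, ∃ k : ℕ, g ^ (l ^ k) ∈ Cz w := by
  obtain ⟨y, hyw, hyx, hyv, hyn, hym, -⟩ := D.b x hx
  have hz0 : 0 < Nat.card (center G) := Nat.card_pos
  set lam := ((center G).subgroupOf (Cz y)).index with hlam
  have hn : Nat.card (center G) * lam = n := by
    rw [hlam, card_eq_center_mul _ (center_le_Cz y), hyn]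
  have hyc : y * v * y⁻¹ * v⁻¹ ∈ center G := D.step3a hx hv hxv hyx
  have hvw : Commute v w := mem_Cz.mp (Dz_le_Cz w hv)
  -- all primes dividing lam equal the order of v modulo the centre
  have key : ∀ r : ℕ, r.Prime → r ∣ lam → r = orderOf (v : G ⧸ center G) := by
    intro r hr hrl
    obtain ⟨g, hgy, hgc, hgr⟩ := cauchy_center (Cz y) r hr hrl
    have hgy' : Commute g y := mem_Cz.mp hgy
    have hgw : ¬ Commute g w := (hyv g hgc hgy').1
    have hgv : g * v * g⁻¹ * v⁻¹ ∈ center G := D.step3a hyw hv hyc hgy'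
    set c := g * v * g⁻¹ * v⁻¹ with hc
    have h1 : g * v * g⁻¹ = c * v := by rw [hc]; group
    have h2 := conj_pow_central hgv h1 r
    have h3 : g ^ r * v * (g ^ r)⁻¹ = v := by
      have h4 := Subgroup.mem_center_iff.mp hgr v
      rw [← h4]; group
    have h5 : c ^ r = 1 := by
      rw [h3] at h2
      have h6 : 1 * v = c ^ r * v := by rw [one_mul]; exact h2
      exact (mul_right_cancel h6).symm
    have h6 := conj_pow_right hgv h1 r
    rw [h5, one_mul] at h6
    have h7 : Commute g (v ^ r) := by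
      change g * v ^ r = v ^ r * g
      calc g * v ^ r = (g * v ^ r * g⁻¹) * g := by group
        _ = v ^ r * g := by rw [h6]
    have h8 : v ^ r ∈ center G := D.f2 hgw (hvw.pow_left r) h7
    have h9 : orderOf (v : G ⧸ center G) ∣ r := by
      apply orderOf_dvd_of_pow_eq_one
      have h10 : ((v ^ r : G) : G ⧸ center G) = 1 := (QuotientGroup.eq_one_iff _).mpr h8
      exact h10
    rcases (Nat.dvd_prime hr).mp h9 with h11 | h11
    · exfalso
      apply hvc
      rw [orderOf_eq_one_iff] at h11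
      exact (QuotientGroup.eq_one_iff v).mp h11
    · exact h11.symm
  have hlam0 : lam ≠ 0 := Subgroup.index_ne_zero_of_finite
  have hyZ : y ∉ center G := fun h => hyw (Subgroup.mem_center_iff.mp h w).symm
  have hlam1 : lam ≠ 1 := by
    intro h
    rw [hlam, Subgroup.index_eq_one] at h
    have h1 : (⟨y, mem_Cz.mpr (Commute.refl y)⟩ : Cz y) ∈ (center G).subgroupOf (Cz y) := by
      rw [h]; trivial
    rw [Subgroup.mem_subgroupOf] at h1
    exact hyZ h1
  obtain ⟨l, hl, hll⟩ := Nat.exists_prime_and_dvd hlam1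
  have hlv := key l hl hll
  have hpow := Nat.eq_prime_pow_of_unique_prime_dvd (n := lam) (p := l) hlam0
    (fun {d} hd hdl => by rw [key d hd hdl, hlv])
  refine ⟨l, hl, fun g => ?_⟩
  by_cases hg : Commute g w
  · exact ⟨0, by rw [pow_zero, pow_one]; exact mem_Cz.mpr hg⟩
  · obtain ⟨y', -, hyx', -, hyn', -, -⟩ := D.b g hg
    refine ⟨lam.primeFactorsList.length, ?_⟩
    rw [← hpow]
    have h1 : ((center G).subgroupOf (Cz y')).index = lam := by
      have h2 := card_eq_center_mul (Cz y') (center_le_Cz y')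
      rw [hyn', ← hn] at h2
      exact Nat.eq_of_mul_eq_mul_left hz0 h2
    have h2 := pow_index_center (Cz y') g (mem_Cz.mpr hyx'.symm)
    rw [h1] at h2
    exact center_le_Cz w h2

end Pool.Agent.NCG
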