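import Pool.Agent.NCG.Fpf

namespace Pool.Agent.NCG

open Subgroup

variable {G : Type} [Group G] {w : G} {n m : ℕ} {S : Subgroup G → Prop}

lemma comm_of_center {z : G} (hz : z ∈ center G) (g : G) : g * z = z * g :=
  Subgroup.mem_center_iff.mp hz g

/-- surjectivity of `c ↦ x⁻¹ c⁻¹ x c` on `W / Z` -/
lemma delta_surj [Finite G] (W : Subgroup G) (hN : W.Normal) (x : G)
    (h4e : ∀ c ∈ W, x * c * x⁻¹ * c⁻¹ ∈ center G → c ∈ center G) :
    ∀ d ∈ W, ∃ c ∈ W, (x⁻¹ * c⁻¹ * x * c)⁻¹ * d ∈ center G := by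
  classical
  let R := W ⧸ (center G).subgroupOf W
  have hmem : ∀ c ∈ W, x⁻¹ * c⁻¹ * x * c ∈ W := by
    intro c hc
    have h1 := hN.conj_mem _ (W.inv_mem hc) x⁻¹
    rw [inv_inv] at h1
    exact W.mul_mem h1 hc
  let F : R → R := fun q =>
    QuotientGroup.mk ⟨x⁻¹ * (q.out.1)⁻¹ * x * q.out.1, hmem _ q.out.2⟩
  have hinj : Function.Injective F := by
    intro q q' hqq
    have h1 := QuotientGroup.eq.mp hqq
    rw [Subgroup.mem_subgroupOf] at h1
    have h2 : (x⁻¹ * (q.out.1)⁻¹ * x * q.out.1)⁻¹ * (x⁻¹ * (q'.out.1)⁻¹ * x * q'.out.1)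
        ∈ center G := h1
    set c := q.out.1 with hc
    set c' := q'.out.1 with hc'
    set z := (x⁻¹ * c⁻¹ * x * c)⁻¹ * (x⁻¹ * c'⁻¹ * x * c') with hz
    have hce : c * c'⁻¹ ∈ W := W.mul_mem q.out.2 (W.inv_mem q'.out.2)
    have h3 : x * (c * c'⁻¹) * x⁻¹ * (c * c'⁻¹)⁻¹ ∈ center G := by
      have h4 : x⁻¹ * (c * c'⁻¹) * x = z * (c * c'⁻¹) := by
        have h5 : x⁻¹ * (c * c'⁻¹) * x = c * z * c'⁻¹ := by rw [hz]; group
        rw [h5, comm_of_center h2]; group
      have h6 : x * (c * c'⁻¹) * x⁻¹ * (c * c'⁻¹)⁻¹ = z⁻¹ := by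
        have hzz := comm_of_center h2 x
        have h7 : c * c'⁻¹ = z * (x * (c * c'⁻¹) * x⁻¹) := by
          calc c * c'⁻¹ = x * (x⁻¹ * (c * c'⁻¹) * x) * x⁻¹ := by group
            _ = x * (z * (c * c'⁻¹)) * x⁻¹ := by rw [h4]
            _ = (x * z) * (c * c'⁻¹) * x⁻¹ := by group
            _ = (z * x) * (c * c'⁻¹) * x⁻¹ := by rw [hzz]
            _ = _ := by group
        have h8 : x * (c * c'⁻¹) * x⁻¹ = z⁻¹ * (c * c'⁻¹) := by
          calc x * (c * c'⁻¹) * x⁻¹ = z⁻¹ * (z * (x * (c * c'⁻¹) * x⁻¹)) := by group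
            _ = z⁻¹ * (c * c'⁻¹) := by rw [← h7]
        rw [h8]; group
      rw [h6]
      exact (center G).inv_mem h2
    have h9 := h4e _ hce h3
    have h10 : c⁻¹ * c' ∈ center G := by
      have h11 : c⁻¹ * c' = c⁻¹ * (c * c'⁻¹)⁻¹ * c := by group
      rw [h11]
      have h12 := comm_of_center ((center G).inv_mem h9) c⁻¹
      rw [h12]
      have h13 : (c * c'⁻¹)⁻¹ * c⁻¹ * c = (c * c'⁻¹)⁻¹ := by group
      rw [h13]
      exact (center G).inv_mem h9
    have h14 : (QuotientGroup.mk q.out : R) = QuotientGroup.mk q'.out := by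
      rw [QuotientGroup.eq, Subgroup.mem_subgroupOf]
      exact h10
    rw [QuotientGroup.out_eq', QuotientGroup.out_eq'] at h14
    exact h14
  have hsurj : Function.Surjective F := Finite.injective_iff_surjective.mp hinj
  intro d hd
  obtain ⟨q, hq⟩ := hsurj (QuotientGroup.mk ⟨d, hd⟩)
  refine ⟨q.out.1, q.out.2, ?_⟩
  have h1 := QuotientGroup.eq.mp hq
  rw [Subgroup.mem_subgroupOf] at h1
  exact h1

lemma Data.caseII [Finite G] (D : Data G w n m S)
    (hII : ∀ g, ¬ Commute g w → ∀ v ∈ Dz w, g * v * g⁻¹ * v⁻¹ ∈ center G → v ∈ center G)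
    (hW : (∀ x ∈ Cz w, ∀ y ∈ Cz w, x * y = y * x) ∨
      (∀ p : ℕ, p.Prime → Nat.card (center G) * p ∣ n → ¬ Nat.card (center G) * p ∣ Nat.card (Cz w))) :
    ∃ x, ¬ Commute x w ∧ Nat.card (Cz x) = n ∧ S (Cz x) ∧
      (∀ g, Commute g x → Commute g w → g ∈ center G) ∧
      (∀ g, ∃ c ∈ Cz w, g * c⁻¹ ∈ Cz x) := by
  haveI hN := D.normal
  obtain ⟨x0, hx0⟩ := D.exists_out
  obtain ⟨y0, hy0w, -, -, -, hy0m, -⟩ := D.b x0 hx0
  have hz0 : 0 < Nat.card (center G) := Nat.card_pos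
  set mu := ((center G).subgroupOf (Dz y0)).index with hmu
  have hm : Nat.card (center G) * mu = m := by
    rw [hmu, card_eq_center_mul _ (center_le_Dz y0), hy0m]
  have hy0Z : y0 ∉ center G := fun h => hy0w (Subgroup.mem_center_iff.mp h w).symm
  have hmu1 : mu ≠ 1 := by
    intro h
    rw [hmu, Subgroup.index_eq_one] at h
    have h1 : (⟨y0, self_mem_Dz y0⟩ : Dz y0) ∈ (center G).subgroupOf (Dz y0) := by
      rw [h]; trivial
    rw [Subgroup.mem_subgroupOf] at h1
    exact hy0Z h1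
  obtain ⟨p, hp, hpm⟩ := Nat.exists_prime_and_dvd hmu1
  haveI : Fact p.Prime := ⟨hp⟩
  -- (T)
  have hT : ∀ x, ¬ Commute x w → ∃ t, ¬ Commute t w ∧ t ^ p ∈ center G ∧ Commute t x ∧
      Nat.card (Cz t) = n ∧ S (Cz t) ∧
      (∀ v, v ∉ center G → Commute v t → ¬ Commute v w ∧ ∀ g, Commute g v → Commute g t) ∧
      Nat.card (center G) * p ∣ n := by
    intro x hx
    obtain ⟨y, hyw, hyx, hyv, hyn, hym, hyS⟩ := D.b x hx
    have h1 : ((center G).subgroupOf (Dz y)).index = mu := by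
      have h2 := card_eq_center_mul (Dz y) (center_le_Dz y)
      rw [hym, ← hm] at h2
      exact Nat.eq_of_mul_eq_mul_left hz0 h2
    obtain ⟨t, htD, htc, htp⟩ := cauchy_center (Dz y) p hp (by rw [h1]; exact hpm)
    have hty : Commute t y := mem_Cz.mp (Dz_le_Cz y htD)
    obtain ⟨htw, hty2⟩ := hyv t htc hty
    have hty3 : ∀ g, Commute g y → Commute g t := mem_Dz.mp htD
    have hCz : Cz t = Cz y := by
      apply le_antisymm
      · intro g hg; exact mem_Cz.mpr (hty2 g (mem_Cz.mp hg))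
      · intro g hg; exact mem_Cz.mpr (hty3 g (mem_Cz.mp hg))
    refine ⟨t, htw, htp, (hty3 x hyx.symm).symm, by rw [hCz]; exact hyn, by rw [hCz]; exact hyS,
      ?_, ?_⟩
    · intro v hv hvt
      have hvy : Commute v y := hty2 v hvt
      obtain ⟨h3, h4⟩ := hyv v hv hvy
      exact ⟨h3, fun g hg => hty3 g (h4 g hg)⟩
    · have h5 : Nat.card (center G) * p ∣ m := by rw [← hm]; exact Nat.mul_dvd_mul_left _ hpm
      rw [← hym] at h5
      rw [← hyn]
      exact h5.trans (Subgroup.card_dvd_of_le (Dz_le_Cz y))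
  have hZW : center G ≤ Cz w := center_le_Cz w
  have h4b := D.step4b hII p hp hN
  obtain ⟨s, hs1, hsp, hsc⟩ := exists_central p h4b (by
    intro q
    obtain ⟨q, rfl⟩ := QuotientGroup.mk_surjective q
    by_cases hq : Commute q w
    · obtain ⟨t, htw, htp, -⟩ := hT x0 hx0
      have hq1 : (q : G ⧸ Cz w) = 1 := (QuotientGroup.eq_one_iff q).mpr (mem_Cz.mpr hq)
      refine ⟨(t : G ⧸ Cz w), ?_, ?_, ?_⟩
      · intro h; exact htw (mem_Cz.mp ((QuotientGroup.eq_one_iff t).mp h))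
      · exact (QuotientGroup.eq_one_iff (t ^ p)).mpr (hZW htp)
      · rw [hq1]; exact Commute.one_right _
    · obtain ⟨t, htw, htp, htq, -⟩ := hT q hq
      refine ⟨(t : G ⧸ Cz w), ?_, ?_, ?_⟩
      · intro h; exact htw (mem_Cz.mp ((QuotientGroup.eq_one_iff t).mp h))
      · exact (QuotientGroup.eq_one_iff (t ^ p)).mpr (hZW htp)
      · exact congrArg (fun y : G => (y : G ⧸ Cz w)) htq.eq)
  have hscom : ∀ q : G ⧸ Cz w, q * s = s * q := Subgroup.mem_center_iff.mp hsc
  -- (T')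
  have hT' : ∀ x, ¬ Commute x w → ∃ t : G, (t : G ⧸ Cz w) = s ∧ t ^ p ∈ center G ∧ Commute t x ∧
      Nat.card (Cz t) = n ∧ S (Cz t) ∧
      (∀ v, v ∉ center G → Commute v t → ¬ Commute v w ∧ ∀ g, Commute g v → Commute g t) := by
    intro x hx
    obtain ⟨t, htw, htp, htx, htn, htS, htv, -⟩ := hT x hx
    have h1 : s ∈ zpowers (t : G ⧸ Cz w) := by
      apply h4b (t : G ⧸ Cz w) s _ hsp _ hs1 (hscom _)
      · exact (QuotientGroup.eq_one_iff (t ^ p)).mpr (hZW htp)
      · intro h; exact htw (mem_Cz.mp ((QuotientGroup.eq_one_iff t).mp h))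
    obtain ⟨i, hi⟩ := Subgroup.mem_zpowers_iff.mp h1
    have hi' : ((t ^ i : G) : G ⧸ Cz w) = s := hi
    have htiw : t ^ i ∉ center G := by
      intro h
      apply hs1
      rw [← hi']
      exact (QuotientGroup.eq_one_iff _).mpr (hZW h)
    have hcti : ∀ g, Commute g t → Commute g (t ^ i) := fun g hg => hg.zpow_right i
    have hcti' : ∀ g, Commute g (t ^ i) → Commute g t :=
      (htv (t ^ i) htiw ((Commute.refl t).zpow_left i)).2
    have hCz : Cz (t ^ i) = Cz t := by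
      apply le_antisymm
      · intro g hg; exact mem_Cz.mpr (hcti' g (mem_Cz.mp hg))
      · intro g hg; exact mem_Cz.mpr (hcti g (mem_Cz.mp hg))
    refine ⟨t ^ i, hi', ?_, htx.zpow_left i, by rw [hCz]; exact htn, by rw [hCz]; exact htS, ?_⟩
    · have h2 : (t ^ i) ^ p = (t ^ p) ^ i := by
        rw [← zpow_natCast, ← zpow_mul, mul_comm, zpow_mul, zpow_natCast]
      rw [h2]
      exact (center G).zpow_mem htp i
    · intro v hv hvt
      obtain ⟨h3, h4⟩ := htv v hv (hcti' v hvt)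
      exact ⟨h3, fun g hg => hcti g (h4 g hg)⟩
  obtain ⟨x, hxs, hxp, -, hxn, hxS, hxv⟩ := hT' x0 hx0
  have hxw : ¬ Commute x w := by
    intro h
    apply hs1
    rw [← hxs]
    exact (QuotientGroup.eq_one_iff x).mpr (mem_Cz.mpr h)
  obtain ⟨-, -, -, -, -, -, -, hpn⟩ := hT x0 hx0
  -- 4e
  have h4e : ∀ c ∈ Cz w, x * c * x⁻¹ * c⁻¹ ∈ center G → c ∈ center G := by
    intro c hc hxc
    rcases hW with hW | hW
    · apply hII x hxw c _ hxc
      rw [mem_Dz]
      intro v hv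
      exact hW v (mem_Cz.mpr hv) c hc
    · set d := x * c * x⁻¹ * c⁻¹ with hd
      have h1 : x * c * x⁻¹ = d * c := by rw [hd]; group
      have h2 := conj_pow_central hxc h1 p
      have h3 : x ^ p * c * (x ^ p)⁻¹ = c := by
        rw [← comm_of_center hxp c]; group
      have h5 : d ^ p = 1 := by
        rw [h3] at h2
        have h6 : 1 * c = d ^ p * c := by rw [one_mul]; exact h2
        exact (mul_right_cancel h6).symm
      set N := ((center G).subgroupOf (Cz w)).index with hNN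
      have h7 : c ^ N ∈ center G := pow_index_center (Cz w) c hc
      have h8 := conj_pow_right hxc h1 N
      have h9 : d ^ N = 1 := by
        have h10 : x * c ^ N * x⁻¹ = c ^ N := by rw [comm_of_center h7 x]; group
        rw [h10] at h8
        have h6 : 1 * c ^ N = d ^ N * c ^ N := by rw [one_mul]; exact h8
        exact (mul_right_cancel h6).symm
      have h11 : ¬ p ∣ N := by
        intro h
        apply hW p hp hpn
        rw [← card_eq_center_mul (Cz w) (center_le_Cz w)]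
        exact Nat.mul_dvd_mul_left _ h
      have h12 : Nat.Coprime p N := (Nat.Prime.coprime_iff_not_dvd hp).mpr h11
      have h13 : d = 1 := by
        have h14 : orderOf d ∣ 1 := by
          rw [← Nat.Coprime.gcd_eq_one h12]
          exact Nat.dvd_gcd (orderOf_dvd_of_pow_eq_one h5) (orderOf_dvd_of_pow_eq_one h9)
        exact orderOf_eq_one_iff.mp (Nat.dvd_one.mp h14)
      have h15 : Commute x c := by
        change x * c = c * x
        rw [h13, one_mul] at h1
        calc x * c = (x * c * x⁻¹) * x := by group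
          _ = c * x := by rw [h1]
      exact D.f2 hxw (mem_Cz.mp hc) h15
  have hsurj := delta_surj (Cz w) hN x h4e
  -- claim N
  have hclaim : ∀ h z0 : G, z0 ∈ center G → x * h = h * x * z0 → Commute h x := by
    intro h z0 hz0c hh
    by_contra hcon
    have hself : ∀ e : G, e ∈ Cz w → x * e = e * x * z0 → e ∈ center G := by
      intro e he hxe
      apply h4e e he
      have h1 : x * e * x⁻¹ * e⁻¹ = z0 := by
        rw [hxe]
        have h2 := comm_of_center hz0c (e * x)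
        rw [h2]; group
      rw [h1]; exact hz0c
    have hhw : ¬ Commute h w := by
      intro h1
      apply hcon
      exact (comm_of_center (hself h (mem_Cz.mpr h1) hh) x).symm
    obtain ⟨t, hts, -, hth, -⟩ := hT' h hhw
    have hd : x⁻¹ * t ∈ Cz w := by
      apply QuotientGroup.eq.mp
      rw [hxs, hts]
    obtain ⟨c, hc, hcz⟩ := hsurj (x⁻¹ * t) hd
    set z1 := (x⁻¹ * c⁻¹ * x * c)⁻¹ * (x⁻¹ * t) with hz1
    have ht : t = c⁻¹ * x * c * z1 := by rw [hz1]; group
    have h2 : Commute (c⁻¹ * x * c) h := by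
      have h3 : t * h = h * t := hth
      have h4 : c⁻¹ * x * c = t * z1⁻¹ := by rw [ht]; group
      have h5 := comm_of_center ((center G).inv_mem hcz) h
      change c⁻¹ * x * c * h = h * (c⁻¹ * x * c)
      rw [h4]
      calc t * z1⁻¹ * h = t * (z1⁻¹ * h) := by group
        _ = t * (h * z1⁻¹) := by rw [h5]
        _ = (t * h) * z1⁻¹ := by group
        _ = (h * t) * z1⁻¹ := by rw [h3]
        _ = _ := by group
    have h6 : Commute (c * h * c⁻¹) x := by
      have h7 : c⁻¹ * x * c * h = h * (c⁻¹ * x * c) := h2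
      change c * h * c⁻¹ * x = x * (c * h * c⁻¹)
      calc c * h * c⁻¹ * x = c * (h * (c⁻¹ * x * c)) * c⁻¹ := by group
        _ = c * (c⁻¹ * x * c * h) * c⁻¹ := by rw [h7]
        _ = _ := by group
    set l := c * h * c⁻¹ with hl
    have hlx : l * x = x * l := h6
    have he : l⁻¹ * h ∈ Cz w := by
      have h8 : l⁻¹ * h = c * (h⁻¹ * c⁻¹ * h) := by rw [hl]; group
      rw [h8]
      have h9 := hN.conj_mem _ ((Cz w).inv_mem hc) h⁻¹
      rw [inv_inv] at h9
      exact (Cz w).mul_mem hc h9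
    have hxe : x * (l⁻¹ * h) = (l⁻¹ * h) * x * z0 := by
      have h10 : x * l⁻¹ = l⁻¹ * x := by
        calc x * l⁻¹ = l⁻¹ * (l * x) * l⁻¹ := by group
          _ = l⁻¹ * (x * l) * l⁻¹ := by rw [hlx]
          _ = l⁻¹ * x := by group
      calc x * (l⁻¹ * h) = (x * l⁻¹) * h := by group
        _ = (l⁻¹ * x) * h := by rw [h10]
        _ = l⁻¹ * (x * h) := by group
        _ = l⁻¹ * (h * x * z0) := by rw [hh]
        _ = _ := by group
    have hec := hself _ he hxe
    apply hcon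
    change h * x = x * h
    have h11 : h = l * (l⁻¹ * h) := by group
    have h12 := comm_of_center hec x
    calc h * x = l * ((l⁻¹ * h) * x) := by group
      _ = l * (x * (l⁻¹ * h)) := by rw [h12]
      _ = (l * x) * (l⁻¹ * h) := by group
      _ = (x * l) * (l⁻¹ * h) := by rw [hlx]
      _ = x * h := by group
  refine ⟨x, hxw, hxn, hxS, ?_, ?_⟩
  · intro g hgx hgw
    by_contra hg
    exact (hxv g hg hgx).1 hgw
  · intro g
    have hd : x⁻¹ * g⁻¹ * x * g ∈ Cz w := by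
      rw [← QuotientGroup.eq_one_iff]
      have h1 : ((x⁻¹ * g⁻¹ * x * g : G) : G ⧸ Cz w) =
        (x : G ⧸ Cz w)⁻¹ * (g : G ⧸ Cz w)⁻¹ * (x : G ⧸ Cz w) * (g : G ⧸ Cz w) := rfl
      rw [h1, hxs]
      have h2 := hscom (g : G ⧸ Cz w)⁻¹
      calc s⁻¹ * (g : G ⧸ Cz w)⁻¹ * s * (g : G ⧸ Cz w)
          = s⁻¹ * ((g : G ⧸ Cz w)⁻¹ * s) * (g : G ⧸ Cz w) := by group
        _ = s⁻¹ * (s * (g : G ⧸ Cz w)⁻¹) * (g : G ⧸ Cz w) := by rw [h2]
        _ = 1 := by group
    obtain ⟨c, hc, hcz⟩ := hsurj _ hd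
    refine ⟨c, hc, ?_⟩
    rw [mem_Cz]
    set z := (x⁻¹ * c⁻¹ * x * c)⁻¹ * (x⁻¹ * g⁻¹ * x * g) with hz
    apply hclaim (g * c⁻¹) z hcz
    have h1 : g⁻¹ * x * g = c⁻¹ * x * c * z := by rw [hz]; group
    have h2 := comm_of_center hcz c⁻¹
    calc x * (g * c⁻¹) = g * (g⁻¹ * x * g) * c⁻¹ := by group
      _ = g * (c⁻¹ * x * c * z) * c⁻¹ := by rw [h1]
      _ = g * c⁻¹ * x * c * (z * c⁻¹) := by group
      _ = g * c⁻¹ * x * c * (c⁻¹ * z) := by rw [h2]
      _ = g * c⁻¹ * x * z := by group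

end Pool.Agent.NCG
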