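import Pool.Agent.NCG.Prime
import Pool.Agent.NCG.Arith

namespace Pool.Agent.NCG

open Subgroup

/-- index of the centre in a subgroup -/
noncomputable abbrev idx {G : Type} [Group G] (U : Subgroup G) : ℕ :=
  ((center G).subgroupOf U).index

variable {G : Type} [Group G]

lemma idx_eq_card_map (U : Subgroup G) :
    Nat.card (U.map (QuotientGroup.mk' (center G))) = idx U := by
  have h3 := Subgroup.relIndex_ker U (QuotientGroup.mk' (center G))
  rw [QuotientGroup.ker_mk'] at h3
  rw [← h3]; rfl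

lemma idx_mul [Finite G] (U V M : Subgroup G) (hV : center G ≤ V)
    (hcom : ∀ u ∈ U, ∀ v ∈ V, u * v = v * u) (hinf : ∀ g, g ∈ U → g ∈ V → g ∈ center G)
    (hUM : U ≤ M) (hVM : V ≤ M) :
    idx U * idx V ∣ idx M ∧ ((∀ g ∈ M, ∃ u ∈ U, ∃ v ∈ V, u * v = g) → idx U * idx V = idx M) := by
  classical
  set π := QuotientGroup.mk' (center G) with hπ
  have hc : ∀ (u : U.map π) (v : V.map π), Commute ((U.map π).subtype u) ((V.map π).subtype v) := by
    rintro ⟨_, u, hu, rfl⟩ ⟨_, v, hv, rfl⟩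
    change π u * π v = π v * π u
    rw [← map_mul, ← map_mul, hcom u hu v hv]
  let f := MonoidHom.noncommCoprod (U.map π).subtype (V.map π).subtype hc
  have hf : Function.Injective f := by
    rw [MonoidHom.noncommCoprod_injective]
    refine ⟨Subgroup.subtype_injective _, Subgroup.subtype_injective _, ?_⟩
    rw [Subgroup.range_subtype, Subgroup.range_subtype, Subgroup.disjoint_def]
    rintro x ⟨u, hu, rfl⟩ ⟨v, hv, hvu⟩
    have h1 : u⁻¹ * v ∈ center G := by
      have h2 : (v : G ⧸ center G) = (u : G ⧸ center G) := hvu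
      exact QuotientGroup.eq.mp h2.symm
    have h2 : u ∈ V := by
      have h3 : u = v * (u⁻¹ * v)⁻¹ := by group
      rw [h3]
      exact V.mul_mem hv (V.inv_mem (hV h1))
    exact (QuotientGroup.eq_one_iff u).mpr (hinf u hu h2)
  have hcard : Nat.card f.range = idx U * idx V := by
    have h1 : Nat.card f.range = Nat.card (U.map π × V.map π) :=
      (Nat.card_congr (MonoidHom.ofInjective hf).toEquiv).symm
    rw [h1, Nat.card_prod, idx_eq_card_map, idx_eq_card_map]
  have hle : f.range ≤ M.map π := by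
    rintro _ ⟨⟨⟨_, u, hu, rfl⟩, ⟨_, v, hv, rfl⟩⟩, rfl⟩
    exact ⟨u * v, M.mul_mem (hUM hu) (hVM hv), by rw [map_mul]; rfl⟩
  constructor
  · rw [← hcard, ← idx_eq_card_map M]
    exact Subgroup.card_dvd_of_le hle
  · intro hcov
    have heq : f.range = M.map π := by
      apply le_antisymm hle
      rintro _ ⟨g, hg, rfl⟩
      obtain ⟨u, hu, v, hv, rfl⟩ := hcov g hg
      exact ⟨⟨⟨π u, u, hu, rfl⟩, ⟨π v, v, hv, rfl⟩⟩, by rw [map_mul]; rfl⟩
    rw [← hcard, ← idx_eq_card_map M, heq]

lemma idx_dvd [Finite G] {U V : Subgroup G} (h : U ≤ V) : idx U ∣ idx V := by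
  rw [← idx_eq_card_map, ← idx_eq_card_map]
  exact Subgroup.card_dvd_of_le (Subgroup.map_mono h)

lemma idx_lt [Finite G] {U V : Subgroup G} (hU : center G ≤ U) (h : U < V) : idx U < idx V := by
  have h1 := card_eq_center_mul U hU
  have h2 := card_eq_center_mul V (hU.trans h.le)
  have h3 : Nat.card U < Nat.card V := by
    have h23 : (U : Set G) ⊂ (V : Set G) := SetLike.coe_ssubset_coe.mpr h
    exact Set.ncard_lt_ncard h23 (Set.toFinite _)
  rw [← h1, ← h2] at h3
  exact Nat.lt_of_mul_lt_mul_left h3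

lemma one_lt_idx [Finite G] {U : Subgroup G} {u : G} (hu : u ∈ U) (huc : u ∉ center G) :
    1 < idx U := by
  have h0 : idx U ≠ 0 := Subgroup.index_ne_zero_of_finite
  have h1 : idx U ≠ 1 := by
    intro h
    rw [Subgroup.index_eq_one] at h
    have h2 : (⟨u, hu⟩ : U) ∈ (center G).subgroupOf U := by rw [h]; trivial
    exact huc (Subgroup.mem_subgroupOf.mp h2)
  omega

variable {H : Type} [Group H]

lemma idx_transfer [Finite G] [Finite H] (e : NC G ≃ NC H) (A : Subgroup G) (B : Subgroup H)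
    (hA : center G ≤ A) (hB : center H ≤ B) (hAB : ∀ g : NC G, g.1 ∈ A ↔ (e g).1 ∈ B) :
    (Nat.card (center H) : ℤ) * ((idx B : ℤ) - 1) = Nat.card (center G) * ((idx A : ℤ) - 1) := by
  have h1 := card_transfer e A B hA hB hAB
  rw [← card_eq_center_mul A hA, ← card_eq_center_mul B hB] at h1
  have h2 : (Nat.card (center G) : ℤ) * idx A + Nat.card (center H) =
      Nat.card (center H) * idx B + Nat.card (center G) := by exact_mod_cast h1
  linear_combination -h2

theorem recognised_central [Finite H] (H1 H2 : Subgroup H) (hZ1 : center H ≤ H1)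
    (hZ2 : center H ≤ H2) (hcom : ∀ a ∈ H1, ∀ b ∈ H2, a * b = b * a)
    (hprod : ∀ h : H, ∃ a ∈ H1, ∃ b ∈ H2, a * b = h)
    (hR1 : Recognised H1) (hR2 : Recognised H2) : Recognised H := by
  classical
  -- the intersection is the centre
  have hinf : ∀ g, g ∈ H1 → g ∈ H2 → g ∈ center H := by
    intro g h1 h2
    rw [Subgroup.mem_center_iff]
    intro h
    obtain ⟨a, ha, b, hb, rfl⟩ := hprod h
    have e1 : a * g = g * a := hcom a ha g h2
    have e2 : g * b = b * g := hcom g h1 b hb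
    calc a * b * g = a * (b * g) := by group
      _ = a * (g * b) := by rw [e2]
      _ = (a * g) * b := by group
      _ = (g * a) * b := by rw [e1]
      _ = g * (a * b) := by group
  -- the two factors are mutual centralisers
  have hc1 : ∀ h : H, (∀ b ∈ H2, b * h = h * b) → h ∈ H1 := by
    intro h hh
    obtain ⟨a, ha, b, hb, rfl⟩ := hprod h
    have hbc : b ∈ center H := by
      rw [Subgroup.mem_center_iff]
      intro g
      obtain ⟨a', ha', b', hb', rfl⟩ := hprod g
      have e1 := hh b' hb'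
      have e2 := hcom a ha b' hb'
      have e3 : b' * b = b * b' := by
        have h1 : a * (b' * b) = a * (b * b') := by
          calc a * (b' * b) = (a * b') * b := by group
            _ = (b' * a) * b := by rw [e2]
            _ = b' * (a * b) := by group
            _ = a * b * b' := e1
            _ = a * (b * b') := by group
        exact mul_left_cancel h1
      calc a' * b' * b = a' * (b' * b) := by group
        _ = a' * (b * b') := by rw [e3]
        _ = (a' * b) * b' := by group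
        _ = (b * a') * b' := by rw [hcom a' ha' b hb]
        _ = b * (a' * b') := by group
    exact H1.mul_mem ha (hZ1 hbc)
  have hc2 : ∀ h : H, (∀ a ∈ H1, a * h = h * a) → h ∈ H2 := by
    intro h hh
    obtain ⟨a, ha, b, hb, rfl⟩ := hprod h
    have hac : a ∈ center H := by
      rw [Subgroup.mem_center_iff]
      intro g
      obtain ⟨a', ha', b', hb', rfl⟩ := hprod g
      have e1 := hh a' ha'
      have e2 := hcom a' ha' b hb
      have e3 : a' * a = a * a' := by
        have h1 : (a' * a) * b = (a * a') * b := by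
          calc (a' * a) * b = a' * (a * b) := by group
            _ = a * b * a' := e1
            _ = a * (b * a') := by group
            _ = a * (a' * b) := by rw [e2]
            _ = (a * a') * b := by group
        exact mul_right_cancel h1
      calc a' * b' * a = a' * (b' * a) := by group
        _ = a' * (a * b') := by rw [hcom a ha b' hb']
        _ = (a' * a) * b' := by group
        _ = (a * a') * b' := by rw [e3]
        _ = a * (a' * b') := by group
    exact H2.mul_mem (hZ2 hac) hb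
  intro G _ _ ⟨f⟩
  let e : NC G ≃ NC H := f.toEquiv
  have he : ∀ x y : NC G, Commute x.1 y.1 ↔ Commute (e x).1 (e y).1 := iso_comm f
  -- the two subgroups of G
  let G1 : Subgroup G := Subgroup.centralizer {g | ∃ y : NC G, y.1 = g ∧ (e y).1 ∈ H2}
  let G2 : Subgroup G := Subgroup.centralizer {g | ∃ y : NC G, y.1 = g ∧ (e y).1 ∈ H1}
  have hZG1 : center G ≤ G1 := Subgroup.center_le_centralizer _
  have hZG2 : center G ≤ G2 := Subgroup.center_le_centralizer _
  have t1 : ∀ g : NC G, g.1 ∈ G1 ↔ (e g).1 ∈ H1 := by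
    intro g
    constructor
    · intro hg
      apply hc1
      intro b hb
      by_cases hbc : b ∈ center H
      · exact (comm_of_center hbc _).symm
      · have h1 := Subgroup.mem_centralizer_iff.mp hg (e.symm ⟨b, hbc⟩).1
          ⟨e.symm ⟨b, hbc⟩, rfl, by rw [Equiv.apply_symm_apply]; exact hb⟩
        have h2 : Commute (e.symm ⟨b, hbc⟩).1 g.1 := h1
        rw [he, Equiv.apply_symm_apply] at h2
        exact h2
    · intro hg
      rw [Subgroup.mem_centralizer_iff]
      rintro _ ⟨y, rfl, hy⟩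
      have h1 : Commute (e y).1 (e g).1 := (hcom _ hg _ hy).symm
      exact (he y g).mpr h1
  have t2 : ∀ g : NC G, g.1 ∈ G2 ↔ (e g).1 ∈ H2 := by
    intro g
    constructor
    · intro hg
      apply hc2
      intro b hb
      by_cases hbc : b ∈ center H
      · exact (comm_of_center hbc _).symm
      · have h1 := Subgroup.mem_centralizer_iff.mp hg (e.symm ⟨b, hbc⟩).1
          ⟨e.symm ⟨b, hbc⟩, rfl, by rw [Equiv.apply_symm_apply]; exact hb⟩
        have h2 : Commute (e.symm ⟨b, hbc⟩).1 g.1 := h1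
        rw [he, Equiv.apply_symm_apply] at h2
        exact h2
    · intro hg
      rw [Subgroup.mem_centralizer_iff]
      rintro _ ⟨y, rfl, hy⟩
      have h1 : Commute (e y).1 (e g).1 := hcom _ hy _ hg
      exact (he y g).mpr h1
  have hGcom : ∀ a ∈ G1, ∀ b ∈ G2, a * b = b * a := by
    intro a ha b hb
    by_cases hac : a ∈ center G
    · exact (comm_of_center hac b).symm
    by_cases hbc : b ∈ center G
    · exact comm_of_center hbc a
    · exact (he ⟨a, hac⟩ ⟨b, hbc⟩).mpr
        (hcom _ ((t1 ⟨a, hac⟩).mp ha) _ ((t2 ⟨b, hbc⟩).mp hb))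
  have hGinf : ∀ g, g ∈ G1 → g ∈ G2 → g ∈ center G := by
    intro g h1 h2
    by_contra hg
    exact (e ⟨g, hg⟩).2 (hinf _ ((t1 ⟨g, hg⟩).mp h1) ((t2 ⟨g, hg⟩).mp h2))
  have hs1 : IsSolvable G1 := hR1 G1 (nonempty_iso e he G1 H1 t1)
  have hs2 : IsSolvable G2 := hR2 G2 (nonempty_iso e he G2 H2 t2)
  -- it suffices to show that G1 and G2 generate G
  suffices hsup : G1 ⊔ G2 = ⊤ by
    have hcov : ∀ g : G, ∃ a ∈ G1, ∃ b ∈ G2, a * b = g := by
      intro g
      have hg : g ∈ G1 ⊔ G2 := by rw [hsup]; trivial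
      have hle : G2 ≤ Subgroup.normalizer (G1 : Set G) := by
        intro b hb
        rw [Subgroup.mem_normalizer_iff]
        intro a
        constructor
        · intro ha
          have h1 : b * a * b⁻¹ = a := by rw [← hGcom a ha b hb]; group
          rw [h1]; exact ha
        · intro ha
          have h1 := hGcom _ ha b hb
          have h2 : a = b * a * b⁻¹ := by
            have h3 : b⁻¹ * (b * a * b⁻¹ * b) = b⁻¹ * (b * (b * a * b⁻¹)) := by rw [h1]
            calc a = b⁻¹ * (b * a * b⁻¹ * b) := by group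
              _ = b⁻¹ * (b * (b * a * b⁻¹)) := h3
              _ = b * a * b⁻¹ := by group
          rw [h2]; exact ha
      have h1 : (g : G) ∈ ((G1 ⊔ G2 : Subgroup G) : Set G) := hg
      rw [Subgroup.coe_mul_of_right_le_normalizer_left _ _ hle] at h1
      obtain ⟨a, ha, b, hb, hab⟩ := Set.mem_mul.mp h1
      exact ⟨a, ha, b, hb, hab⟩
    haveI hN : G1.Normal := by
      refine ⟨fun a ha g => ?_⟩
      obtain ⟨a', ha', b', hb', rfl⟩ := hcov g
      have h1 : a' * b' * a * (a' * b')⁻¹ = a' * a * a'⁻¹ := by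
        have h2 : b' * a = a * b' := (hGcom a ha b' hb').symm
        calc a' * b' * a * (a' * b')⁻¹ = a' * (b' * a) * b'⁻¹ * a'⁻¹ := by group
          _ = a' * (a * b') * b'⁻¹ * a'⁻¹ := by rw [h2]
          _ = _ := by group
      rw [h1]
      exact G1.mul_mem (G1.mul_mem ha' ha) (G1.inv_mem ha')
    let q : G2 →* G ⧸ G1 := (QuotientGroup.mk' G1).comp G2.subtype
    have hq : Function.Surjective q := by
      intro x
      obtain ⟨g, rfl⟩ := QuotientGroup.mk_surjective x
      obtain ⟨a, ha, b, hb, rfl⟩ := hcov g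
      refine ⟨⟨b, hb⟩, ?_⟩
      change (b : G ⧸ G1) = ((a * b : G) : G ⧸ G1)
      rw [QuotientGroup.eq]
      have h1 : b⁻¹ * (a * b) = a := by rw [hGcom a ha b hb]; group
      rw [h1]; exact ha
    haveI : Group.IsSolvable G2 := hs2
    exact solvable_ext G1 hs1 (Group.isSolvable_of_surjective hq)
  -- trivial cases
  by_cases hab1 : H1 ≤ center H
  · -- H = H2
    have hH2 : H2 = ⊤ := by
      rw [Subgroup.eq_top_iff']
      intro h
      obtain ⟨a, ha, b, hb, rfl⟩ := hprod h
      exact H2.mul_mem (hZ2 (hab1 ha)) hb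
    rw [Subgroup.eq_top_iff']
    intro g
    by_cases hg : g ∈ center G
    · exact Subgroup.mem_sup_left (hZG1 hg)
    · exact Subgroup.mem_sup_right ((t2 ⟨g, hg⟩).mpr (by rw [hH2]; trivial))
  by_cases hab2 : H2 ≤ center H
  · have hH1 : H1 = ⊤ := by
      rw [Subgroup.eq_top_iff']
      intro h
      obtain ⟨a, ha, b, hb, rfl⟩ := hprod h
      exact H1.mul_mem ha (hZ1 (hab2 hb))
    rw [Subgroup.eq_top_iff']
    intro g
    by_cases hg : g ∈ center G
    · exact Subgroup.mem_sup_left (hZG1 hg)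
    · exact Subgroup.mem_sup_left ((t1 ⟨g, hg⟩).mpr (by rw [hH1]; trivial))
  obtain ⟨x1, hx1, hx1c⟩ := Set.not_subset.mp hab1
  obtain ⟨x2, hx2, hx2c⟩ := Set.not_subset.mp hab2
  have hx1 : x1 ∈ H1 := hx1
  have hx2 : x2 ∈ H2 := hx2
  have hx1c : x1 ∉ center H := hx1c
  have hx2c : x2 ∉ center H := hx2c
  -- they do not commute with their whole factor
  have hp1 : H1 ⊓ Cz x1 < H1 := by
    refine lt_of_le_of_ne inf_le_left (fun heq => hx1c ?_)
    apply hinf x1 hx1
    apply hc2
    intro a ha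
    have h1 : a ∈ H1 ⊓ Cz x1 := by rw [heq]; exact ha
    exact mem_Cz.mp h1.2
  have hp2 : H2 ⊓ Cz x2 < H2 := by
    refine lt_of_le_of_ne inf_le_left (fun heq => hx2c ?_)
    apply hinf x2 _ hx2
    apply hc1
    intro a ha
    have h1 : a ∈ H2 ⊓ Cz x2 := by rw [heq]; exact ha
    exact mem_Cz.mp h1.2
  obtain ⟨g1, hg1⟩ : ∃ g1 : NC G, e g1 = ⟨x1, hx1c⟩ := ⟨e.symm _, Equiv.apply_symm_apply _ _⟩
  obtain ⟨g2, hg2⟩ : ∃ g2 : NC G, e g2 = ⟨x2, hx2c⟩ := ⟨e.symm _, Equiv.apply_symm_apply _ _⟩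
  have hg1' : (e g1).1 = x1 := by rw [hg1]
  have hg2' : (e g2).1 = x2 := by rw [hg2]
  have tc1 : ∀ g : NC G, g.1 ∈ Cz g1.1 ↔ (e g).1 ∈ Cz x1 := by
    intro g; rw [mem_Cz_transfer e he g1 g, hg1']
  have tc2 : ∀ g : NC G, g.1 ∈ Cz g2.1 ↔ (e g).1 ∈ Cz x2 := by
    intro g; rw [mem_Cz_transfer e he g2 g, hg2']
  have hg1G : g1.1 ∈ G1 := (t1 g1).mpr (by rw [hg1']; exact hx1)
  have hg2G : g2.1 ∈ G2 := (t2 g2).mpr (by rw [hg2']; exact hx2)
  have hz0 : 0 < Nat.card (center H) := Nat.card_pos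
  have hzt0 : 0 < Nat.card (center G) := Nat.card_pos
  -- transfers of indices
  have ia := idx_transfer e G1 H1 hZG1 hZ1 t1
  have ib := idx_transfer e G2 H2 hZG2 hZ2 t2
  have ia1 := idx_transfer e (G1 ⊓ Cz g1.1) (H1 ⊓ Cz x1) (le_inf hZG1 (center_le_Cz _))
    (le_inf hZ1 (center_le_Cz _)) (fun g => by
      rw [Subgroup.mem_inf, Subgroup.mem_inf, t1, tc1])
  have ib1 := idx_transfer e (G2 ⊓ Cz g2.1) (H2 ⊓ Cz x2) (le_inf hZG2 (center_le_Cz _))
    (le_inf hZ2 (center_le_Cz _)) (fun g => by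
      rw [Subgroup.mem_inf, Subgroup.mem_inf, t2, tc2])
  have iC := idx_transfer e (⊤ : Subgroup G) (⊤ : Subgroup H) le_top le_top (by simp)
  have iC1 := idx_transfer e (Cz g2.1) (Cz x2) (center_le_Cz _) (center_le_Cz _) tc2
  have iC2 := idx_transfer e (Cz g1.1) (Cz x1) (center_le_Cz _) (center_le_Cz _) tc1
  -- products in H
  have jC : idx H1 * idx H2 = idx (⊤ : Subgroup H) :=
    (idx_mul H1 H2 ⊤ hZ2 hcom hinf le_top le_top).2 (fun g _ => hprod g)
  have jC1 : idx H1 * idx (H2 ⊓ Cz x2) = idx (Cz x2) := by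
    refine (idx_mul H1 (H2 ⊓ Cz x2) (Cz x2) (le_inf hZ2 (center_le_Cz _))
      (fun u hu v hv => hcom u hu v hv.1) (fun g h1 h2 => hinf g h1 h2.1) ?_ inf_le_right).2 ?_
    · intro u hu; exact mem_Cz.mpr (hcom u hu x2 hx2)
    · intro g hg
      obtain ⟨a, ha, b, hb, rfl⟩ := hprod g
      have hb2 : b ∈ Cz x2 := by
        rw [mem_Cz] at hg ⊢
        have h1 : Commute a x2 := hcom a ha x2 hx2
        have h2 : b = a⁻¹ * (a * b) := by group
        rw [h2]
        exact h1.inv_left.mul_left hg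
      exact ⟨a, ha, b, ⟨hb, hb2⟩, rfl⟩
  have jC2 : idx (H1 ⊓ Cz x1) * idx H2 = idx (Cz x1) := by
    refine (idx_mul (H1 ⊓ Cz x1) H2 (Cz x1) hZ2
      (fun u hu v hv => hcom u hu.1 v hv) (fun g h1 h2 => hinf g h1.1 h2) inf_le_right ?_).2 ?_
    · intro u hu; exact mem_Cz.mpr (hcom x1 hx1 u hu).symm
    · intro g hg
      obtain ⟨a, ha, b, hb, rfl⟩ := hprod g
      have ha2 : a ∈ Cz x1 := by
        rw [mem_Cz] at hg ⊢
        have h1 : Commute b x1 := (hcom x1 hx1 b hb).symm
        have h2 : a = (a * b) * b⁻¹ := by group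
        rw [h2]
        exact hg.mul_left h1.inv_left
      exact ⟨a, ⟨ha, ha2⟩, b, hb, rfl⟩
  -- divisibilities in G
  have dC := (idx_mul G1 G2 ⊤ hZG2 hGcom hGinf le_top le_top).1
  have dC1 := (idx_mul G1 (G2 ⊓ Cz g2.1) (Cz g2.1) (le_inf hZG2 (center_le_Cz _))
    (fun u hu v hv => hGcom u hu v hv.1) (fun g h1 h2 => hGinf g h1 h2.1)
    (fun u hu => mem_Cz.mpr (hGcom u hu g2.1 hg2G)) inf_le_right).1
  have dC2 := (idx_mul (G1 ⊓ Cz g1.1) G2 (Cz g1.1) hZG2
    (fun u hu v hv => hGcom u hu.1 v hv) (fun g h1 h2 => hGinf g h1.1 h2) inf_le_right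
    (fun u hu => mem_Cz.mpr (hGcom g1.1 hg1G u hu).symm)).1
  have key : Nat.card (center H) = Nat.card (center G) := by
    apply arith_central (Nat.card (center H)) (Nat.card (center G)) hz0 hzt0
      (idx H1) (idx H2) (idx (H1 ⊓ Cz x1)) (idx (H2 ⊓ Cz x2))
      (idx G1) (idx G2) (idx (G1 ⊓ Cz g1.1)) (idx (G2 ⊓ Cz g2.1))
      (idx (⊤ : Subgroup G)) (idx (Cz g2.1)) (idx (Cz g1.1)) ia ib ia1 ib1
    · rw [← iC, ← jC]; push_cast; ring
    · rw [← iC1, ← jC1]; push_cast; ring
    · rw [← iC2, ← jC2]; push_cast; ring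
    · exact_mod_cast dC
    · exact_mod_cast dC1
    · exact_mod_cast dC2
    · exact_mod_cast idx_dvd (inf_le_left : H1 ⊓ Cz x1 ≤ H1)
    · exact_mod_cast idx_dvd (inf_le_left : H2 ⊓ Cz x2 ≤ H2)
    · exact_mod_cast one_lt_idx (U := H1 ⊓ Cz x1) (u := x1)
        ⟨hx1, mem_Cz.mpr (Commute.refl _)⟩ hx1c
    · exact_mod_cast idx_lt (le_inf hZ1 (center_le_Cz _)) hp1
    · exact_mod_cast one_lt_idx (U := H2 ⊓ Cz x2) (u := x2)
        ⟨hx2, mem_Cz.mpr (Commute.refl _)⟩ hx2c
    · exact_mod_cast idx_lt (le_inf hZ2 (center_le_Cz _)) hp2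
    · have : 0 < idx (⊤ : Subgroup G) := Nat.pos_of_ne_zero Subgroup.index_ne_zero_of_finite
      exact_mod_cast this
  -- now all indices agree
  have hzZ : (Nat.card (center H) : ℤ) ≠ 0 := by exact_mod_cast hz0.ne'
  rw [← key] at ia ib iC
  have ea : idx G1 = idx H1 := by
    have := mul_left_cancel₀ hzZ ia
    have h2 : (idx G1 : ℤ) = idx H1 := by linarith
    exact_mod_cast h2
  have eb : idx G2 = idx H2 := by
    have := mul_left_cancel₀ hzZ ib
    have h2 : (idx G2 : ℤ) = idx H2 := by linarith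
    exact_mod_cast h2
  have eC : idx (⊤ : Subgroup G) = idx (⊤ : Subgroup H) := by
    have := mul_left_cancel₀ hzZ iC
    have h2 : (idx (⊤ : Subgroup G) : ℤ) = idx (⊤ : Subgroup H) := by linarith
    exact_mod_cast h2
  have dsup := (idx_mul G1 G2 (G1 ⊔ G2) hZG2 hGcom hGinf le_sup_left le_sup_right).1
  rw [ea, eb, jC, ← eC] at dsup
  have h0 : 0 < idx (G1 ⊔ G2) := Nat.pos_of_ne_zero Subgroup.index_ne_zero_of_finite
  have hle := Nat.le_of_dvd h0 dsup
  have hc1' := card_eq_center_mul (G1 ⊔ G2) (hZG1.trans le_sup_left)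
  have hc2' := card_eq_center_mul (⊤ : Subgroup G) le_top
  apply Subgroup.eq_top_of_card_eq
  apply le_antisymm (Subgroup.card_le_card_group _)
  rw [← hc1', ← Subgroup.card_top (G := G), ← hc2']
  exact Nat.mul_le_mul_left _ hle

end Pool.Agent.NCG
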