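import Pool.Agent.NCG.Central

namespace Pool.Agent.NCG

open Subgroup

lemma mulEquiv_center {A B : Type} [Group A] [Group B] (f : A ≃* B) (a : A) :
    a ∈ center A ↔ f a ∈ center B := by
  rw [Subgroup.mem_center_iff, Subgroup.mem_center_iff]
  constructor
  · intro h g
    have h1 := h (f.symm g)
    have h2 := congrArg f h1
    rwa [map_mul, map_mul, f.apply_symm_apply] at h2
  · intro h g
    apply f.injective
    rw [map_mul, map_mul]
    exact h (f g)

lemma ncGraph_iso_of_mulEquiv {A B : Type} [Group A] [Group B] (f : A ≃* B) :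
    Nonempty (ncGraph A ≃g ncGraph B) := by
  refine ⟨⟨⟨fun u => ⟨f u.1, fun h => u.2 ((mulEquiv_center f u.1).mpr h)⟩,
    fun u => ⟨f.symm u.1, fun h => u.2 ((mulEquiv_center f.symm u.1).mpr h)⟩, ?_, ?_⟩, ?_⟩⟩
  · intro u; exact Subtype.ext (f.symm_apply_apply _)
  · intro u; exact Subtype.ext (f.apply_symm_apply _)
  · intro u v
    rw [adj_iff, adj_iff, not_iff_not]
    change f u.1 * f v.1 = f v.1 * f u.1 ↔ u.1 * v.1 = v.1 * u.1
    rw [← map_mul, ← map_mul]
    exact f.injective.eq_iff

lemma Recognised.of_mulEquiv {A B : Type} [Group A] [Group B] (f : A ≃* B) (h : Recognised B) :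
    Recognised A := by
  intro G _ _ ⟨g⟩
  obtain ⟨g2⟩ := ncGraph_iso_of_mulEquiv f
  exact h G ⟨g.trans g2⟩

/-- stable version: all products with finite abelian groups are recognised -/
def Stable (H : Type) [Group H] : Prop :=
  ∀ (A : Type) [Group A] [Finite A], (∀ a b : A, a * b = b * a) → Recognised (H × A)

lemma Stable.of_mulEquiv {H H' : Type} [Group H] [Group H'] (f : H' ≃* H) (h : Stable H) :
    Stable H' := by
  intro A _ _ hA
  exact (h A hA).of_mulEquiv (MulEquiv.prodCongr f (MulEquiv.refl A))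

lemma Stable.recognised {H : Type} [Group H] (h : Stable H) : Recognised H := by
  have h1 := h Unit (fun _ _ => rfl)
  exact h1.of_mulEquiv (MulEquiv.prodUnique (M := H) (N := Unit)).symm

section

variable {H : Type} [Group H] {A : Type} [Group A]

lemma mem_center_prod (hcA : ∀ a b : A, a * b = b * a) (x : H × A) : x ∈ center (H × A) ↔ x.1 ∈ center H := by
  rw [Subgroup.center_prod, Subgroup.mem_prod]
  constructor
  · intro h; exact h.1
  · intro h
    refine ⟨h, ?_⟩
    rw [Subgroup.mem_center_iff]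
    intro g; exact hcA _ _

lemma mem_prod_top (K : Subgroup H) (x : H × A) : x ∈ K.prod (⊤ : Subgroup A) ↔ x.1 ∈ K := by
  rw [Subgroup.mem_prod]
  constructor
  · intro h; exact h.1
  · intro h; exact ⟨h, trivial⟩

/-- `K × A` as a subgroup -/
def prodTopEquiv (K : Subgroup H) : (K.prod (⊤ : Subgroup A)) ≃* K × A :=
  (Subgroup.prodEquiv K (⊤ : Subgroup A)).trans
    (MulEquiv.prodCongr (MulEquiv.refl K) Subgroup.topEquiv)

lemma card_prodTop (K : Subgroup H) :
    Nat.card (K.prod (⊤ : Subgroup A)) = Nat.card K * Nat.card A := by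
  rw [Nat.card_congr (prodTopEquiv K).toEquiv, Nat.card_prod]

lemma card_center_prod (hcA : ∀ a b : A, a * b = b * a) : Nat.card (center (H × A)) = Nat.card (center H) * Nat.card A := by
  have h : center (H × A) = (center H).prod (⊤ : Subgroup A) := by
    ext x
    rw [mem_center_prod hcA, mem_prod_top]
  rw [h, card_prodTop]

lemma RelFrobenius.prodTop (hcA : ∀ a b : A, a * b = b * a) {K L : Subgroup H}
    (F : RelFrobenius K L) :
    RelFrobenius (K.prod (⊤ : Subgroup A)) (L.prod (⊤ : Subgroup A)) := by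
  have hK := F.normal
  constructor
  · infer_instance
  · ext x
    rw [Subgroup.mem_inf, mem_prod_top, mem_prod_top, mem_center_prod hcA, ← F.inf_eq,
      Subgroup.mem_inf]
  · rw [Subgroup.eq_top_iff']
    intro x
    obtain ⟨k, hk, l, hl, hkl⟩ := F.decomp x.1
    have h1 : ((k, x.2) : H × A) ∈ K.prod (⊤ : Subgroup A) := (mem_prod_top K _).mpr hk
    have h2 : ((l, 1) : H × A) ∈ L.prod (⊤ : Subgroup A) := (mem_prod_top L _).mpr hl
    have h3 : x = (k, x.2) * (l, 1) := by
      apply Prod.ext
      · exact hkl.symm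
      · exact (mul_one _).symm
    rw [h3]
    exact (K.prod ⊤ ⊔ L.prod ⊤).mul_mem (Subgroup.mem_sup_left h1) (Subgroup.mem_sup_right h2)
  · intro k hk l hl h
    rw [mem_prod_top] at hk hl
    rw [mem_center_prod hcA] at h
    rw [mem_center_prod hcA, mem_center_prod hcA]
    exact F.free k.1 hk l.1 hl h
  · obtain ⟨w, hw, hwZ, hw2⟩ := F.centreK
    refine ⟨(w, 1), (mem_prod_top K _).mpr hw, ?_, ?_⟩
    · rw [mem_center_prod hcA]; exact hwZ
    · intro k hk
      rw [mem_prod_top] at hk
      apply Prod.ext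
      · exact hw2 k.1 hk
      · exact hcA _ _
  · obtain ⟨w, hw, hwZ, hw2⟩ := F.centreL
    refine ⟨(w, 1), (mem_prod_top L _).mpr hw, ?_, ?_⟩
    · rw [mem_center_prod hcA]; exact hwZ
    · intro k hk
      rw [mem_prod_top] at hk
      apply Prod.ext
      · exact hw2 k.1 hk
      · exact hcA _ _

lemma mem_Cz_prod (hcA : ∀ a b : A, a * b = b * a) (x u : H × A) : u ∈ Subgroup.centralizer {x} ↔
    u.1 ∈ Subgroup.centralizer {x.1} := by
  rw [Subgroup.mem_centralizer_singleton_iff, Subgroup.mem_centralizer_singleton_iff]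
  constructor
  · intro h; exact congrArg Prod.fst h
  · intro h; exact Prod.ext h (hcA _ _)

end

theorem stable_of_inClass : ∀ (H : Type) [Group H], InClass H → Finite H → Stable H := by
  intro H _ h
  induction h with
  | comm H h =>
    intro _ A _ _ hcA
    exact recognised_comm (fun a b => Prod.ext (h _ _) (hcA _ _))
  | primeIndex H A₀ hN hA hp =>
    intro _ A _ _ hcA
    haveI := hN
    apply recognised_prime_index (A₀.prod (⊤ : Subgroup A)) inferInstance
    · intro a ha b hb
      rw [mem_prod_top] at ha hb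
      exact Prod.ext (hA _ ha _ hb) (hcA _ _)
    · rw [Subgroup.index_prod, Subgroup.index_top, mul_one]
      exact hp
  | ac H A₀ hA hne hAc n hn hx =>
    intro _ A _ _ hcA
    obtain ⟨w, hwA, hwZ⟩ := hne
    have hpA : 0 < Nat.card A := Nat.card_pos
    apply recognised_ac (A₀.prod (⊤ : Subgroup A)) _ (w, 1) ((mem_prod_top A₀ _).mpr hwA) _ _
      (n * Nat.card A) _ _
    · intro a ha b hb
      rw [mem_prod_top] at ha hb
      exact Prod.ext (hA _ ha _ hb) (hcA _ _)
    · rw [mem_center_prod hcA]; exact hwZ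
    · intro a ha haZ g hg
      rw [mem_prod_top] at ha ⊢
      rw [mem_center_prod hcA] at haZ
      exact hAc a.1 ha haZ g.1 (congrArg Prod.fst hg)
    · rw [card_prodTop]
      intro h
      exact hn (Nat.eq_of_mul_eq_mul_right hpA h)
    · intro x hxA
      rw [mem_prod_top] at hxA
      obtain ⟨h1, h2⟩ := hx x.1 hxA
      constructor
      · have h3 : Subgroup.centralizer {x} =
            (Subgroup.centralizer {x.1}).prod (⊤ : Subgroup A) := by
          ext u
          rw [mem_Cz_prod hcA, mem_prod_top]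
        rw [h3, card_prodTop, h1]
      · intro u hu v hv
        rw [mem_Cz_prod hcA] at hu hv
        exact Prod.ext (h2 _ hu _ hv) (hcA _ _)
  | iso H H' f h ih =>
    intro hfin
    haveI : Finite H := Finite.of_equiv H' f.symm.toEquiv
    exact (ih inferInstance).of_mulEquiv f.symm
  | prod H₁ H₂ h₁ h₂ ih₁ ih₂ =>
    intro hfin A _ _ hcA
    haveI : Finite H₁ := Finite.prod_left H₂
    haveI : Finite H₂ := Finite.prod_right H₁
    -- the two factors inside `(H₁ × H₂) × A`
    let U : Subgroup ((H₁ × H₂) × A) := ((⊤ : Subgroup H₁).prod (center H₂)).prod ⊤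
    let V : Subgroup ((H₁ × H₂) × A) := ((center H₁).prod (⊤ : Subgroup H₂)).prod ⊤
    have hU : ∀ x : (H₁ × H₂) × A, x ∈ U ↔ x.1.2 ∈ center H₂ := by
      intro x
      change x ∈ ((⊤ : Subgroup H₁).prod (center H₂)).prod (⊤ : Subgroup A) ↔ _
      rw [mem_prod_top, Subgroup.mem_prod]
      constructor
      · intro h; exact h.2
      · intro h; exact ⟨trivial, h⟩
    have hV : ∀ x : (H₁ × H₂) × A, x ∈ V ↔ x.1.1 ∈ center H₁ := by
      intro x
      change x ∈ ((center H₁).prod (⊤ : Subgroup H₂)).prod (⊤ : Subgroup A) ↔ _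
      rw [mem_prod_top, Subgroup.mem_prod]
      constructor
      · intro h; exact h.1
      · intro h; exact ⟨h, trivial⟩
    have hcen : ∀ x : (H₁ × H₂) × A, x ∈ center ((H₁ × H₂) × A) ↔
        x.1.1 ∈ center H₁ ∧ x.1.2 ∈ center H₂ := by
      intro x
      rw [mem_center_prod hcA, Subgroup.center_prod, Subgroup.mem_prod]
    have hz1 : ∀ a b : center H₁ × A, a * b = b * a := fun a b =>
      Prod.ext (Subtype.ext (Subgroup.mem_center_iff.mp b.1.2 _)) (hcA _ _)
    have hz2 : ∀ a b : center H₂ × A, a * b = b * a := fun a b =>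
      Prod.ext (Subtype.ext (Subgroup.mem_center_iff.mp b.1.2 _)) (hcA _ _)
    have eU : Nonempty (U ≃* H₁ × (center H₂ × A)) := by
      refine ⟨{ toFun := fun x => (x.1.1.1, (⟨x.1.1.2, (hU x.1).mp x.2⟩, x.1.2))
                invFun := fun y => ⟨((y.1, y.2.1.1), y.2.2), (hU _).mpr y.2.1.2⟩
                left_inv := fun x => rfl
                right_inv := fun y => rfl
                map_mul' := fun x y => rfl }⟩
    have eV : Nonempty (V ≃* H₂ × (center H₁ × A)) := by
      refine ⟨{ toFun := fun x => (x.1.1.2, (⟨x.1.1.1, (hV x.1).mp x.2⟩, x.1.2))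
                invFun := fun y => ⟨((y.2.1.1, y.1), y.2.2), (hV _).mpr y.2.1.2⟩
                left_inv := fun x => rfl
                right_inv := fun y => rfl
                map_mul' := fun x y => rfl }⟩
    obtain ⟨eU⟩ := eU
    obtain ⟨eV⟩ := eV
    apply recognised_central U V
    · intro x hx; exact (hU x).mpr ((hcen x).mp hx).2
    · intro x hx; exact (hV x).mpr ((hcen x).mp hx).1
    · intro a ha b hb
      rw [hU] at ha
      rw [hV] at hb
      apply Prod.ext
      · apply Prod.ext
        · exact Subgroup.mem_center_iff.mp hb _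
        · exact (Subgroup.mem_center_iff.mp ha _).symm
      · exact hcA _ _
    · intro h
      refine ⟨((h.1.1, 1), h.2), (hU _).mpr (one_mem _), ((1, h.1.2), 1),
        (hV _).mpr (one_mem _), ?_⟩
      apply Prod.ext
      · apply Prod.ext
        · exact mul_one _
        · exact one_mul _
      · exact mul_one _
    · exact (ih₁ inferInstance (center H₂ × A) hz2).of_mulEquiv eU
    · exact (ih₂ inferInstance (center H₁ × A) hz1).of_mulEquiv eV
  | central H H₁ H₂ hZ₁ hZ₂ hcom hprod h₁ h₂ ih₁ ih₂ =>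
    intro hfin A _ _ hcA
    apply recognised_central (H₁.prod (⊤ : Subgroup A)) (H₂.prod (⊤ : Subgroup A))
    · intro x hx
      rw [mem_center_prod hcA] at hx
      exact (mem_prod_top _ _).mpr (hZ₁ hx)
    · intro x hx
      rw [mem_center_prod hcA] at hx
      exact (mem_prod_top _ _).mpr (hZ₂ hx)
    · intro a ha b hb
      rw [mem_prod_top] at ha hb
      exact Prod.ext (hcom _ ha _ hb) (hcA _ _)
    · intro h
      obtain ⟨a, ha, b, hb, hab⟩ := hprod h.1
      refine ⟨(a, h.2), (mem_prod_top _ _).mpr ha, (b, 1), (mem_prod_top _ _).mpr hb, ?_⟩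
      exact Prod.ext hab (mul_one _)
    · exact (ih₁ inferInstance A hcA).of_mulEquiv (prodTopEquiv H₁)
    · exact (ih₂ inferInstance A hcA).of_mulEquiv (prodTopEquiv H₂)
  | frobenius H K L F hK hL ihK ihL =>
    intro hfin A _ _ hcA
    apply recognised_frobenius (F.prodTop (A := A) hcA)
    · exact (ihK inferInstance A hcA).of_mulEquiv (prodTopEquiv K)
    · left
      exact (ihL inferInstance A hcA).of_mulEquiv (prodTopEquiv L)
  | frobeniusSmall H K L F hK hL ihK =>
    intro hfin A _ _ hcA
    apply recognised_frobenius (F.prodTop (A := A) hcA)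
    · exact (ihK inferInstance A hcA).of_mulEquiv (prodTopEquiv K)
    · right
      rw [card_prodTop, card_center_prod hcA, Nat.mul_div_mul_right _ _ Nat.card_pos]
      exact hL

end Pool.Agent.NCG
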