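import Mathlib

namespace Pool.Agent.NCG

open Subgroup

/-- a finite group is not the union of the conjugates of a proper subgroup -/
lemma conj_cover {Q : Type*} [Group Q] [Finite Q] (C : Subgroup Q)
    (h : ∀ q : Q, ∃ g : Q, g⁻¹ * q * g ∈ C) : C = ⊤ := by
  classical
  haveI := Fintype.ofFinite Q
  by_contra hC
  have hidx : 1 < C.index := by
    rcases Nat.lt_or_ge 1 C.index with h1 | h1
    · exact h1
    · exfalso
      have h2 : C.index ≠ 0 := Subgroup.index_ne_zero_of_finite
      have h3 : C.index = 1 := by omega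
      exact hC (Subgroup.index_eq_one.mp h3)
  have key := MulAction.sum_card_fixedBy_eq_card_orbits_mul_card_group Q (Q ⧸ C)
  have horb : Fintype.card (Quotient (MulAction.orbitRel Q (Q ⧸ C))) ≤ 1 := by
    rw [Fintype.card_le_one_iff_subsingleton]
    exact (MulAction.pretransitive_iff_subsingleton_quotient Q (Q ⧸ C)).mp inferInstance
  have hone : ∀ q : Q, 1 ≤ Fintype.card (MulAction.fixedBy (Q ⧸ C) q) := by
    intro q
    obtain ⟨g, hg⟩ := h q
    rw [Nat.succ_le_iff, Fintype.card_pos_iff]
    refine ⟨⟨(g : Q ⧸ C), ?_⟩⟩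
    rw [MulAction.mem_fixedBy]
    change ((q * g : Q) : Q ⧸ C) = (g : Q ⧸ C)
    rw [eq_comm, QuotientGroup.eq]
    rw [← mul_assoc]
    exact hg
  have htop : Fintype.card (MulAction.fixedBy (Q ⧸ C) (1 : Q)) = C.index := by
    rw [Subgroup.index_eq_card, Nat.card_eq_fintype_card]
    apply Fintype.card_congr
    refine ⟨fun x => x.1, fun x => ⟨x, by rw [MulAction.mem_fixedBy, one_smul]⟩, fun x => rfl,
      fun x => rfl⟩
  have hsum : Fintype.card Q < ∑ q : Q, Fintype.card (MulAction.fixedBy (Q ⧸ C) q) := by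
    have h4 : ∑ q : Q, 1 < ∑ q : Q, Fintype.card (MulAction.fixedBy (Q ⧸ C) q) := by
      apply Finset.sum_lt_sum
      · intro q _; exact hone q
      · exact ⟨1, Finset.mem_univ _, by rw [htop]; exact hidx⟩
    simpa using h4
  rw [key] at hsum
  have h5 := Nat.mul_le_mul_right (Fintype.card Q) horb
  omega

/-- If commuting elements of order `p` generate the same subgroup, and every element commutes
with an element of order `p`, then there is a central element of order `p`, which lies in every
subgroup of order `p`. -/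
lemma exists_central {Q : Type*} [Group Q] [Finite Q] (p : ℕ) [hp : Fact p.Prime]
    (h1 : ∀ a b : Q, a ^ p = 1 → b ^ p = 1 → a ≠ 1 → b ≠ 1 → Commute a b → b ∈ zpowers a)
    (h2 : ∀ q : Q, ∃ t : Q, t ≠ 1 ∧ t ^ p = 1 ∧ Commute t q) :
    ∃ s : Q, s ≠ 1 ∧ s ^ p = 1 ∧ s ∈ center Q := by
  classical
  obtain ⟨t₀, ht₀, ht₀p, -⟩ := h2 1
  have hcard : p ∣ Nat.card Q := by
    have h3 : orderOf t₀ = p := orderOf_eq_prime ht₀p ht₀
    rw [← h3]; exact orderOf_dvd_natCard t₀
  obtain ⟨S⟩ : Nonempty (Sylow p Q) := inferInstance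
  haveI : Nontrivial S := by
    have h4 := S.isPGroup'.nontrivial_iff_card.mpr
    apply h4
    obtain ⟨n, hn⟩ := IsPGroup.iff_card.mp S.isPGroup'
    refine ⟨n, Nat.pos_of_ne_zero ?_, hn⟩
    rintro rfl
    have h5 := S.dvd_card_of_dvd_card hcard
    rw [hn, pow_zero] at h5
    exact hp.out.one_lt.ne' (Nat.dvd_one.mp h5)
  haveI : Nontrivial (center S) := S.isPGroup'.center_nontrivial
  -- an element of order p in the centre of S
  have hcp : p ∣ Nat.card (center S) := by
    have h6 : IsPGroup p (center S) := S.isPGroup'.to_subgroup _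
    obtain ⟨n, hn⟩ := IsPGroup.iff_card.mp h6
    have hn0 : n ≠ 0 := by
      rintro rfl
      rw [pow_zero] at hn
      have := Finite.one_lt_card (α := center S)
      omega
    rw [hn]; exact dvd_pow_self p hn0
  obtain ⟨s', hs'⟩ := exists_prime_orderOf_dvd_card' (G := center S) p hcp
  have hs'1 : s' ≠ 1 := by
    rintro rfl
    rw [orderOf_one] at hs'
    exact hp.out.one_lt.ne hs'
  have hs'p : s' ^ p = 1 := by
    have h := pow_orderOf_eq_one s'
    rwa [hs'] at h
  set s : Q := ((s' : S) : Q) with hs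
  have hsne : s ≠ 1 := by
    intro h
    apply hs'1
    apply Subtype.ext
    apply Subtype.ext
    exact h
  have hsp : s ^ p = 1 := by
    have h7 : (((s' ^ p : center S) : S) : Q) = ((1 : center S) : S) := by rw [hs'p]
    simpa [hs] using h7
  have hcen : ∀ x : Q, x ∈ S → Commute x s := by
    intro x hx
    have h8 := Subgroup.mem_center_iff.mp s'.2 ⟨x, hx⟩
    have h9 := congrArg (fun y : S => (y : Q)) h8
    exact h9
  have hC : Subgroup.centralizer {s} = ⊤ := by
    apply conj_cover
    intro q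
    obtain ⟨t, ht1, htp, htq⟩ := h2 q
    have htP : IsPGroup p (zpowers t) := by
      apply IsPGroup.of_card (n := 1)
      rw [Nat.card_zpowers, orderOf_eq_prime htp ht1, pow_one]
    obtain ⟨S', hS'⟩ := htP.exists_le_sylow
    obtain ⟨g, hg⟩ := MulAction.exists_smul_eq Q S S'
    have htS : g⁻¹ * t * g ∈ S := by
      have h10 : t ∈ S' := hS' (mem_zpowers t)
      have h10b : t ∈ ((g • S : Sylow p Q) : Subgroup Q) := by rw [hg]; exact h10
      rw [Sylow.coe_subgroup_smul, Subgroup.mem_pointwise_smul_iff_inv_smul_mem] at h10b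
      have h10c : g⁻¹ * t * g ∈ (S : Subgroup Q) := by
        simpa [MulAut.smul_def, mul_assoc] using h10b
      exact h10c
    refine ⟨g, ?_⟩
    have h11 : Commute (g⁻¹ * t * g) s := hcen _ htS
    have h12 : (g⁻¹ * t * g) ^ p = 1 := by
      have := conj_pow (i := p) (a := g⁻¹) (b := t)
      simp only [inv_inv] at this
      rw [this, htp]; simp
    have h13 : g⁻¹ * t * g ≠ 1 := by
      intro h
      apply ht1
      have : t = g * (g⁻¹ * t * g) * g⁻¹ := by group
      rw [this, h]; group
    have h14 := h1 _ _ h12 hsp h13 hsne h11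
    obtain ⟨i, hi⟩ := Subgroup.mem_zpowers_iff.mp h14
    rw [Subgroup.mem_centralizer_singleton_iff, ← hi]
    have h15 : Commute (g⁻¹ * q * g) (g⁻¹ * t * g) := by
      have h16 : t * q = q * t := htq
      change g⁻¹ * q * g * (g⁻¹ * t * g) = g⁻¹ * t * g * (g⁻¹ * q * g)
      have e1 : g⁻¹ * q * g * (g⁻¹ * t * g) = g⁻¹ * (q * t) * g := by group
      have e2 : g⁻¹ * t * g * (g⁻¹ * q * g) = g⁻¹ * (t * q) * g := by group
      rw [e1, e2, h16]
    exact (h15.zpow_right i)
  refine ⟨s, hsne, hsp, ?_⟩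
  rw [Subgroup.mem_center_iff]
  intro g
  have h17 : g ∈ Subgroup.centralizer {s} := by rw [hC]; trivial
  exact Subgroup.mem_centralizer_singleton_iff.mp h17

end Pool.Agent.NCG
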