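import Pool.Agent.NCG.PCyclic

namespace Pool.Agent.NCG

open Subgroup

/-- order `p` elements that commute generate the same subgroup, in a `p`-group: any two do -/
lemma unique_of_commuting {P : Type} [Group P] [Finite P] (p : ℕ) [hp : Fact p.Prime]
    (hP : IsPGroup p P)
    (h1 : ∀ a b : P, a ^ p = 1 → b ^ p = 1 → a ≠ 1 → b ≠ 1 → Commute a b → b ∈ zpowers a) :
    ∀ a b : P, a ^ p = 1 → b ^ p = 1 → a ≠ 1 → b ∈ zpowers a := by
  classical
  intro a b ha hb ha1
  haveI : Nontrivial P := ⟨a, 1, ha1⟩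
  haveI : Nontrivial (center P) := hP.center_nontrivial
  have hcp : p ∣ Nat.card (center P) := by
    obtain ⟨n, hn⟩ := IsPGroup.iff_card.mp (hP.to_subgroup (center P))
    have hn0 : n ≠ 0 := by
      rintro rfl
      rw [pow_zero] at hn
      have := Finite.one_lt_card (α := center P)
      omega
    rw [hn]; exact dvd_pow_self p hn0
  obtain ⟨z', hz'⟩ := exists_prime_orderOf_dvd_card' (G := center P) p hcp
  have hz1 : (z' : P) ≠ 1 := by
    intro h
    have : z' = 1 := Subtype.ext h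
    rw [this, orderOf_one] at hz'
    exact hp.out.one_lt.ne hz'
  have hzp : (z' : P) ^ p = 1 := by
    have h := pow_orderOf_eq_one z'
    rw [hz'] at h
    have h2 := congrArg (fun y : center P => (y : P)) h
    simpa using h2
  have hcen : ∀ x : P, Commute x z' := fun x => Subgroup.mem_center_iff.mp z'.2 x
  have h2 : (z' : P) ∈ zpowers a := h1 a z' ha hzp ha1 hz1 (hcen a)
  by_cases hb1 : b = 1
  · rw [hb1]; exact one_mem _
  · have h3 : b ∈ zpowers (z' : P) := h1 z' b hzp hb hz1 hb1 (hcen b).symm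
    exact (Subgroup.zpowers_le.mpr h2) h3

lemma isZGroup_of {Q : Type} [Group Q] [Finite Q]
    (h1 : ∀ p : ℕ, p.Prime → ∀ a b : Q, a ^ p = 1 → b ^ p = 1 → a ≠ 1 → b ≠ 1 → Commute a b →
      b ∈ zpowers a)
    (h8 : ¬ 8 ∣ Nat.card Q) : IsZGroup Q := by
  classical
  rw [isZGroup_iff]
  intro p hp P
  haveI : Fact p.Prime := ⟨hp⟩
  have h2 : ∀ a b : P, a ^ p = 1 → b ^ p = 1 → a ≠ 1 → b ≠ 1 → Commute a b → b ∈ zpowers a := by
    intro a b ha hb ha1 hb1 hab
    have h3 := h1 p hp (a : Q) (b : Q) (by exact_mod_cast congrArg Subtype.val ha)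
      (by exact_mod_cast congrArg Subtype.val hb) (fun h => ha1 (Subtype.ext h))
      (fun h => hb1 (Subtype.ext h)) (by
        have h4 := congrArg Subtype.val hab.eq
        exact h4)
    obtain ⟨i, hi⟩ := Subgroup.mem_zpowers_iff.mp h3
    exact Subgroup.mem_zpowers_iff.mpr ⟨i, Subtype.ext (by simpa using hi)⟩
  have h3 := unique_of_commuting p P.isPGroup' h2
  obtain ⟨n, hn⟩ := IsPGroup.iff_card.mp P.isPGroup'
  by_cases hp2 : p = 2
  · subst hp2
    have hn2 : n ≤ 2 := by
      by_contra hcon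
      apply h8
      have h4 : (2 : ℕ) ^ 3 ∣ 2 ^ n := pow_dvd_pow 2 (by omega)
      have h5 : 2 ^ n ∣ Nat.card Q := by rw [← hn]; exact P.card_subgroup_dvd_card
      exact (by norm_num : (8 : ℕ) = 2 ^ 3) ▸ h4.trans h5
    by_contra hcyc
    have hle : ∀ x : P, x ^ 2 = 1 := by
      intro x
      have h6 : orderOf x ∣ 2 ^ n := by rw [← hn]; exact orderOf_dvd_natCard x
      obtain ⟨k, hk, hk2⟩ := (Nat.dvd_prime_pow Nat.prime_two).mp h6
      have hkn : k ≠ n := by
        intro h7
        apply hcyc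
        apply isCyclic_of_orderOf_eq_card x
        rw [hk2, h7]; exact hn.symm
      have hk1 : k ≤ 1 := by omega
      have h8' : orderOf x ∣ 2 := by
        rw [hk2]
        exact (pow_dvd_pow 2 hk1)
      exact orderOf_dvd_iff_pow_eq_one.mp h8'
    have hnt : ∃ a : P, a ≠ 1 := by
      by_contra hcon
      push Not at hcon
      apply hcyc
      haveI : Subsingleton P := ⟨fun a b => by rw [hcon a, hcon b]⟩
      infer_instance
    obtain ⟨a, ha⟩ := hnt
    apply hcyc
    exact ⟨⟨a, fun b => h3 a b (hle a) (hle b) ha⟩⟩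
  · exact cyclic_of_unique p hp2 n P hn h3

end Pool.Agent.NCG
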