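import Pool.Agent.NCG.Ring
import Pool.Agent.NCG.Cover
import Pool.Agent.NCG.ZG

namespace Pool.Agent.NCG

open Subgroup

/-- centraliser of one element -/
abbrev Cz {G : Type} [Group G] (g : G) : Subgroup G := Subgroup.centralizer {g}

/-- double centraliser of one element, i.e. the centre of its centraliser -/
abbrev Dz {G : Type} [Group G] (g : G) : Subgroup G :=
  Subgroup.centralizer (Subgroup.centralizer {g} : Set G)

structure Data (G : Type) [Group G] (w : G) (n m : ℕ) (S : Subgroup G → Prop) : Prop where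
  nc : w ∉ center G
  a : ∀ u, u ∉ center G → Commute u w → ∀ g, Commute g u → Commute g w
  b : ∀ x, ¬ Commute x w → ∃ y, ¬ Commute y w ∧ Commute y x ∧
    (∀ v, v ∉ center G → Commute v y → ¬ Commute v w ∧ ∀ g, Commute g v → Commute g y) ∧
    Nat.card (Cz y) = n ∧ Nat.card (Dz y) = m ∧ S (Cz y)
  c : ∀ x, ¬ Commute x w → Nat.card (Cz x) ≠ Nat.card (Cz w)

variable {G : Type} [Group G]

lemma mem_Cz {g u : G} : u ∈ Cz g ↔ Commute u g := Subgroup.mem_centralizer_singleton_iff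

lemma mem_Dz {g u : G} : u ∈ Dz g ↔ ∀ v, Commute v g → Commute v u := by
  rw [Subgroup.mem_centralizer_iff]
  constructor
  · intro h v hv
    exact h v (mem_Cz.mpr hv)
  · intro h v hv
    exact h v (mem_Cz.mp hv)

lemma Dz_le_Cz (g : G) : Dz g ≤ Cz g := fun _ hu => mem_Cz.mpr (mem_Dz.mp hu g (Commute.refl g)).symm

lemma center_le_Cz (g : G) : center G ≤ Cz g := fun u hu =>
  mem_Cz.mpr ((Subgroup.mem_center_iff.mp hu g).symm)

lemma center_le_Dz (g : G) : center G ≤ Dz g := fun u hu =>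
  mem_Dz.mpr (fun v _ => Subgroup.mem_center_iff.mp hu v)

lemma self_mem_Dz (g : G) : g ∈ Dz g := mem_Dz.mpr (fun _ h => h)

lemma card_Cz_conj (g w : G) : Nat.card (Cz (g * w * g⁻¹)) = Nat.card (Cz w) := by
  have h1 : ∀ u : G, Commute u w → Commute (g * u * g⁻¹) (g * w * g⁻¹) := by
    intro u h
    change g * u * g⁻¹ * (g * w * g⁻¹) = g * w * g⁻¹ * (g * u * g⁻¹)
    have h2 : u * w = w * u := h
    calc g * u * g⁻¹ * (g * w * g⁻¹) = g * (u * w) * g⁻¹ := by group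
      _ = g * (w * u) * g⁻¹ := by rw [h2]
      _ = _ := by group
  have h3 : ∀ u : G, Commute u (g * w * g⁻¹) → Commute (g⁻¹ * u * g) w := by
    intro u h
    change g⁻¹ * u * g * w = w * (g⁻¹ * u * g)
    have h2 : u * (g * w * g⁻¹) = (g * w * g⁻¹) * u := h
    calc g⁻¹ * u * g * w = g⁻¹ * (u * (g * w * g⁻¹)) * g := by group
      _ = g⁻¹ * ((g * w * g⁻¹) * u) * g := by rw [h2]
      _ = _ := by group
  exact (Nat.card_congr
    { toFun := fun u : Cz w => (⟨g * u.1 * g⁻¹, mem_Cz.mpr (h1 _ (mem_Cz.mp u.2))⟩ :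
        Cz (g * w * g⁻¹))
      invFun := fun u => ⟨g⁻¹ * u.1 * g, mem_Cz.mpr (h3 _ (mem_Cz.mp u.2))⟩
      left_inv := fun u => Subtype.ext (by simp only; group)
      right_inv := fun u => Subtype.ext (by simp only; group) }).symm

section

variable {w : G} {n m : ℕ} {S : Subgroup G → Prop}

lemma Data.f2 (D : Data G w n m S) {x u : G} (hx : ¬ Commute x w) (hu : Commute u w)
    (hxu : Commute x u) : u ∈ center G := by
  by_contra h
  exact hx (D.a u h hu x hxu)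

lemma Data.exists_out (D : Data G w n m S) : ∃ x, ¬ Commute x w := by
  by_contra h
  push Not at h
  exact D.nc (Subgroup.mem_center_iff.mpr fun g => h g)

lemma Data.conj_w (D : Data G w n m S) (g : G) : ∀ u, Commute u (g * w * g⁻¹) → Commute u w := by
  have h1 : Commute (g * w * g⁻¹) w := by
    by_contra h
    exact D.c _ h (card_Cz_conj g w)
  have h2 : g * w * g⁻¹ ∉ center G := by
    intro h
    apply D.nc
    have h3 := (Subgroup.Normal.conj_mem (inferInstance : (center G).Normal) _ h g⁻¹)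
    have h4 : g⁻¹ * (g * w * g⁻¹) * g⁻¹⁻¹ = w := by group
    rwa [h4] at h3
  intro u hu
  exact D.a _ h2 h1 u hu

lemma Data.normal (D : Data G w n m S) : (Cz w).Normal := by
  refine ⟨fun u hu g => ?_⟩
  rw [mem_Cz] at hu ⊢
  apply D.conj_w g
  change g * u * g⁻¹ * (g * w * g⁻¹) = g * w * g⁻¹ * (g * u * g⁻¹)
  have h2 : u * w = w * u := hu
  calc g * u * g⁻¹ * (g * w * g⁻¹) = g * (u * w) * g⁻¹ := by group
      _ = g * (w * u) * g⁻¹ := by rw [h2]
      _ = _ := by group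

lemma Data.conj_mem (D : Data G w n m S) {u : G} (hu : Commute u w) (g : G) :
    Commute (g * u * g⁻¹) w := by
  haveI := D.normal
  exact mem_Cz.mp (this.conj_mem u (mem_Cz.mpr hu) g)

lemma Data.conj_mem' (D : Data G w n m S) {u : G} (hu : Commute u w) (g : G) :
    Commute (g⁻¹ * u * g) w := by
  have h := D.conj_mem hu g⁻¹
  rwa [inv_inv] at h

lemma Data.normalD (D : Data G w n m S) : (Dz w).Normal := by
  refine ⟨fun v hv g => ?_⟩
  rw [mem_Dz] at hv ⊢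
  intro u hu
  have h1 := hv _ (D.conj_mem' hu g)
  change u * (g * v * g⁻¹) = g * v * g⁻¹ * u
  have h2 : g⁻¹ * u * g * v = v * (g⁻¹ * u * g) := h1
  calc u * (g * v * g⁻¹) = g * (g⁻¹ * u * g * v) * g⁻¹ := by group
    _ = g * (v * (g⁻¹ * u * g)) * g⁻¹ := by rw [h2]
    _ = _ := by group

/-- step 3a -/
lemma Data.step3a (D : Data G w n m S) {x v g : G} (hx : ¬ Commute x w) (hv : v ∈ Dz w)
    (hxv : x * v * x⁻¹ * v⁻¹ ∈ center G) (hg : Commute g x) :
    g * v * g⁻¹ * v⁻¹ ∈ center G := by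
  set c := x * v * x⁻¹ * v⁻¹ with hc
  have hcc := Subgroup.mem_center_iff.mp hxv
  have h1 : x * v * x⁻¹ = c * v := by rw [hc]; group
  have hgx : g * x = x * g := hg
  have h2 : x * (g * v * g⁻¹) * x⁻¹ = c * (g * v * g⁻¹) := by
    have hg' : x * g = g * x := hgx.symm
    have hg2 : g⁻¹ * x⁻¹ = x⁻¹ * g⁻¹ := by
      rw [← mul_inv_rev, ← mul_inv_rev, hgx]
    calc x * (g * v * g⁻¹) * x⁻¹ = (x * g) * v * (g⁻¹ * x⁻¹) := by group
      _ = (g * x) * v * (x⁻¹ * g⁻¹) := by rw [hg', hg2]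
      _ = g * (x * v * x⁻¹) * g⁻¹ := by group
      _ = g * (c * v) * g⁻¹ := by rw [h1]
      _ = (g * c) * v * g⁻¹ := by group
      _ = (c * g) * v * g⁻¹ := by rw [hcc g]
      _ = c * (g * v * g⁻¹) := by group
  have h3 : Commute x (g * v * g⁻¹ * v⁻¹) := by
    change x * (g * v * g⁻¹ * v⁻¹) = g * v * g⁻¹ * v⁻¹ * x
    have h4 : x * v⁻¹ * x⁻¹ = v⁻¹ * c⁻¹ := by
      have : x * v⁻¹ * x⁻¹ = (x * v * x⁻¹)⁻¹ := by group
      rw [this, h1, mul_inv_rev]
    have h5 : x * (g * v * g⁻¹ * v⁻¹) * x⁻¹ = g * v * g⁻¹ * v⁻¹ := by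
      calc x * (g * v * g⁻¹ * v⁻¹) * x⁻¹
          = (x * (g * v * g⁻¹) * x⁻¹) * (x * v⁻¹ * x⁻¹) := by group
        _ = (c * (g * v * g⁻¹)) * (v⁻¹ * c⁻¹) := by rw [h2, h4]
        _ = c * (g * v * g⁻¹ * v⁻¹ * c⁻¹) := by group
        _ = (g * v * g⁻¹ * v⁻¹ * c⁻¹) * c := by rw [hcc]
        _ = g * v * g⁻¹ * v⁻¹ := by group
    calc x * (g * v * g⁻¹ * v⁻¹) = (x * (g * v * g⁻¹ * v⁻¹) * x⁻¹) * x := by group
      _ = g * v * g⁻¹ * v⁻¹ * x := by rw [h5]
  have h6 : Commute (g * v * g⁻¹ * v⁻¹) w := by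
    have hvw : v ∈ Cz w := Dz_le_Cz w hv
    have h7 : g * v * g⁻¹ ∈ Cz w := mem_Cz.mpr (D.conj_mem (mem_Cz.mp hvw) g)
    exact mem_Cz.mp ((Cz w).mul_mem h7 ((Cz w).inv_mem hvw))
  exact D.f2 hx h6 h3

end

end Pool.Agent.NCG
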