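import Mathlib

namespace Pool.Agent.NCG

/-- The non-commuting graph of a group `G`: the vertices are the non-central elements, and two
vertices are adjacent exactly when they do not commute. -/
def ncGraph (G : Type) [Group G] : SimpleGraph {g : G // g ∉ Subgroup.center G} :=
  SimpleGraph.fromRel (fun x y => x.1 * y.1 ≠ y.1 * x.1)

/-- `Recognised H`: every finite group whose non-commuting graph is isomorphic to that of `H`
is solvable. -/
def Recognised (H : Type) [Group H] : Prop :=
  ∀ (G : Type) [Group G] [Finite G], Nonempty (ncGraph G ≃g ncGraph H) → IsSolvable G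

/-- `RelFrobenius K L`: the quotient `H / Z(H)` is a Frobenius group with kernel `K / Z(H)` and
complement `L / Z(H)` (that is, `K` is normal, `K ⊓ L = Z(H)`, `K ⊔ L = H`, and no element of
`L` outside `Z(H)` commutes modulo `Z(H)` with an element of `K` outside `Z(H)`), and each of the
centres of `K` and of `L` is larger than `Z(H)`. -/
structure RelFrobenius {H : Type} [Group H] (K L : Subgroup H) : Prop where
  normal : K.Normal
  inf_eq : K ⊓ L = Subgroup.center H
  sup_eq : K ⊔ L = ⊤
  free : ∀ k ∈ K, ∀ l ∈ L, k * l * k⁻¹ * l⁻¹ ∈ Subgroup.center H →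
    k ∈ Subgroup.center H ∨ l ∈ Subgroup.center H
  centreK : ∃ w ∈ K, w ∉ Subgroup.center H ∧ ∀ k ∈ K, k * w = w * k
  centreL : ∃ y ∈ L, y ∉ Subgroup.center H ∧ ∀ l ∈ L, l * y = y * l

/-- The class of groups generated as follows. It contains all abelian groups, all groups with
an abelian normal subgroup of prime index, and all groups `H` with an abelian subgroup
`A ≠ Z(H)` such that `A` is the centraliser of each of its elements outside `Z(H)` and all
centralisers of elements outside `A` are abelian and have one and the same order `n ≠ |A|`;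
and it is closed under isomorphism, direct products, central products, and under forming `H` from
the subgroups `K` and `L` when `H / Z(H)` is a Frobenius group with kernel `K / Z(H)` and
complement `L / Z(H)` (`RelFrobenius K L`); in the last step no condition on `L` is needed when
the order of the complement `L / Z(H)` is not divisible by `8`. -/
inductive InClass : (H : Type) → [Group H] → Prop
  | comm (H : Type) [Group H] (h : ∀ a b : H, a * b = b * a) : InClass H
  | primeIndex (H : Type) [Group H] (A : Subgroup H) (hN : A.Normal)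
      (hA : ∀ a ∈ A, ∀ b ∈ A, a * b = b * a) (hp : A.index.Prime) : InClass H
  | ac (H : Type) [Group H] (A : Subgroup H) (hA : ∀ a ∈ A, ∀ b ∈ A, a * b = b * a)
      (hne : ∃ w ∈ A, w ∉ Subgroup.center H)
      (hAc : ∀ a ∈ A, a ∉ Subgroup.center H → ∀ g : H, g * a = a * g → g ∈ A) (n : ℕ)
      (hn : n ≠ Nat.card A)
      (hx : ∀ x : H, x ∉ A → Nat.card (Subgroup.centralizer {x}) = n ∧
        ∀ u ∈ Subgroup.centralizer {x}, ∀ v ∈ Subgroup.centralizer {x}, u * v = v * u) :
      InClass H
  | iso (H H' : Type) [Group H] [Group H'] (f : H ≃* H') (h : InClass H) : InClass H'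
  | prod (H₁ H₂ : Type) [Group H₁] [Group H₂] (h₁ : InClass H₁) (h₂ : InClass H₂) :
      InClass (H₁ × H₂)
  | central (H : Type) [Group H] (H₁ H₂ : Subgroup H) (hZ₁ : Subgroup.center H ≤ H₁)
      (hZ₂ : Subgroup.center H ≤ H₂) (hcom : ∀ a ∈ H₁, ∀ b ∈ H₂, a * b = b * a)
      (hprod : ∀ h : H, ∃ a ∈ H₁, ∃ b ∈ H₂, a * b = h) (h₁ : InClass H₁) (h₂ : InClass H₂) :
      InClass H
  | frobenius (H : Type) [Group H] (K L : Subgroup H) (F : RelFrobenius K L) (hK : InClass K)
      (hL : InClass L) : InClass H
  | frobeniusSmall (H : Type) [Group H] (K L : Subgroup H) (F : RelFrobenius K L)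
      (hK : InClass K) (hL : ¬ 8 ∣ Nat.card L / Nat.card (Subgroup.center H)) : InClass H

end Pool.Agent.NCG
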