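import Pool.Agent.NCG.Transfer

namespace Pool.Agent.NCG

open Subgroup

lemma arith_dvd (z zt : ℕ) (hz : 0 < z) (hzt : 0 < zt) (k m o l q : ℤ)
    (h1 : (z : ℤ) * (k - 1) = zt * (o - 1)) (h2 : (z : ℤ) * (m - 1) = zt * (l - 1))
    (h3 : (z : ℤ) * (k * m - 1) = zt * (o * q - 1)) (p : ℤ) (hp : Prime p)
    (hl : p ∣ l) (ho : p ∣ o) : p ∣ k ∧ p ∣ m := by
  obtain ⟨a, b, hab, ha, hb⟩ := Nat.exists_coprime z zt
  have hd : 0 < Nat.gcd z zt := Nat.gcd_pos_of_pos_left _ hz
  set d := Nat.gcd z zt with hdd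
  have hdZ : (d : ℤ) ≠ 0 := by exact_mod_cast hd.ne'
  have haZ : (z : ℤ) = a * d := by exact_mod_cast ha
  have hbZ : (zt : ℤ) = b * d := by exact_mod_cast hb
  have h1' : (a : ℤ) * (k - 1) = b * (o - 1) := by
    apply mul_left_cancel₀ hdZ
    rw [haZ, hbZ] at h1; linear_combination h1
  have h2' : (a : ℤ) * (m - 1) = b * (l - 1) := by
    apply mul_left_cancel₀ hdZ
    rw [haZ, hbZ] at h2; linear_combination h2
  have h3' : (a : ℤ) * (k * m - 1) = b * (o * q - 1) := by
    apply mul_left_cancel₀ hdZ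
    rw [haZ, hbZ] at h3; linear_combination h3
  have hb0 : (b : ℤ) ≠ 0 := by
    intro h
    rw [h, zero_mul] at hbZ
    omega
  have h4 : (b : ℤ) * (o - 1) * (l - 1) = a * (o * q - o - l + 1) := by
    apply mul_left_cancel₀ hb0
    have h5 : (a : ℤ) * ((k - 1) * (m - 1)) = b * (o * q - o - l + 1) := by
      linear_combination h3' - h1' - h2'
    have h6 : (b : ℤ) * (b * (o - 1) * (l - 1)) = (a * (k - 1)) * (a * (m - 1)) := by
      rw [h1', h2']; ring
    rw [h6]
    linear_combination (a : ℤ) * h5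
  have h7 : p ∣ (b : ℤ) - a := by
    obtain ⟨o', rfl⟩ := ho
    obtain ⟨l', rfl⟩ := hl
    refine ⟨a * o' * q - a * o' - a * l' - b * (o' * (p * l') - o' - l'), ?_⟩
    linear_combination h4
  have h8 : ¬ p ∣ (a : ℤ) := by
    intro h9
    have h10 : p ∣ (b : ℤ) := by
      have := dvd_add h7 h9
      simpa using this
    have h11 : IsCoprime (a : ℤ) (b : ℤ) := Nat.isCoprime_iff_coprime.mpr hab
    exact hp.not_unit (h11.isUnit_of_dvd' h9 h10)
  constructor
  · have h9 : p ∣ (a : ℤ) * k := by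
      obtain ⟨o', ho'⟩ := ho
      obtain ⟨c, hc⟩ := h7
      refine ⟨b * o' - c, ?_⟩
      rw [ho'] at h1'
      linear_combination h1' - hc
    exact (hp.dvd_or_dvd h9).resolve_left h8
  · have h9 : p ∣ (a : ℤ) * m := by
      obtain ⟨l', hl'⟩ := hl
      obtain ⟨c, hc⟩ := h7
      refine ⟨b * l' - c, ?_⟩
      rw [hl'] at h2'
      linear_combination h2' - hc
    exact (hp.dvd_or_dvd h9).resolve_left h8

lemma arith_eq (z zt k m o l : ℤ) (hz : 0 < z) (hzt : 0 < zt)
    (h1 : z * (k - 1) = zt * (o - 1)) (h2 : z * (m - 1) = zt * (l - 1))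
    (h3 : z * (k * m - 1) = zt * (o * l - 1)) (hk : k ≠ 1) (hm : m ≠ 1) : z = zt := by
  have ho : o - 1 ≠ 0 := by
    intro h
    rw [h, mul_zero] at h1
    rcases mul_eq_zero.mp h1 with h4 | h4
    · omega
    · exact hk (by linarith)
  have hl : l - 1 ≠ 0 := by
    intro h
    rw [h, mul_zero] at h2
    rcases mul_eq_zero.mp h2 with h4 | h4
    · omega
    · exact hm (by linarith)
  have h5 : z * ((k - 1) * (m - 1)) = zt * ((o - 1) * (l - 1)) := by
    linear_combination h3 - h1 - h2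
  have h6 : (z * (k - 1)) * (z * (m - 1)) = (zt * (o - 1)) * (zt * (l - 1)) := by
    rw [h1, h2]
  have h7 : zt * ((o - 1) * (l - 1)) * (z - zt) = 0 := by
    linear_combination h6 - z * h5
  rcases mul_eq_zero.mp h7 with h8 | h8
  · rcases mul_eq_zero.mp h8 with h9 | h9
    · omega
    · rcases mul_eq_zero.mp h9 with h10 | h10
      · exact absurd h10 ho
      · exact absurd h10 hl
  · linarith

variable {G : Type} [Group G] {w : G} {n m : ℕ} {S : Subgroup G → Prop}

lemma solvable_ext (N : Subgroup G) [N.Normal] (h1 : IsSolvable N) (h2 : IsSolvable (G ⧸ N)) :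
    IsSolvable G := by
  haveI : Group.IsSolvable N := h1
  haveI : Group.IsSolvable (G ⧸ N) := h2
  apply Group.isSolvable_of_ker_le_range N.subtype (QuotientGroup.mk' N)
  rw [QuotientGroup.ker_mk', Subgroup.range_subtype]

theorem Data.dichotomy [Finite G] (D : Data G w n m S)
    (hW : (∀ x ∈ Cz w, ∀ y ∈ Cz w, x * y = y * x) ∨
      (∀ p : ℕ, p.Prime → Nat.card (center G) * p ∣ n →
        ¬ Nat.card (center G) * p ∣ Nat.card (Cz w)))
    (hs : IsSolvable (Cz w)) :
    IsSolvable G ∨ ∃ x, S (Cz x) ∧ (IsSolvable (Cz x) → IsSolvable G) ∧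
      Nat.card G * Nat.card (center G) = n * Nat.card (Cz w) ∧
      (∀ r : ℕ, Nat.card (center G) * r = n → ¬ 8 ∣ r → IsSolvable G) := by
  haveI hN := D.normal
  by_cases hII : ∀ g, ¬ Commute g w → ∀ v ∈ Dz w, g * v * g⁻¹ * v⁻¹ ∈ center G → v ∈ center G
  · right
    obtain ⟨x, hxw, hxn, hxS, hxI, hxc⟩ := D.caseII hII hW
    let f : Cz x →* G ⧸ Cz w := (QuotientGroup.mk' (Cz w)).comp (Cz x).subtype
    have hf : Function.Surjective f := by
      intro q
      obtain ⟨g, rfl⟩ := QuotientGroup.mk_surjective q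
      obtain ⟨c, hc, hgc⟩ := hxc g
      refine ⟨⟨g * c⁻¹, hgc⟩, ?_⟩
      change ((g * c⁻¹ : G) : G ⧸ Cz w) = (g : G ⧸ Cz w)
      rw [eq_comm, QuotientGroup.eq]
      have h1 : g⁻¹ * (g * c⁻¹) = c⁻¹ := by group
      rw [h1]
      exact (Cz w).inv_mem hc
    have hker : f.ker = (center G).subgroupOf (Cz x) := by
      ext g
      rw [MonoidHom.mem_ker, Subgroup.mem_subgroupOf]
      constructor
      · intro h
        have h1 : (g : G) ∈ Cz w := (QuotientGroup.eq_one_iff (g : G)).mp h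
        exact hxI g (mem_Cz.mp g.2) (mem_Cz.mp h1)
      · intro h
        exact (QuotientGroup.eq_one_iff (g : G)).mpr (center_le_Cz w h)
    have hcardQ : Nat.card (G ⧸ Cz w) = ((center G).subgroupOf (Cz x)).index := by
      rw [← hker, Subgroup.index_ker, MonoidHom.range_eq_top.mpr hf]
      exact (Subgroup.card_top).symm
    have hcq : Nat.card (center G) * Nat.card (G ⧸ Cz w) = n := by
      rw [hcardQ, card_eq_center_mul (Cz x) (center_le_Cz x), hxn]
    refine ⟨x, hxS, ?_, ?_, ?_⟩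
    · intro hsx
      haveI : Group.IsSolvable (Cz x) := hsx
      have h1 : IsSolvable (G ⧸ Cz w) := Group.isSolvable_of_surjective hf
      exact solvable_ext (Cz w) hs h1
    · rw [← hcq, ← Subgroup.card_mul_index (Cz w), Subgroup.index_eq_card]
      ring
    · intro r hr h8
      have h1 : Nat.card (G ⧸ Cz w) = r := by
        have h2 : Nat.card (center G) * Nat.card (G ⧸ Cz w) = Nat.card (center G) * r := by
          rw [hcq, hr]
        exact Nat.eq_of_mul_eq_mul_left Nat.card_pos h2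
      haveI : IsZGroup (G ⧸ Cz w) := by
        apply isZGroup_of
        · intro p hp a b ha hb ha1 hb1 hab
          exact D.step4b hII p hp hN a b ha hb ha1 hb1 hab
        · rw [h1]; exact h8
      exact solvable_ext (Cz w) hs (inferInstance : Group.IsSolvable (G ⧸ Cz w))
  · left
    push Not at hII
    obtain ⟨g, hg, v, hv, hgv, hvc⟩ := hII
    obtain ⟨l, hl, hlg⟩ := D.caseI hg hv hvc hgv
    haveI : Fact l.Prime := ⟨hl⟩
    have hP : IsPGroup l (G ⧸ Cz w) := by
      intro q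
      obtain ⟨g, rfl⟩ := QuotientGroup.mk_surjective q
      obtain ⟨k, hk⟩ := hlg g
      exact ⟨k, (QuotientGroup.eq_one_iff _).mpr hk⟩
    haveI := hP.isNilpotent
    exact solvable_ext (Cz w) hs (inferInstance : Group.IsSolvable (G ⧸ Cz w))

end Pool.Agent.NCG
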