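import Pool.Agent.NCG.Frob

namespace Pool.Agent.NCG

open Subgroup

variable {H : Type} [Group H]

lemma RelFrobenius.data [Finite H] {K L : Subgroup H} (F : RelFrobenius K L) {w y' : H}
    (hwK : w ∈ K) (hwZ : w ∉ center H) (hw : ∀ k ∈ K, k * w = w * k)
    (hyL : y' ∈ L) (hyZ : y' ∉ center H) (hy : ∀ l ∈ L, l * y' = y' * l) :
    Cz w = K ∧ Data H w (Nat.card L) (Nat.card (Dz y'))
      (fun K' => Nonempty (ncGraph K' ≃g ncGraph L)) := by
  have hCw : Cz w = K := by
    apply le_antisymm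
    · intro g hg; exact F.centK hwK hwZ (mem_Cz.mp hg)
    · intro g hg; exact mem_Cz.mpr (hw g hg)
  have hCy : Cz y' = L := by
    apply le_antisymm
    · intro g hg; exact F.centL hyL hyZ (mem_Cz.mp hg)
    · intro g hg; exact mem_Cz.mpr (hy g hg)
  have hKw : ∀ g : H, Commute g w ↔ g ∈ K := by
    intro g; rw [← hCw, mem_Cz]
  have hLy : ∀ g : H, Commute g y' ↔ g ∈ L := by
    intro g; rw [← hCy, mem_Cz]
  refine ⟨hCw, ⟨hwZ, ?_, ?_, ?_⟩⟩
  · intro u hu huw g hgu
    rw [hKw] at huw ⊢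
    exact F.centK huw hu hgu
  · intro x hx
    rw [hKw] at hx
    obtain ⟨c, l, hl, hlZ, hcx⟩ := F.conj_form hx
    have hyc : c * (c⁻¹ * y' * c) * c⁻¹ = y' := by group
    have hyNC : c⁻¹ * y' * c ∉ center H := by
      intro h
      apply hyZ
      rw [← hyc, conj_mem_center_iff]; exact h
    have hconj : ∀ g : H, Commute g (c⁻¹ * y' * c) ↔ c * g * c⁻¹ ∈ L := by
      intro g
      rw [commute_conj c, hyc, hLy]
    have hKc : ∀ g : H, g ∈ K ↔ c * g * c⁻¹ ∈ K := by
      intro g
      constructor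
      · intro h; exact F.normal.conj_mem g h c
      · intro h
        have h1 := F.normal.conj_mem _ h c⁻¹
        have h2 : c⁻¹ * (c * g * c⁻¹) * c⁻¹⁻¹ = g := by group
        rwa [h2] at h1
    have hcard := card_Cz_conj c⁻¹ y'
    rw [inv_inv, hCy] at hcard
    have hmem : ∀ g : NC H, g.1 ∈ Cz (c⁻¹ * y' * c) ↔ (conjNC c g).1 ∈ L := by
      intro g
      rw [mem_Cz, hconj]; rfl
    refine ⟨c⁻¹ * y' * c, ?_, ?_, ?_, hcard, ?_, ?_⟩
    · rw [hKw, hKc, hyc]
      intro h
      exact hyZ (F.both h hyL)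
    · rw [commute_conj c, hyc, hcx]
      exact ((hLy l).mpr hl).symm
    · intro v hv hvy
      rw [hconj] at hvy
      have hv' : c * v * c⁻¹ ∉ center H := fun h => hv ((conj_mem_center_iff c v).mp h)
      constructor
      · rw [hKw, hKc]
        intro h
        exact hv' (F.both h hvy)
      · intro g hg
        rw [hconj]
        exact F.centL hvy hv' ((commute_conj c g v).mp hg)
    · -- card of the double centraliser
      have h1 := card_transfer (conjNC c) (Dz (c⁻¹ * y' * c)) (Dz y') (center_le_Dz _)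
        (center_le_Dz _) (by
          intro g
          have h2 := mem_Dz_transfer (conjNC c) (conjNC_he c) ⟨c⁻¹ * y' * c, hyNC⟩ g
          have h3 : (conjNC c ⟨c⁻¹ * y' * c, hyNC⟩).1 = y' := hyc
          rw [h3] at h2
          exact h2)
      omega
    · exact nonempty_iso (conjNC c) (conjNC_he c) _ _ hmem
  · intro x hx
    rw [hKw] at hx
    obtain ⟨c, l, hl, hlZ, hcx⟩ := F.conj_form hx
    have h1 : Nat.card (Cz x) = Nat.card (Cz l) := by
      rw [← hcx]; exact (card_Cz_conj c x).symm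
    have h2 : Nat.card (Cz l) ≤ Nat.card L :=
      Subgroup.card_le_of_le (fun g hg => F.centL hl hlZ (mem_Cz.mp hg))
    have h3 := F.card_lt
    rw [hCw, h1]
    omega

/-- closure under (relative) Frobenius extensions -/
theorem recognised_frobenius [Finite H] {K L : Subgroup H} (F : RelFrobenius K L)
    (hK : Recognised K)
    (hL : Recognised L ∨ ¬ 8 ∣ Nat.card L / Nat.card (center H)) : Recognised H := by
  intro G _ _ ⟨f⟩
  obtain ⟨w, hwK, hwZ, hw⟩ := F.centreK
  obtain ⟨y', hyL, hyZ, hy⟩ := F.centreL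
  obtain ⟨hCw, D0⟩ := F.data hwK hwZ hw hyL hyZ hy
  let e : NC G ≃ NC H := f.toEquiv
  have he : ∀ x y : NC G, Commute x.1 y.1 ↔ Commute (e x).1 (e y).1 := iso_comm f
  obtain ⟨w0, hw0⟩ : ∃ w0 : NC G, e w0 = ⟨w, hwZ⟩ := ⟨e.symm _, Equiv.apply_symm_apply _ _⟩
  have hw0' : (e w0).1 = w := by rw [hw0]
  have D1 : Data H (e w0).1 (Nat.card L) (Nat.card (Dz y'))
      (fun K' => Nonempty (ncGraph K' ≃g ncGraph L)) := by rw [hw0']; exact D0
  have D := D1.transfer e he
  -- `C(w0)` is solvable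
  have hsW : IsSolvable (Cz w0.1) := by
    apply hK
    apply nonempty_iso e he
    intro g
    rw [mem_Cz_transfer e he w0 g, hw0', hCw]
  -- cardinalities
  have hz0 : 0 < Nat.card (center H) := Nat.card_pos
  have hzt0 : 0 < Nat.card (center G) := Nat.card_pos
  have hcW : Nat.card (Cz w0.1) + Nat.card (center H) = Nat.card K + Nat.card (center G) := by
    have h1 := card_transfer e (Cz w0.1) (Cz (e w0).1) (center_le_Cz _) (center_le_Cz _)
      (mem_Cz_transfer e he w0)
    rw [hw0', hCw] at h1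
    exact h1
  have hcG : Nat.card G + Nat.card (center H) = Nat.card H + Nat.card (center G) := by
    have h1 := card_transfer e (⊤ : Subgroup G) (⊤ : Subgroup H) le_top le_top (by simp)
    rw [Subgroup.card_top, Subgroup.card_top] at h1
    exact h1
  set z := Nat.card (center H) with hz
  set zt := Nat.card (center G) with hzt
  set n' := Nat.card L + zt - z with hn'
  have hzL : z ≤ Nat.card L := Subgroup.card_le_of_le F.ZL
  have hn'' : n' + z = Nat.card L + zt := by omega
  obtain ⟨k, hk⟩ : ∃ k, Nat.card K = z * k := ⟨_, (card_eq_center_mul K F.ZK).symm⟩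
  obtain ⟨l, hl⟩ : ∃ l, Nat.card L = z * l := ⟨_, (card_eq_center_mul L F.ZL).symm⟩
  obtain ⟨o, ho⟩ : ∃ o, Nat.card (Cz w0.1) = zt * o :=
    ⟨_, (card_eq_center_mul _ (center_le_Cz _)).symm⟩
  have hH : Nat.card H = z * k * l := by
    have h1 := F.card_eq
    rw [hk, hl] at h1
    apply Nat.eq_of_mul_eq_mul_right hz0
    rw [h1]; ring
  have hk1 : k ≠ 1 := by
    rintro rfl
    obtain ⟨w, hwK, hwZ, -⟩ := F.centreK
    have h1 : center H = K := Subgroup.eq_of_le_of_card_ge F.ZK (by rw [hk, ← hz]; omega)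
    exact hwZ (by rw [h1]; exact hwK)
  have hl1 : l ≠ 1 := by
    rintro rfl
    have h1 : center H = L := Subgroup.eq_of_le_of_card_ge F.ZL (by rw [hl, ← hz]; omega)
    exact hyZ (by rw [h1]; exact hyL)
  -- n' = zt * lam
  obtain ⟨lam, hlam⟩ : ∃ lam, n' = zt * lam := by
    obtain ⟨x, hx⟩ := D.exists_out
    obtain ⟨y, -, -, -, hyn, -⟩ := D.b x hx
    exact ⟨_, by rw [← hyn]; exact (card_eq_center_mul _ (center_le_Cz y)).symm⟩
  obtain ⟨q, hq⟩ : Nat.card (Cz w0.1) ∣ Nat.card G := Subgroup.card_subgroup_dvd_card _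
  have e1 : (z : ℤ) * (k - 1) = zt * (o - 1) := by
    have h1 : zt * o + z = z * k + zt := by rw [← ho, ← hk]; exact hcW
    have h2 : (zt : ℤ) * o + z = z * k + zt := by exact_mod_cast h1
    linear_combination -h2
  have e2 : (z : ℤ) * (l - 1) = zt * (lam - 1) := by
    have h1 : zt * lam + z = z * l + zt := by rw [← hlam, ← hl]; exact hn''
    have h2 : (zt : ℤ) * lam + z = z * l + zt := by exact_mod_cast h1
    linear_combination -h2
  have e3 : (z : ℤ) * (k * l - 1) = zt * (o * q - 1) := by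
    have h1 : zt * o * q + z = z * k * l + zt := by rw [← ho, ← hq, ← hH]; exact hcG
    have h2 : (zt : ℤ) * o * q + z = z * k * l + zt := by exact_mod_cast h1
    linear_combination -h2
  have hW : ∀ p : ℕ, p.Prime → zt * p ∣ n' → ¬ zt * p ∣ Nat.card (Cz w0.1) := by
    intro p hp h1 h2
    rw [hlam] at h1
    rw [ho] at h2
    have h3 := Nat.dvd_of_mul_dvd_mul_left hzt0 h1
    have h4 := Nat.dvd_of_mul_dvd_mul_left hzt0 h2
    obtain ⟨h5, h6⟩ := arith_dvd z zt hz0 hzt0 k l o lam q e1 e2 e3 p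
      (Nat.prime_iff_prime_int.mp hp) (by exact_mod_cast h3) (by exact_mod_cast h4)
    have h7 : p ∣ k := by exact_mod_cast h5
    have h8 : p ∣ l := by exact_mod_cast h6
    apply F.coprime p hp
    · rw [hk]; exact Nat.mul_dvd_mul_left _ h7
    · rw [hl]; exact Nat.mul_dvd_mul_left _ h8
  rcases D.dichotomy (Or.inr hW) hsW with h | ⟨x, ⟨y, hxy, hyS⟩, hx1, hx2, hx3⟩
  · exact h
  · rcases hL with hL | hL
    · apply hx1
      rw [hxy]
      apply hL
      obtain ⟨g1⟩ := nonempty_iso e he (Cz y.1) (Cz (e y).1) (mem_Cz_transfer e he y)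
      obtain ⟨g2⟩ := hyS
      exact ⟨g1.trans g2⟩
    · have hql : q = lam := by
        rw [hq, ho, hlam] at hx2
        have h1 : (zt * o) * (zt * q) = (zt * o) * (zt * lam) := by
          linarith [hx2]
        have hpos : 0 < zt * o := by rw [← ho]; exact Nat.card_pos
        have h2 := Nat.eq_of_mul_eq_mul_left hpos h1
        exact Nat.eq_of_mul_eq_mul_left hzt0 h2
      have hzz : (z : ℤ) = zt := by
        apply arith_eq z zt k l o lam (by exact_mod_cast hz0) (by exact_mod_cast hzt0) e1 e2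
        · rw [hql] at e3; exact e3
        · exact_mod_cast hk1
        · exact_mod_cast hl1
      have hzz' : z = zt := by exact_mod_cast hzz
      have hll : lam = l := by
        have h1 : z * l = zt * lam := by
          rw [← hl, ← hlam]; omega
        rw [← hzz'] at h1
        exact (Nat.eq_of_mul_eq_mul_left hz0 h1).symm
      apply hx3 lam hlam.symm
      rw [hll]
      rw [hl, Nat.mul_div_cancel_left l hz0] at hL
      exact hL

/-- groups all of whose centralisers outside one abelian centraliser are abelian of one order -/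
theorem recognised_ac [Finite H] (A : Subgroup H) (hA : ∀ a ∈ A, ∀ b ∈ A, a * b = b * a)
    (w : H) (hwA : w ∈ A) (hwZ : w ∉ center H)
    (hAc : ∀ a ∈ A, a ∉ center H → ∀ g : H, g * a = a * g → g ∈ A) (n : ℕ)
    (hn : n ≠ Nat.card A)
    (hx : ∀ x : H, x ∉ A → Nat.card (Subgroup.centralizer {x}) = n ∧
      ∀ u ∈ Subgroup.centralizer {x}, ∀ v ∈ Subgroup.centralizer {x}, u * v = v * u) :
    Recognised H := by
  intro G _ _ ⟨f⟩
  have hCw : Cz w = A := by
    apply le_antisymm
    · intro g hg; exact hAc w hwA hwZ g (mem_Cz.mp hg)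
    · intro g hg; exact mem_Cz.mpr (hA g hg w hwA)
  have hKw : ∀ g : H, Commute g w ↔ g ∈ A := by
    intro g; rw [← hCw, mem_Cz]
  have D0 : Data H w n n (fun K' => ∀ u ∈ K', ∀ v ∈ K', u * v = v * u) := by
    refine ⟨hwZ, ?_, ?_, ?_⟩
    · intro u hu huw g hgu
      rw [hKw] at huw ⊢
      exact hAc u huw hu g hgu
    · intro x hxw
      rw [hKw] at hxw
      obtain ⟨h1, h2⟩ := hx x hxw
      have h2' : ∀ u v : H, Commute u x → Commute v x → Commute u v := fun u v hu hv =>
        h2 u (mem_Cz.mpr hu) v (mem_Cz.mpr hv)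
      refine ⟨x, by rw [hKw]; exact hxw, Commute.refl x, ?_, h1, ?_, h2⟩
      · intro v hv hvx
        have hvA : v ∉ A := by
          intro hvA
          exact hxw (hAc v hvA hv x hvx.symm)
        refine ⟨by rw [hKw]; exact hvA, fun g hg => ?_⟩
        have h3 : Cz x ≤ Cz v := by
          intro u hu
          exact mem_Cz.mpr (h2' u v (mem_Cz.mp hu) hvx)
        have h4 : Cz x = Cz v := Subgroup.eq_of_le_of_card_ge h3 (by
          rw [(hx v hvA).1, h1])
        have h5 : g ∈ Cz x := by rw [h4]; exact mem_Cz.mpr hg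
        exact mem_Cz.mp h5
      · have h3 : Dz x = Cz x := by
          apply le_antisymm (Dz_le_Cz x)
          intro u hu
          rw [mem_Dz]
          intro v hv
          exact h2' v u hv (mem_Cz.mp hu)
        rw [h3]; exact h1
    · intro x hxw
      rw [hKw] at hxw
      rw [hCw]
      have h1 : Nat.card (Cz x) = n := (hx x hxw).1
      rw [h1]; exact hn
  let e : NC G ≃ NC H := f.toEquiv
  have he : ∀ x y : NC G, Commute x.1 y.1 ↔ Commute (e x).1 (e y).1 := iso_comm f
  obtain ⟨w0, hw0⟩ : ∃ w0 : NC G, e w0 = ⟨w, hwZ⟩ := ⟨e.symm _, Equiv.apply_symm_apply _ _⟩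
  have hw0' : (e w0).1 = w := by rw [hw0]
  have D1 : Data H (e w0).1 n n (fun K' => ∀ u ∈ K', ∀ v ∈ K', u * v = v * u) := by
    rw [hw0']; exact D0
  have D := D1.transfer e he
  have habel : ∀ y : NC G, (∀ u ∈ Cz (e y).1, ∀ v ∈ Cz (e y).1, u * v = v * u) →
      ∀ u ∈ Cz y.1, ∀ v ∈ Cz y.1, u * v = v * u := by
    intro y hy u hu v hv
    by_cases huc : u ∈ center G
    · exact (comm_of_center huc v).symm
    by_cases hvc : v ∈ center G
    · exact comm_of_center hvc u
    · have h1 := hy _ ((mem_Cz_transfer e he y ⟨u, huc⟩).mp hu) _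
        ((mem_Cz_transfer e he y ⟨v, hvc⟩).mp hv)
      exact (he ⟨u, huc⟩ ⟨v, hvc⟩).mpr h1
  have hsolv : ∀ K' : Subgroup G, (∀ u ∈ K', ∀ v ∈ K', u * v = v * u) → IsSolvable K' := by
    intro K' h
    exact isSolvable_of_comm (fun a b => Subtype.ext (h a a.2 b b.2))
  have hWab : ∀ u ∈ Cz w0.1, ∀ v ∈ Cz w0.1, u * v = v * u := by
    apply habel
    rw [hw0', hCw]
    exact hA
  rcases D.dichotomy (Or.inl hWab) (hsolv _ hWab) with h | ⟨x, ⟨y, hxy, hyS⟩, hx1, -, -⟩
  · exact h
  · apply hx1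
    rw [hxy]
    exact hsolv _ (habel y hyS)

end Pool.Agent.NCG
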