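import Pool.Agent.NCG.CaseI

namespace Pool.Agent.NCG

open Subgroup

lemma no_fpf {K : Type} [Group K] (V : Subgroup K) [V.Normal]
    (hcomm : ∀ x ∈ V, ∀ y ∈ V, x * y = y * x) (hnt : ∃ x ∈ V, x ≠ 1)
    (p : ℕ) (hp : p.Prime) (a b : K)
    (hab : ∀ x ∈ V, (a * b) * x * (a * b)⁻¹ = (b * a) * x * (b * a)⁻¹)
    (ha : ∀ x ∈ V, a ^ p * x * (a ^ p)⁻¹ = x) (hb : ∀ x ∈ V, b ^ p * x * (b ^ p)⁻¹ = x)
    (hfb : ∀ i, 0 < i → i < p → ∀ x ∈ V, b ^ i * x * (b ^ i)⁻¹ = x → x = 1)
    (hfab : ∀ j, j < p → ∀ x ∈ V, (a * b ^ j) * x * (a * b ^ j)⁻¹ = x → x = 1) : False := by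
  haveI : Fact p.Prime := ⟨hp⟩
  letI : CommGroup V := { (inferInstance : Group V) with
    mul_comm := fun x y => Subtype.ext (hcomm x x.2 y y.2) }
  let rho : K → AddMonoid.End (Additive V) := fun g =>
    MonoidHom.toAdditive ((MulAut.conjNormal g : MulAut V) : V →* V)
  have hrho : ∀ g : K, ∀ x : V, Additive.toMul (rho g (Additive.ofMul x)) = MulAut.conjNormal g x :=
    fun g x => rfl
  have hmul : ∀ g h : K, rho (g * h) = rho g * rho h := by
    intro g h
    apply AddMonoidHom.ext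
    intro x
    change Additive.ofMul (MulAut.conjNormal (g * h) (Additive.toMul x)) =
      Additive.ofMul (MulAut.conjNormal g (MulAut.conjNormal h (Additive.toMul x)))
    rw [map_mul]; rfl
  have hone : rho 1 = 1 := by
    apply AddMonoidHom.ext
    intro x
    change Additive.ofMul (MulAut.conjNormal (1 : K) (Additive.toMul x)) = x
    rw [map_one]; rfl
  have hpow : ∀ g : K, ∀ k : ℕ, rho (g ^ k) = rho g ^ k := by
    intro g k
    induction k with
    | zero => rw [pow_zero, pow_zero, hone]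
    | succ k ih => rw [pow_succ, pow_succ, hmul, ih]
  have heq : ∀ g h : K, (∀ x ∈ V, g * x * g⁻¹ = h * x * h⁻¹) → rho g = rho h := by
    intro g h hgh
    apply AddMonoidHom.ext
    intro x
    change Additive.ofMul (MulAut.conjNormal g (Additive.toMul x)) =
      Additive.ofMul (MulAut.conjNormal h (Additive.toMul x))
    congr 1
    apply Subtype.ext
    rw [MulAut.conjNormal_apply, MulAut.conjNormal_apply]
    exact hgh _ (Additive.toMul x).2
  have hfix : ∀ g : K, (∀ x ∈ V, g * x * g⁻¹ = x → x = 1) →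
      ∀ x : Additive V, rho g x = x → x = 0 := by
    intro g hg x hx
    have h1 : MulAut.conjNormal g (Additive.toMul x) = Additive.toMul x := hx
    have h2 := congrArg Subtype.val h1
    rw [MulAut.conjNormal_apply] at h2
    have h3 := hg _ (Additive.toMul x).2 h2
    have h4 : Additive.toMul x = 1 := Subtype.ext h3
    exact h4
  haveI : Nontrivial (Additive V) := by
    obtain ⟨x, hx, hx1⟩ := hnt
    refine ⟨Additive.ofMul ⟨x, hx⟩, 0, ?_⟩
    intro h
    apply hx1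
    have h2 : (⟨x, hx⟩ : V) = 1 := h
    exact congrArg Subtype.val h2
  refine no_elem p (rho a) (rho b) ?_ ?_ ?_ ?_ ?_
  · change rho a * rho b = rho b * rho a
    rw [← hmul, ← hmul]
    exact heq _ _ hab
  · rw [← hpow, ← hone]
    apply heq
    intro x hx
    rw [ha x hx]; group
  · rw [← hpow, ← hone]
    apply heq
    intro x hx
    rw [hb x hx]; group
  · intro i hi0 hip
    rw [← hpow]
    exact hfix _ (hfb i hi0 hip)
  · intro j hj
    rw [← hpow, ← hmul]
    exact hfix _ (hfab j hj)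

variable {G : Type} [Group G] {w : G} {n m : ℕ} {S : Subgroup G → Prop}

/-- In case II, commuting elements of order `p` modulo `C(w)` generate the same subgroup. -/
lemma Data.step4b (D : Data G w n m S)
    (hII : ∀ g, ¬ Commute g w → ∀ v ∈ Dz w, g * v * g⁻¹ * v⁻¹ ∈ center G → v ∈ center G)
    (p : ℕ) (hp : p.Prime) (hN : (Cz w).Normal) (a b : G ⧸ Cz w)
    (ha : a ^ p = 1) (hb : b ^ p = 1) (ha1 : a ≠ 1) (hb1 : b ≠ 1) (hab : Commute a b) :
    b ∈ zpowers a := by
  haveI : Fact p.Prime := ⟨hp⟩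
  by_contra hcon
  obtain ⟨a, rfl⟩ := QuotientGroup.mk_surjective a
  obtain ⟨b, rfl⟩ := QuotientGroup.mk_surjective b
  haveI := D.normalD
  haveI : ((Dz w).map (QuotientGroup.mk' (center G))).Normal :=
    Subgroup.Normal.map inferInstance _ (QuotientGroup.mk'_surjective _)
  -- translation of the quotient statements
  have htr : ∀ g : G, (g : G ⧸ Cz w) = 1 → ∀ v ∈ Dz w, g * v * g⁻¹ = v := by
    intro g hg v hv
    have h1 : g ∈ Cz w := (QuotientGroup.eq_one_iff g).mp hg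
    have h2 : Commute g v := mem_Dz.mp hv g (mem_Cz.mp h1)
    have h3 : g * v = v * g := h2
    rw [h3]; group
  have hfp : ∀ g : G, (g : G ⧸ Cz w) ≠ 1 → ∀ x ∈ (Dz w).map (QuotientGroup.mk' (center G)),
      (g : G ⧸ center G) * x * (g : G ⧸ center G)⁻¹ = x → x = 1 := by
    intro g hg x hx hgx
    obtain ⟨v, hv, rfl⟩ := hx
    have h1 : ¬ Commute g w := by
      intro h
      exact hg ((QuotientGroup.eq_one_iff g).mpr (mem_Cz.mpr h))
    have h2 : ((g * v * g⁻¹ * v⁻¹ : G) : G ⧸ center G) = 1 := by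
      have h3 : ((g * v * g⁻¹ * v⁻¹ : G) : G ⧸ center G) =
        ((g : G ⧸ center G) * (QuotientGroup.mk' (center G) v) * (g : G ⧸ center G)⁻¹)
          * (QuotientGroup.mk' (center G) v)⁻¹ := rfl
      rw [h3, hgx]; group
    have h4 := hII g h1 v hv ((QuotientGroup.eq_one_iff _).mp h2)
    exact (QuotientGroup.eq_one_iff v).mpr h4
  have hoa : orderOf (a : G ⧸ Cz w) = p := orderOf_eq_prime ha ha1
  have hob : orderOf (b : G ⧸ Cz w) = p := orderOf_eq_prime hb hb1
  refine no_fpf ((Dz w).map (QuotientGroup.mk' (center G))) ?_ ?_ p hp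
    (a : G ⧸ center G) (b : G ⧸ center G) ?_ ?_ ?_ ?_ ?_
  · rintro _ ⟨v, hv, rfl⟩ _ ⟨v', hv', rfl⟩
    have h1 : Commute v v' := mem_Dz.mp hv' v (mem_Cz.mp (Dz_le_Cz w hv))
    rw [← map_mul, ← map_mul, h1.eq]
  · refine ⟨QuotientGroup.mk' (center G) w, ⟨w, self_mem_Dz w, rfl⟩, ?_⟩
    intro h
    exact D.nc ((QuotientGroup.eq_one_iff w).mp h)
  · rintro _ ⟨v, hv, rfl⟩
    have h1 : (((b * a)⁻¹ * (a * b) : G) : G ⧸ Cz w) = 1 := by
      have h2 : (((b * a)⁻¹ * (a * b) : G) : G ⧸ Cz w) =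
        ((b : G ⧸ Cz w) * (a : G ⧸ Cz w))⁻¹ * ((a : G ⧸ Cz w) * (b : G ⧸ Cz w)) := rfl
      rw [h2, hab.eq]; group
    have h3 := htr _ h1 v hv
    have h4 : (a * b) * v * (a * b)⁻¹ = (b * a) * v * (b * a)⁻¹ := by
      calc (a * b) * v * (a * b)⁻¹ =
          (b * a) * (((b * a)⁻¹ * (a * b)) * v * ((b * a)⁻¹ * (a * b))⁻¹) * (b * a)⁻¹ := by group
        _ = _ := by rw [h3]
    exact congrArg (QuotientGroup.mk' (center G)) h4
  · rintro _ ⟨v, hv, rfl⟩
    have h1 : ((a ^ p : G) : G ⧸ Cz w) = 1 := ha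
    exact congrArg (QuotientGroup.mk' (center G)) (htr _ h1 v hv)
  · rintro _ ⟨v, hv, rfl⟩
    have h1 : ((b ^ p : G) : G ⧸ Cz w) = 1 := hb
    exact congrArg (QuotientGroup.mk' (center G)) (htr _ h1 v hv)
  · intro i hi0 hip x hx hbx
    refine hfp (b ^ i) ?_ x hx hbx
    intro h
    have h1 : (b : G ⧸ Cz w) ^ i = 1 := h
    have h2 := orderOf_dvd_of_pow_eq_one h1
    rw [hob] at h2
    exact absurd (Nat.le_of_dvd hi0 h2) (by omega)
  · intro j hj x hx hbx
    refine hfp (a * b ^ j) ?_ x hx hbx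
    intro h
    have h1 : (a : G ⧸ Cz w) * (b : G ⧸ Cz w) ^ j = 1 := h
    have h2 : (a : G ⧸ Cz w) ∈ zpowers (b : G ⧸ Cz w) := by
      have h3 : (a : G ⧸ Cz w) = ((b : G ⧸ Cz w) ^ j)⁻¹ := eq_inv_of_mul_eq_one_left h1
      rw [h3]
      exact inv_mem (pow_mem (mem_zpowers _) j)
    apply hcon
    have h4 : zpowers (a : G ⧸ Cz w) = zpowers (b : G ⧸ Cz w) := by
      haveI : Finite (zpowers (b : G ⧸ Cz w)) := by
        apply Nat.finite_of_card_ne_zero
        rw [Nat.card_zpowers, hob]; exact hp.ne_zero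
      apply Subgroup.eq_of_le_of_card_ge (Subgroup.zpowers_le.mpr h2)
      rw [Nat.card_zpowers, Nat.card_zpowers, hoa, hob]
    rw [h4]; exact mem_zpowers _

end Pool.Agent.NCG
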