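import Pool.Agent.NCG.Dich

namespace Pool.Agent.NCG

open Subgroup

variable {H : Type} [Group H]

/-- conjugation on the non-central elements -/
def conjNC (c : H) : NC H ≃ NC H where
  toFun u := ⟨c * u.1 * c⁻¹, fun h => u.2 (by
    have h1 := (inferInstance : (center H).Normal).conj_mem _ h c⁻¹
    have h2 : c⁻¹ * (c * u.1 * c⁻¹) * c⁻¹⁻¹ = u.1 := by group
    rwa [h2] at h1)⟩
  invFun u := ⟨c⁻¹ * u.1 * c, fun h => u.2 (by
    have h1 := (inferInstance : (center H).Normal).conj_mem _ h c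
    have h2 : c * (c⁻¹ * u.1 * c) * c⁻¹ = u.1 := by group
    rwa [h2] at h1)⟩
  left_inv u := Subtype.ext (by simp only; group)
  right_inv u := Subtype.ext (by simp only; group)

lemma commute_conj (c u v : H) : Commute u v ↔ Commute (c * u * c⁻¹) (c * v * c⁻¹) := by
  constructor
  · intro h
    have h2 : u * v = v * u := h
    change c * u * c⁻¹ * (c * v * c⁻¹) = c * v * c⁻¹ * (c * u * c⁻¹)
    calc c * u * c⁻¹ * (c * v * c⁻¹) = c * (u * v) * c⁻¹ := by group
      _ = c * (v * u) * c⁻¹ := by rw [h2]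
      _ = _ := by group
  · intro h
    have h2 : c * u * c⁻¹ * (c * v * c⁻¹) = c * v * c⁻¹ * (c * u * c⁻¹) := h
    change u * v = v * u
    calc u * v = c⁻¹ * (c * u * c⁻¹ * (c * v * c⁻¹)) * c := by group
      _ = c⁻¹ * (c * v * c⁻¹ * (c * u * c⁻¹)) * c := by rw [h2]
      _ = _ := by group

lemma conjNC_he (c : H) (x y : NC H) :
    Commute x.1 y.1 ↔ Commute (conjNC c x).1 (conjNC c y).1 := commute_conj c x.1 y.1

lemma conj_mem_center_iff (c u : H) : c * u * c⁻¹ ∈ center H ↔ u ∈ center H := by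
  constructor
  · intro h
    have h1 := (inferInstance : (center H).Normal).conj_mem _ h c⁻¹
    have h2 : c⁻¹ * (c * u * c⁻¹) * c⁻¹⁻¹ = u := by group
    rwa [h2] at h1
  · intro h
    exact (inferInstance : (center H).Normal).conj_mem _ h c

section

variable {K L : Subgroup H}

lemma RelFrobenius.ZK (F : RelFrobenius K L) : center H ≤ K := by
  rw [← F.inf_eq]; exact inf_le_left

lemma RelFrobenius.ZL (F : RelFrobenius K L) : center H ≤ L := by
  rw [← F.inf_eq]; exact inf_le_right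

lemma RelFrobenius.both (F : RelFrobenius K L) {u : H} (h1 : u ∈ K) (h2 : u ∈ L) :
    u ∈ center H := by
  rw [← F.inf_eq]; exact ⟨h1, h2⟩

lemma RelFrobenius.decomp (F : RelFrobenius K L) (h : H) : ∃ k ∈ K, ∃ l ∈ L, k * l = h := by
  haveI := F.normal
  have h1 : h ∈ ((K ⊔ L : Subgroup H) : Set H) := by rw [F.sup_eq]; trivial
  rw [Subgroup.normal_mul] at h1
  obtain ⟨k, hk, l, hl, hkl⟩ := Set.mem_mul.mp h1
  exact ⟨k, hk, l, hl, hkl⟩

/-- every element outside `K` is conjugate to an element of `L` -/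
lemma RelFrobenius.conj_form [Finite H] (F : RelFrobenius K L) {x : H} (hx : x ∉ K) :
    ∃ c : H, ∃ l ∈ L, l ∉ center H ∧ c * x * c⁻¹ = l := by
  obtain ⟨k, hk, l, hl, hkl⟩ := F.decomp x
  have hlZ : l ∉ center H := by
    intro h
    apply hx
    rw [← hkl]
    exact K.mul_mem hk (F.ZK h)
  have hk' : l⁻¹ * k * l ∈ K := by
    have h1 := F.normal.conj_mem k hk l⁻¹
    rwa [inv_inv] at h1
  obtain ⟨c, hc, hcz⟩ := delta_surj K F.normal l (by
    intro c hc hlc
    have h1 : c * l * c⁻¹ * l⁻¹ ∈ center H := by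
      have h2 : c * l * c⁻¹ * l⁻¹ = (l * c * l⁻¹ * c⁻¹)⁻¹ := by group
      rw [h2]; exact (center H).inv_mem hlc
    exact (F.free c hc l hl h1).resolve_right hlZ) (l⁻¹ * k * l) hk'
  set z := (l⁻¹ * c⁻¹ * l * c)⁻¹ * (l⁻¹ * k * l) with hz
  refine ⟨c, l * z, L.mul_mem hl (F.ZL hcz), ?_, ?_⟩
  · intro h
    apply hlZ
    have h1 : l = l * z * z⁻¹ := by group
    rw [h1]
    exact (center H).mul_mem h ((center H).inv_mem hcz)
  · have h1 : x = c⁻¹ * l * c * z := by
      rw [hz, ← hkl]; group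
    have h2 := comm_of_center hcz c⁻¹
    rw [h1]
    calc c * (c⁻¹ * l * c * z) * c⁻¹ = l * c * (z * c⁻¹) := by group
      _ = l * c * (c⁻¹ * z) := by rw [h2]
      _ = l * z := by group

lemma RelFrobenius.centL (F : RelFrobenius K L) {l g : H} (hl : l ∈ L) (hlZ : l ∉ center H)
    (hg : Commute g l) : g ∈ L := by
  obtain ⟨k, hk, l1, hl1, rfl⟩ := F.decomp g
  have h1 : k * l1 * l = l * (k * l1) := hg
  set l2 := l1 * l * l1⁻¹ with hl2
  have hl2L : l2 ∈ L := L.mul_mem (L.mul_mem hl1 hl) (L.inv_mem hl1)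
  have hl2Z : l2 ∉ center H := by
    rw [hl2, conj_mem_center_iff]; exact hlZ
  have h2 : k * l2 * k⁻¹ * l2⁻¹ = l * l2⁻¹ := by
    have h3 : k * l2 * k⁻¹ = l := by
      calc k * l2 * k⁻¹ = (k * l1 * l) * (k * l1)⁻¹ := by rw [hl2]; group
        _ = (l * (k * l1)) * (k * l1)⁻¹ := by rw [h1]
        _ = l := by group
    rw [h3]
  have h4 : k * l2 * k⁻¹ * l2⁻¹ ∈ center H := by
    apply F.both
    · have h5 : k * l2 * k⁻¹ * l2⁻¹ = k * (l2 * k⁻¹ * l2⁻¹) := by group
      rw [h5]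
      exact K.mul_mem hk (F.normal.conj_mem _ (K.inv_mem hk) l2)
    · rw [h2]; exact L.mul_mem hl (L.inv_mem hl2L)
  have h6 := (F.free k hk l2 hl2L h4).resolve_right hl2Z
  exact L.mul_mem (F.ZL h6) hl1

lemma RelFrobenius.centK [Finite H] (F : RelFrobenius K L) {u g : H} (hu : u ∈ K)
    (huZ : u ∉ center H) (hg : Commute g u) : g ∈ K := by
  by_contra hgK
  obtain ⟨c, l, hl, hlZ, hcl⟩ := F.conj_form hgK
  have h1 : Commute (c * g * c⁻¹) (c * u * c⁻¹) := (commute_conj c g u).mp hg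
  rw [hcl] at h1
  have h2 : c * u * c⁻¹ ∈ K := F.normal.conj_mem u hu c
  have h3 : c * u * c⁻¹ * l * (c * u * c⁻¹)⁻¹ * l⁻¹ ∈ center H := by
    have h4 : l * (c * u * c⁻¹) = c * u * c⁻¹ * l := h1
    have h5 : c * u * c⁻¹ * l * (c * u * c⁻¹)⁻¹ * l⁻¹ = 1 := by
      rw [← h4]; group
    rw [h5]; exact one_mem _
  rcases F.free _ h2 l hl h3 with h6 | h6
  · exact huZ ((conj_mem_center_iff c u).mp h6)
  · exact hlZ h6

lemma RelFrobenius.card_eq [Finite H] (F : RelFrobenius K L) :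
    Nat.card H * Nat.card (center H) = Nat.card K * Nat.card L := by
  haveI := F.normal
  have h1 : K.index = ((center H).subgroupOf L).index := by
    have h2 : K.relIndex (K ⊔ L) = K.relIndex L := Subgroup.relIndex_sup_left L K
    rw [F.sup_eq, Subgroup.relIndex_top_right] at h2
    have h3 : (K ⊓ L).relIndex L = K.relIndex L := Subgroup.inf_relIndex_right K L
    rw [F.inf_eq] at h3
    rw [h2, ← h3]; rfl
  rw [← K.card_mul_index, h1, ← card_eq_center_mul L F.ZL]
  ring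

lemma RelFrobenius.card_lt [Finite H] (F : RelFrobenius K L) : Nat.card L < Nat.card K := by
  classical
  obtain ⟨w, hwK, hwZ, -⟩ := F.centreK
  rw [← card_eq_center_mul L F.ZL, ← card_eq_center_mul K F.ZK]
  apply Nat.mul_lt_mul_of_pos_left _ Nat.card_pos
  rw [Subgroup.index_eq_card, Subgroup.index_eq_card]
  let f : L ⧸ (center H).subgroupOf L → K ⧸ (center H).subgroupOf K := fun q =>
    QuotientGroup.mk ⟨q.out.1 * w * (q.out.1)⁻¹, F.normal.conj_mem w hwK _⟩
  have hinj : Function.Injective f := by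
    intro q q' hqq
    have h1 := QuotientGroup.eq.mp hqq
    rw [Subgroup.mem_subgroupOf] at h1
    have h2 : (q.out.1 * w * (q.out.1)⁻¹)⁻¹ * (q'.out.1 * w * (q'.out.1)⁻¹) ∈ center H := h1
    have h3 : w⁻¹ * ((q.out.1)⁻¹ * q'.out.1) * w⁻¹⁻¹ * ((q.out.1)⁻¹ * q'.out.1)⁻¹ ∈ center H := by
      have h4 := (inferInstance : (center H).Normal).conj_mem _ h2 (q.out.1)⁻¹
      have h5 : (q.out.1)⁻¹ * ((q.out.1 * w * (q.out.1)⁻¹)⁻¹ *
          (q'.out.1 * w * (q'.out.1)⁻¹)) * (q.out.1)⁻¹⁻¹ =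
        w⁻¹ * ((q.out.1)⁻¹ * q'.out.1) * w⁻¹⁻¹ * ((q.out.1)⁻¹ * q'.out.1)⁻¹ := by group
      rwa [h5] at h4
    have h6 : (q.out.1)⁻¹ * q'.out.1 ∈ L := L.mul_mem (L.inv_mem q.out.2) q'.out.2
    rcases F.free _ (K.inv_mem hwK) _ h6 h3 with h7 | h7
    · exact absurd ((center H).inv_mem h7) (by rw [inv_inv]; exact hwZ)
    · have h8 : (QuotientGroup.mk q.out : L ⧸ (center H).subgroupOf L) =
          QuotientGroup.mk q'.out := by
        rw [QuotientGroup.eq, Subgroup.mem_subgroupOf]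
        exact h7
      rw [QuotientGroup.out_eq', QuotientGroup.out_eq'] at h8
      exact h8
  have hns : ¬ Function.Surjective f := by
    intro hs
    obtain ⟨q, hq⟩ := hs (QuotientGroup.mk 1)
    have h1 := QuotientGroup.eq.mp hq
    rw [Subgroup.mem_subgroupOf] at h1
    have h2 : (q.out.1 * w * (q.out.1)⁻¹)⁻¹ * 1 ∈ center H := h1
    rw [mul_one] at h2
    have h3 := (center H).inv_mem h2
    rw [inv_inv, conj_mem_center_iff] at h3
    exact hwZ h3
  apply lt_of_le_of_ne (Nat.card_le_card_of_injective f hinj)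
  intro heq
  exact hns ((Nat.bijective_iff_injective_and_card f).mpr ⟨hinj, heq⟩).2

lemma RelFrobenius.coprime [Finite H] (F : RelFrobenius K L) (p : ℕ) (hp : p.Prime)
    (h1 : Nat.card (center H) * p ∣ Nat.card K) (h2 : Nat.card (center H) * p ∣ Nat.card L) :
    False := by
  classical
  haveI : Fact p.Prime := ⟨hp⟩
  haveI := F.normal
  have hz0 : 0 < Nat.card (center H) := Nat.card_pos
  rw [← card_eq_center_mul K F.ZK] at h1
  rw [← card_eq_center_mul L F.ZL] at h2
  have h1' := Nat.dvd_of_mul_dvd_mul_left hz0 h1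
  have h2' := Nat.dvd_of_mul_dvd_mul_left hz0 h2
  obtain ⟨l, hl, hlZ, hlp⟩ := cauchy_center L p hp h2'
  haveI : (K.map (QuotientGroup.mk' (center H))).Normal :=
    Subgroup.Normal.map inferInstance _ (QuotientGroup.mk'_surjective _)
  set V := K.map (QuotientGroup.mk' (center H)) with hV
  have hcard : Nat.card V = ((center H).subgroupOf K).index := by
    have h3 := Subgroup.relIndex_ker (QuotientGroup.mk' (center H)) (K := K)
    rw [QuotientGroup.ker_mk'] at h3
    rw [hV, ← h3]; rfl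
  haveI : Fintype V := Fintype.ofFinite V
  let sg : MulAut V := MulAut.conjNormal (l : H ⧸ center H)
  have hsg : sg ^ p = 1 := by
    change (MulAut.conjNormal (l : H ⧸ center H) : MulAut V) ^ p = 1
    rw [← map_pow]
    have h4 : (l : H ⧸ center H) ^ p = 1 := (QuotientGroup.eq_one_iff (l ^ p)).mpr hlp
    rw [h4, map_one]
  let σ : Equiv.Perm V := MulAut.toPerm V sg
  have hσ : σ ^ p ^ 1 = 1 := by
    rw [pow_one]
    change (MulAut.toPerm V sg) ^ p = 1
    rw [← map_pow, hsg, map_one]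
  obtain ⟨b, hb, hb1⟩ := Equiv.Perm.exists_fixed_point_of_prime' (p := p) (n := 1)
    (by rw [← Nat.card_eq_fintype_card, hcard]; exact h1') hσ (a := (1 : V)) (by
      change sg 1 = 1
      rw [map_one])
  obtain ⟨k, hk, hkb⟩ := b.2
  have h5 : (l : H ⧸ center H) * b.1 * (l : H ⧸ center H)⁻¹ = b.1 := by
    have h6 := congrArg Subtype.val hb
    change ((MulAut.conjNormal (l : H ⧸ center H) : MulAut V) b : H ⧸ center H) = b.1 at h6
    rwa [MulAut.conjNormal_apply] at h6
  rw [← hkb] at h5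
  have h7 : k * l * k⁻¹ * l⁻¹ ∈ center H := by
    rw [← QuotientGroup.eq_one_iff]
    have h8 : ((k * l * k⁻¹ * l⁻¹ : H) : H ⧸ center H) =
      (QuotientGroup.mk' (center H) k) *
        ((l : H ⧸ center H) * (QuotientGroup.mk' (center H) k) * (l : H ⧸ center H)⁻¹)⁻¹ := by
      change (k : H ⧸ center H) * l * (k : H ⧸ center H)⁻¹ * (l : H ⧸ center H)⁻¹ =
        (k : H ⧸ center H) * ((l : H ⧸ center H) * k * (l : H ⧸ center H)⁻¹)⁻¹
      group
    rw [h8, h5]; group
  rcases F.free k hk l hl h7 with h9 | h9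
  · apply hb1
    apply Subtype.ext
    rw [← hkb]
    exact (QuotientGroup.eq_one_iff k).mpr h9
  · exact hlZ h9

end

end Pool.Agent.NCG
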