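import Mathlib

namespace Pool.Agent.NCG

open Subgroup

lemma class_two_pow {P : Type*} [Group P] (x y c : P) (hcx : Commute c x) (hcy : Commute c y)
    (hyx : y * x = x * y * c) (k : ℕ) : (x * y) ^ k = x ^ k * y ^ k * c ^ (k * (k - 1) / 2) := by
  have h1 : ∀ k : ℕ, y ^ k * x = x * y ^ k * c ^ k := by
    intro k
    induction k with
    | zero => simp
    | succ k ih =>
      calc y ^ (k + 1) * x = y * (y ^ k * x) := by rw [pow_succ']; group
        _ = y * (x * y ^ k * c ^ k) := by rw [ih]
        _ = (y * x) * y ^ k * c ^ k := by group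
        _ = (x * y * c) * y ^ k * c ^ k := by rw [hyx]
        _ = x * y * (c * y ^ k) * c ^ k := by group
        _ = x * y * (y ^ k * c) * c ^ k := by rw [(hcy.pow_right k).eq]
        _ = x * y ^ (k + 1) * c ^ (k + 1) := by rw [pow_succ' y, pow_succ' c]; group
  induction k with
  | zero => simp
  | succ k ih =>
    have e : (k + 1) * (k + 1 - 1) / 2 = k * (k - 1) / 2 + k := by
      have h2 : (k + 1) * (k + 1 - 1) = k * (k - 1) + k * 2 := by
        rcases k with _ | k
        · rfl
        · simp only [Nat.add_sub_cancel]; ring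
      rw [h2, Nat.add_mul_div_right _ _ (by norm_num)]
    rw [e]
    have hc1 : Commute (c ^ (k * (k - 1) / 2)) x := hcx.pow_left _
    calc (x * y) ^ (k + 1) = (x * y) ^ k * (x * y) := pow_succ _ _
      _ = x ^ k * y ^ k * c ^ (k * (k - 1) / 2) * (x * y) := by rw [ih]
      _ = x ^ k * y ^ k * (c ^ (k * (k - 1) / 2) * x) * y := by group
      _ = x ^ k * y ^ k * (x * c ^ (k * (k - 1) / 2)) * y := by rw [hc1.eq]
      _ = x ^ k * (y ^ k * x) * (c ^ (k * (k - 1) / 2) * y) := by group
      _ = x ^ k * (x * y ^ k * c ^ k) * (y * c ^ (k * (k - 1) / 2)) := by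
          rw [h1 k, (hcy.pow_left _).eq]
      _ = x ^ k * x * y ^ k * (c ^ k * y) * c ^ (k * (k - 1) / 2) := by group
      _ = x ^ k * x * y ^ k * (y * c ^ k) * c ^ (k * (k - 1) / 2) := by
          rw [(hcy.pow_left k).eq]
      _ = x ^ (k + 1) * y ^ (k + 1) * c ^ (k * (k - 1) / 2 + k) := by
          rw [pow_succ x, pow_succ y, add_comm, pow_add]; group

/-- a finite `p`-group, `p` odd, with only one subgroup of order `p` is cyclic -/
lemma cyclic_of_unique (p : ℕ) [hp : Fact p.Prime] (hodd : p ≠ 2) (n : ℕ) :
    ∀ (P : Type) [Group P] [Finite P], Nat.card P = p ^ n →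
      (∀ a b : P, a ^ p = 1 → b ^ p = 1 → a ≠ 1 → b ∈ zpowers a) → IsCyclic P := by
  induction n with
  | zero =>
    intro P _ _ hcard h
    rw [pow_zero] at hcard
    haveI : Subsingleton P := (Nat.card_eq_one_iff_unique.mp hcard).1
    infer_instance
  | succ n ih =>
    intro P _ _ hcard h
    classical
    by_contra hcyc
    have hfinI : ∀ M : Subgroup P, Nat.card M = p ^ n → M.index = p := by
      intro M hM
      have h1 := M.card_mul_index
      rw [hM, hcard, pow_succ] at h1
      exact Nat.eq_of_mul_eq_mul_left (pow_pos hp.out.pos n) h1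
    have hminfac : (Nat.card P).minFac = p := by
      rw [hcard]; exact Nat.Prime.pow_minFac hp.out (Nat.succ_ne_zero n)
    have hnorm : ∀ M : Subgroup P, Nat.card M = p ^ n → M.Normal := by
      intro M hM
      apply Subgroup.normal_of_index_eq_minFac_card
      rw [hminfac, hfinI M hM]
    have hcycM : ∀ M : Subgroup P, Nat.card M = p ^ n → ∀ x ∈ M, ∀ y ∈ M, x * y = y * x := by
      intro M hM x hx y hy
      haveI : IsCyclic M := by
        apply ih M hM
        intro a b ha hb ha1
        have h2 := h (a : P) (b : P) (by exact_mod_cast congrArg Subtype.val ha)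
          (by exact_mod_cast congrArg Subtype.val hb) (fun h3 => ha1 (Subtype.ext h3))
        obtain ⟨i, hi⟩ := Subgroup.mem_zpowers_iff.mp h2
        exact Subgroup.mem_zpowers_iff.mpr ⟨i, Subtype.ext (by simpa using hi)⟩
      have h3 := (IsCyclic.isMulCommutative (α := M)).is_comm.comm ⟨x, hx⟩ ⟨y, hy⟩
      exact congrArg Subtype.val h3
    have hfac : p ^ n ∣ Nat.card P := by rw [hcard]; exact pow_dvd_pow p (Nat.le_succ n)
    obtain ⟨M1, hM1, -⟩ := Sylow.exists_subgroup_card_pow_prime_le p (n := 0) (m := n) hfac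
      (⊥ : Subgroup P) (by simp) (Nat.zero_le n)
    have hM1top : M1 ≠ ⊤ := by
      rintro rfl
      have h4 := hfinI ⊤ hM1
      rw [Subgroup.index_top] at h4
      exact hp.out.one_lt.ne h4
    obtain ⟨b, hb⟩ : ∃ b : P, b ∉ M1 := by
      by_contra hcon
      push Not at hcon
      exact hM1top ((Subgroup.eq_top_iff' M1).mpr hcon)
    have hbz : Nat.card (zpowers b) ∣ p ^ (n + 1) := by
      rw [← hcard]; exact Subgroup.card_subgroup_dvd_card _
    obtain ⟨k, hk, hbk⟩ := (Nat.dvd_prime_pow hp.out).mp hbz
    have hkn : k ≤ n := by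
      rcases Nat.lt_or_ge k (n + 1) with h5 | h5
      · omega
      · exfalso
        have h6 : k = n + 1 := le_antisymm hk h5
        apply hcyc
        apply isCyclic_of_orderOf_eq_card b
        rw [← Nat.card_zpowers, hbk, h6, hcard]
    obtain ⟨M2, hM2, hbM2⟩ := Sylow.exists_subgroup_card_pow_prime_le p hfac (zpowers b) hbk hkn
    haveI := hnorm M1 hM1
    haveI := hnorm M2 hM2
    have hbM : b ∈ M2 := hbM2 (mem_zpowers b)
    -- M1 ⊔ M2 = ⊤
    have hsup : M1 ⊔ M2 = ⊤ := by
      have h7 : (M1 ⊔ M2).index ∣ p := by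
        rw [← hfinI M1 hM1]; exact Subgroup.index_dvd_of_le le_sup_left
      rcases (Nat.dvd_prime hp.out).mp h7 with h8 | h8
      · exact Subgroup.index_eq_one.mp h8
      · exfalso
        have h9 : (M1 : Subgroup P).relIndex (M1 ⊔ M2) = 1 := by
          have h10 := Subgroup.relIndex_mul_index (le_sup_left : M1 ≤ M1 ⊔ M2)
          rw [h8, hfinI M1 hM1] at h10
          exact Nat.eq_of_mul_eq_mul_right hp.out.pos (by rw [h10, one_mul])
        have h11 : M1 ⊔ M2 ≤ M1 := Subgroup.relIndex_eq_one.mp h9
        exact hb (h11 (Subgroup.mem_sup_right hbM))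
    have hcent : ∀ x, x ∈ M1 → x ∈ M2 → ∀ y : P, y * x = x * y := by
      intro x hx1 hx2 y
      have h12 : M1 ⊔ M2 ≤ Subgroup.centralizer {x} := by
        apply sup_le
        · intro u hu
          exact Subgroup.mem_centralizer_singleton_iff.mpr (hcycM M1 hM1 u hu x hx1)
        · intro u hu
          exact Subgroup.mem_centralizer_singleton_iff.mpr (hcycM M2 hM2 u hu x hx2)
      rw [hsup] at h12
      exact Subgroup.mem_centralizer_singleton_iff.mp (h12 (Subgroup.mem_top y))
    have hpow : ∀ M : Subgroup P, M.Normal → Nat.card M = p ^ n → ∀ x : P, x ^ p ∈ M := by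
      intro M hMn hM x
      haveI := hMn
      have h13 := M.pow_index_mem x
      rwa [hfinI M hM] at h13
    have hcomm : ∀ M : Subgroup P, M.Normal → Nat.card M = p ^ n → ∀ x y : P,
        (x * y)⁻¹ * (y * x) ∈ M := by
      intro M hMn hM x y
      haveI := hMn
      haveI : Fact (Nat.Prime p) := hp
      have h14 : Nat.card (P ⧸ M) = p := by rw [← Subgroup.index_eq_card]; exact hfinI M hM
      haveI : IsCyclic (P ⧸ M) := isCyclic_of_prime_card h14
      have h15 := (IsCyclic.isMulCommutative (α := P ⧸ M)).is_comm.comm (x : P ⧸ M) (y : P ⧸ M)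
      have h16 : ((x * y : P) : P ⧸ M) = ((y * x : P) : P ⧸ M) := h15
      exact QuotientGroup.eq.mp h16
    have hp2 : p ∣ p * (p - 1) / 2 := by
      have h17 : p % 2 = 1 := by
        rcases hp.out.eq_two_or_odd with h | h
        · exact absurd h hodd
        · exact h
      have h18 : 2 ∣ p - 1 := by omega
      rw [Nat.mul_div_assoc p h18]
      exact dvd_mul_right _ _
    have hmul : ∀ x y : P, (x * y) ^ p = x ^ p * y ^ p := by
      intro x y
      set c := (x * y)⁻¹ * (y * x) with hc
      have hcM1 := hcomm M1 inferInstance hM1 x y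
      have hcM2 := hcomm M2 inferInstance hM2 x y
      have hcc := hcent c hcM1 hcM2
      have hyx : y * x = x * y * c := by rw [hc]; group
      rw [class_two_pow x y c (hcc x).symm (hcc y).symm hyx p]
      -- c ^ p = 1
      have hcp : c ^ p = 1 := by
        have hxp := hcent (x ^ p) (hpow M1 inferInstance hM1 x) (hpow M2 inferInstance hM2 x)
        have h19 : ∀ k : ℕ, y * x ^ k = x ^ k * y * c ^ k := by
          intro k
          induction k with
          | zero => simp
          | succ k ihk =>
            calc y * x ^ (k + 1) = (y * x ^ k) * x := by rw [pow_succ]; group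
              _ = (x ^ k * y * c ^ k) * x := by rw [ihk]
              _ = x ^ k * y * (c ^ k * x) := by group
              _ = x ^ k * y * (x * c ^ k) := by
                  have h20 : Commute (c ^ k) x := Commute.pow_left (hcc x).symm k
                  rw [h20.eq]
              _ = x ^ k * (y * x) * c ^ k := by group
              _ = x ^ k * (x * y * c) * c ^ k := by rw [hyx]
              _ = x ^ (k + 1) * y * c ^ (k + 1) := by rw [pow_succ x, pow_succ' c]; group
        have h21 := h19 p
        rw [hxp y] at h21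
        have h22 : x ^ p * y * 1 = x ^ p * y * c ^ p := by rw [mul_one]; exact h21
        exact (mul_left_cancel h22).symm
      obtain ⟨d, hd⟩ := hp2
      rw [hd, pow_mul, hcp, one_pow, mul_one]
    let f : P →* P := { toFun := fun x => x ^ p, map_one' := one_pow p, map_mul' := hmul }
    have hker : Nat.card f.ker ≤ p := by
      have hpd : p ∣ Nat.card P := by rw [hcard]; exact dvd_pow_self p (Nat.succ_ne_zero n)
      obtain ⟨z, hz⟩ := exists_prime_orderOf_dvd_card' (G := P) p hpd
      have hz1 : z ≠ 1 := by
        rintro rfl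
        rw [orderOf_one] at hz
        exact hp.out.one_lt.ne hz
      have hzp : z ^ p = 1 := by rw [← hz]; exact pow_orderOf_eq_one z
      have hle : f.ker ≤ zpowers z := by
        intro x hx
        exact h z x hzp hx hz1
      calc Nat.card f.ker ≤ Nat.card (zpowers z) := Subgroup.card_le_of_le hle
        _ = p := by rw [Nat.card_zpowers, hz]
    have hrange : Nat.card f.range < p ^ n := by
      have hle : f.range ≤ M1 ⊓ M2 := by
        rintro _ ⟨x, rfl⟩
        exact ⟨hpow M1 inferInstance hM1 x, hpow M2 inferInstance hM2 x⟩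
      have hlt : M1 ⊓ M2 < M2 := by
        refine lt_of_le_of_ne inf_le_right ?_
        intro heq
        have : b ∈ M1 ⊓ M2 := by rw [heq]; exact hbM
        exact hb this.1
      calc Nat.card f.range ≤ Nat.card (M1 ⊓ M2 : Subgroup P) := Subgroup.card_le_of_le hle
        _ < Nat.card M2 := by
            have h23 : (M1 ⊓ M2 : Set P) ⊂ (M2 : Set P) := SetLike.coe_ssubset_coe.mpr hlt
            exact Set.ncard_lt_ncard h23 (Set.toFinite _)
        _ = p ^ n := hM2
    have hdiv : Nat.card f.range ∣ p ^ (n + 1) := by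
      rw [← hcard]; exact Subgroup.card_subgroup_dvd_card _
    obtain ⟨r, hr, hr2⟩ := (Nat.dvd_prime_pow hp.out).mp hdiv
    have hcount : Nat.card P = Nat.card f.ker * Nat.card f.range := by
      rw [← Subgroup.index_ker f, Subgroup.card_mul_index]
    have h24 : Nat.card P < p ^ (n + 1) := by
      calc Nat.card P = Nat.card f.ker * Nat.card f.range := hcount
        _ ≤ p * Nat.card f.range := Nat.mul_le_mul_right _ hker
        _ < p * p ^ n := Nat.mul_lt_mul_of_pos_left hrange hp.out.pos
        _ = p ^ (n + 1) := by rw [pow_succ]; ring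
    omega

end Pool.Agent.NCG
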