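import Pool.Agent.NCG.Final

namespace Pool.Agent.NCG

open Subgroup

variable {H : Type} [Group H]

theorem recognised_comm (h : ∀ a b : H, a * b = b * a) : Recognised H := by
  intro G _ _ ⟨f⟩
  have hG : ∀ g : G, g ∈ center G := by
    intro g
    by_contra hg
    exact (f ⟨g, hg⟩).2 (Subgroup.mem_center_iff.mpr fun a => h a _)
  exact isSolvable_of_comm (fun a b => comm_of_center (hG b) a)

theorem recognised_prime_index [Finite H] (A : Subgroup H) (hN : A.Normal)
    (hA : ∀ a ∈ A, ∀ b ∈ A, a * b = b * a) (hp : A.index.Prime) : Recognised H := by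
  set p := A.index with hpdef
  by_cases hAZ : A ≤ center H
  · -- the group is abelian
    apply recognised_comm
    haveI : Fact p.Prime := ⟨hp⟩
    have h1 : Nat.card (H ⧸ A) = p := by rw [← Subgroup.index_eq_card]
    haveI : IsCyclic (H ⧸ A) := isCyclic_of_prime_card h1
    intro a b
    exact (MonoidHom.isMulCommutative_of_isCyclic_of_ker_le_center (QuotientGroup.mk' A)
      (by rw [QuotientGroup.ker_mk']; exact hAZ)).is_comm.comm a b
  · obtain ⟨w, hwA, hwZ⟩ := Set.not_subset.mp hAZ
    have hwA' : w ∈ A := hwA
    have hwZ' : w ∉ center H := hwZ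
    have hmax : ∀ K : Subgroup H, A ≤ K → K = A ∨ K = ⊤ := by
      intro K hK
      have h1 : K.index ∣ p := Subgroup.index_dvd_of_le hK
      rcases (Nat.dvd_prime hp).mp h1 with h2 | h2
      · exact Or.inr (Subgroup.index_eq_one.mp h2)
      · left
        have h3 := Subgroup.relIndex_mul_index hK
        rw [h2] at h3
        have h4 : A.relIndex K = 1 :=
          Nat.eq_of_mul_eq_mul_right hp.pos (by rw [h3, one_mul])
        exact le_antisymm (Subgroup.relIndex_eq_one.mp h4) hK
    have hCa : ∀ a ∈ A, a ∉ center H → Cz a = A := by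
      intro a ha haZ
      have h1 : A ≤ Cz a := fun g hg => mem_Cz.mpr (hA g hg a ha)
      rcases hmax _ h1 with h2 | h2
      · exact h2
      · exfalso
        apply haZ
        rw [Subgroup.mem_center_iff]
        intro g
        have h3 : g ∈ Cz a := by rw [h2]; trivial
        exact mem_Cz.mp h3
    have hZA : center H ≤ A := by
      rw [← hCa w hwA' hwZ']; exact center_le_Cz w
    have hxA : ∀ x, x ∉ A → A ⊓ Cz x = center H := by
      intro x hx
      apply le_antisymm
      · rintro u ⟨hu1, hu2⟩
        by_contra huZ
        apply hx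
        rw [← hCa u hu1 huZ, mem_Cz]
        exact (mem_Cz.mp hu2).symm
      · exact le_inf hZA (center_le_Cz x)
    have hidx : ∀ x, x ∉ A → ((center H).subgroupOf (Cz x)).index = p := by
      intro x hx
      haveI := hN
      have h2 : A.relIndex (A ⊔ Cz x) = A.relIndex (Cz x) := Subgroup.relIndex_sup_left (Cz x) A
      have h3 : A ⊔ Cz x = ⊤ := by
        rcases hmax (A ⊔ Cz x) le_sup_left with h4 | h4
        · exfalso
          apply hx
          rw [← h4]
          exact Subgroup.mem_sup_right (mem_Cz.mpr (Commute.refl x))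
        · exact h4
      rw [h3, Subgroup.relIndex_top_right] at h2
      have h5 : (A ⊓ Cz x).relIndex (Cz x) = A.relIndex (Cz x) := Subgroup.inf_relIndex_right A _
      rw [hxA x hx] at h5
      exact h5.trans h2.symm
    have hcard : ∀ x, x ∉ A → Nat.card (Cz x) = Nat.card (center H) * p := by
      intro x hx
      rw [← card_eq_center_mul _ (center_le_Cz x), hidx x hx]
    have hab : ∀ x, x ∉ A → ∀ u ∈ Cz x, ∀ v ∈ Cz x, u * v = v * u := by
      intro x hx u hu v hv
      have h1 : center H ≤ Cz u ⊓ Cz x := le_inf (center_le_Cz u) (center_le_Cz x)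
      have h2 : (center H).relIndex (Cz u ⊓ Cz x) * (Cz u ⊓ Cz x).relIndex (Cz x) = p := by
        rw [Subgroup.relIndex_mul_relIndex _ _ _ h1 inf_le_right]
        exact hidx x hx
      have h3 : (center H).relIndex (Cz u ⊓ Cz x) ∣ p := Dvd.intro _ h2
      rcases (Nat.dvd_prime hp).mp h3 with h4 | h4
      · exfalso
        have h5 : Cz u ⊓ Cz x ≤ center H := Subgroup.relIndex_eq_one.mp h4
        have h6 : x ∈ Cz u ⊓ Cz x :=
          ⟨mem_Cz.mpr (mem_Cz.mp hu).symm, mem_Cz.mpr (Commute.refl x)⟩
        exact hx (hZA (h5 h6))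
      · rw [h4] at h2
        have h5 : (Cz u ⊓ Cz x).relIndex (Cz x) = 1 :=
          Nat.eq_of_mul_eq_mul_left hp.pos (by rw [h2, mul_one])
        have h6 : Cz x ≤ Cz u ⊓ Cz x := Subgroup.relIndex_eq_one.mp h5
        exact (mem_Cz.mp (h6 hv).1).symm
    by_cases hcase : Nat.card (center H) * p = Nat.card A
    · -- all centralisers have the same order
      intro G _ _ ⟨f⟩
      let e : NC G ≃ NC H := f.toEquiv
      have he : ∀ x y : NC G, Commute x.1 y.1 ↔ Commute (e x).1 (e y).1 := iso_comm f
      have hz0 : 0 < Nat.card (center H) := Nat.card_pos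
      have hzt0 : 0 < Nat.card (center G) := Nat.card_pos
      obtain ⟨w0, hw0⟩ : ∃ w0 : NC G, e w0 = ⟨w, hwZ'⟩ := ⟨e.symm _, Equiv.apply_symm_apply _ _⟩
      have hw0' : (e w0).1 = w := by rw [hw0]
      have hcW : Nat.card (Cz w0.1) + Nat.card (center H) =
          Nat.card (center H) * p + Nat.card (center G) := by
        have h1 := card_transfer e (Cz w0.1) (Cz (e w0).1) (center_le_Cz _) (center_le_Cz _)
          (mem_Cz_transfer e he w0)
        rw [hw0', hCa w hwA' hwZ', ← hcase] at h1
        exact h1
      have hcG : Nat.card G + Nat.card (center H) = Nat.card H + Nat.card (center G) := by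
        have h1 := card_transfer e (⊤ : Subgroup G) (⊤ : Subgroup H) le_top le_top (by simp)
        rw [Subgroup.card_top, Subgroup.card_top] at h1
        exact h1
      have hH : Nat.card H = Nat.card (center H) * p * p := by
        rw [hcase, hpdef, Subgroup.card_mul_index]
      obtain ⟨o, ho⟩ : ∃ o, Nat.card (Cz w0.1) = Nat.card (center G) * o :=
        ⟨_, (card_eq_center_mul _ (center_le_Cz _)).symm⟩
      obtain ⟨q, hq⟩ : Nat.card (Cz w0.1) ∣ Nat.card G := Subgroup.card_subgroup_dvd_card _
      set z := Nat.card (center H) with hz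
      set zt := Nat.card (center G) with hzt
      have hp1 := hp.one_lt
      -- o divides p
      have hop : o ∣ p := by
        have h1 : (zt : ℤ) * o + z = z * p + zt := by rw [ho] at hcW; exact_mod_cast hcW
        have h2 : (zt : ℤ) * o * q + z = z * p * p + zt := by
          rw [hq, ho, hH] at hcG; exact_mod_cast hcG
        have h3 : (o : ℤ) ∣ p := by
          refine ⟨p + 1 - q, ?_⟩
          have hzt1 : (zt : ℤ) ≠ 0 := by exact_mod_cast hzt0.ne'
          apply mul_left_cancel₀ hzt1
          linear_combination h2 - (p + 1 : ℤ) * h1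
        exact_mod_cast h3
      have hop' : o = p := by
        rcases (Nat.dvd_prime hp).mp hop with h1 | h1
        · exfalso
          rw [h1, mul_one] at ho
          have h2 : center G = Cz w0.1 :=
            Subgroup.eq_of_le_of_card_ge (center_le_Cz _) (by rw [ho])
          apply w0.2
          exact (SetLike.ext_iff.mp h2 w0.1).mpr (mem_Cz.mpr (Commute.refl _))
        · exact h1
      have hzz : z = zt := by
        have h1 : (zt : ℤ) * p + z = z * p + zt := by
          rw [ho, hop'] at hcW; exact_mod_cast hcW
        have h2 : ((p : ℤ) - 1) * (zt - z) = 0 := by linear_combination h1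
        rcases mul_eq_zero.mp h2 with h3 | h3
        · exfalso
          have : (p : ℤ) = 1 := by linarith
          have : p = 1 := by exact_mod_cast this
          omega
        · have : (z : ℤ) = zt := by linarith
          exact_mod_cast this
      have hG : Nat.card G = zt * p ^ 2 := by
        rw [← hzz, pow_two, ← mul_assoc, ← hH]; omega
      haveI : Fact p.Prime := ⟨hp⟩
      have hQ : Nat.card (G ⧸ center G) = p ^ 2 := by
        have h1 := (center G).card_mul_index
        rw [hG] at h1
        rw [← Subgroup.index_eq_card]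
        exact Nat.eq_of_mul_eq_mul_left hzt0 h1
      haveI : Group.IsNilpotent (G ⧸ center G) := (IsPGroup.of_card hQ).isNilpotent
      exact solvable_ext (center G)
        (isSolvable_of_comm (fun a b => Subtype.ext (comm_of_center b.2 a)))
        (inferInstance : Group.IsSolvable (G ⧸ center G))
    · apply recognised_ac A hA w hwA' hwZ' _ (Nat.card (center H) * p) hcase
      · intro x hx
        exact ⟨hcard x hx, hab x hx⟩
      · intro a ha haZ g hg
        rw [← hCa a ha haZ]
        exact mem_Cz.mpr hg

end Pool.Agent.NCG
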