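import Mathlib

/-! Two commuting automorphisms of order `p` of a nontrivial abelian group: not all nontrivial
words in them act without fixed points. -/

namespace Pool.Agent.NCG

variable {A : Type*} [AddCommGroup A]

lemma geom_zero (p : ℕ) (c : AddMonoid.End A) (hc : c ^ p = 1)
    (hf : ∀ x : A, c x = x → x = 0) : ∑ k ∈ Finset.range p, c ^ k = 0 := by
  have h := mul_geom_sum c p
  rw [hc, sub_self] at h
  ext x
  have h2 : ((c - 1) * ∑ k ∈ Finset.range p, c ^ k) x = 0 := by rw [h]; rfl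
  have h3 : c ((∑ k ∈ Finset.range p, c ^ k) x) - (∑ k ∈ Finset.range p, c ^ k) x = 0 := h2
  exact hf _ (sub_eq_zero.mp h3)

lemma no_elem (p : ℕ) [hp : Fact p.Prime] [Nontrivial A] (a b : AddMonoid.End A)
    (hab : Commute a b) (ha : a ^ p = 1) (hb : b ^ p = 1)
    (hfb : ∀ i, 0 < i → i < p → ∀ x : A, (b ^ i) x = x → x = 0)
    (hfab : ∀ j, j < p → ∀ x : A, (a * b ^ j) x = x → x = 0) : False := by
  have h1 : ∀ j ∈ Finset.range p, ∑ i ∈ Finset.range p, (a * b ^ j) ^ i = 0 := by
    intro j hj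
    apply geom_zero p (a * b ^ j) _ (hfab j (Finset.mem_range.mp hj))
    rw [(hab.pow_right j).mul_pow, ha, ← pow_mul, mul_comm j p, pow_mul, hb, one_pow, one_mul]
  have h2 : ∑ j ∈ Finset.range p, ∑ i ∈ Finset.range p, (a * b ^ j) ^ i = 0 :=
    Finset.sum_eq_zero h1
  rw [Finset.sum_comm] at h2
  have hpos : 0 < p := hp.out.pos
  have h3 : ∀ i ∈ Finset.range p, i ≠ 0 → ∑ j ∈ Finset.range p, (a * b ^ j) ^ i = 0 := by
    intro i hi h0
    have h4 : ∀ j ∈ Finset.range p, (a * b ^ j) ^ i = a ^ i * (b ^ i) ^ j := by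
      intro j _
      rw [(hab.pow_right j).mul_pow, ← pow_mul, ← pow_mul, mul_comm j i]
    rw [Finset.sum_congr rfl h4, ← Finset.mul_sum,
      geom_zero p (b ^ i) _ (hfb i (Nat.pos_of_ne_zero h0) (Finset.mem_range.mp hi)), mul_zero]
    rw [← pow_mul, mul_comm, pow_mul, hb, one_pow]
  have h5 : ∑ i ∈ Finset.range p, ∑ j ∈ Finset.range p, (a * b ^ j) ^ i
      = ∑ j ∈ Finset.range p, (a * b ^ j) ^ 0 := by
    apply Finset.sum_eq_single_of_mem 0 (Finset.mem_range.mpr hpos)
    intro i hi h0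
    exact h3 i hi h0
  rw [h5] at h2
  simp only [pow_zero, Finset.sum_const, Finset.card_range, nsmul_eq_mul, mul_one] at h2
  -- characteristic p
  haveI : Nontrivial (AddMonoid.End A) := by
    obtain ⟨x, y, hxy⟩ := exists_pair_ne A
    refine ⟨0, 1, fun h => hxy ?_⟩
    have hx : (0 : AddMonoid.End A) x = (1 : AddMonoid.End A) x := by rw [h]
    have hy : (0 : AddMonoid.End A) y = (1 : AddMonoid.End A) y := by rw [h]
    have hx' : (0 : A) = x := hx
    have hy' : (0 : A) = y := hy
    rw [← hx', ← hy']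
  haveI : CharP (AddMonoid.End A) p := by
    have h6 := CharP.exists (AddMonoid.End A)
    obtain ⟨q, hq⟩ := h6
    have h7 : q ∣ p := (CharP.cast_eq_zero_iff (AddMonoid.End A) q p).mp h2
    rcases (Nat.dvd_prime hp.out).mp h7 with h8 | h8
    · subst h8
      have h9 := CharP.cast_eq_zero (AddMonoid.End A) 1
      rw [Nat.cast_one] at h9
      exact absurd h9 one_ne_zero
    · rw [← h8]; exact hq
  have h8 : (a - 1) ^ p = 0 := by
    rw [sub_pow_char_of_commute p (Commute.one_right a), ha, one_pow, sub_self]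
  have h9 : ∀ n : ℕ, ∀ x : A, ((a - 1) ^ n) x = 0 → x = 0 := by
    intro n
    induction n with
    | zero => intro x hx; exact hx
    | succ n ih =>
      intro x hx
      rw [pow_succ] at hx
      have h10 : ((a - 1) ^ n) ((a - 1) x) = 0 := hx
      have h11 := ih _ h10
      have h12 : a x - x = 0 := h11
      apply hfab 0 hpos x
      rw [pow_zero, mul_one]
      exact sub_eq_zero.mp h12
  obtain ⟨x, hx⟩ := exists_ne (0 : A)
  exact hx (h9 p x (by rw [h8]; rfl))

end Pool.Agent.NCG
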