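import Pool.Agent.NCG.Defs
import Pool.Agent.NCG.CaseII

namespace Pool.Agent.NCG

open Subgroup

variable {G H : Type} [Group G] [Group H]

abbrev NC (G : Type) [Group G] := {g : G // g ∉ Subgroup.center G}

lemma adj_iff {x y : NC G} : (ncGraph G).Adj x y ↔ ¬ Commute x.1 y.1 := by
  unfold ncGraph
  rw [SimpleGraph.fromRel_adj]
  constructor
  · rintro ⟨-, h | h⟩ hc
    · exact h hc
    · exact h hc.symm
  · intro h
    refine ⟨?_, Or.inl h⟩
    rintro rfl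
    exact h (Commute.refl _)

lemma iso_comm (f : ncGraph G ≃g ncGraph H) (x y : NC G) :
    Commute x.1 y.1 ↔ Commute (f x).1 (f y).1 := by
  have h := f.map_adj_iff (v := x) (w := y)
  rw [adj_iff, adj_iff] at h
  exact (not_iff_not.mp h).symm

lemma exists_noncomm {A : Type} [Group A] (u : NC A) : ∃ v : A, ¬ Commute u.1 v := by
  by_contra h
  push Not at h
  exact u.2 (Subgroup.mem_center_iff.mpr fun g => (h g).symm)

variable (e : NC G ≃ NC H) (he : ∀ x y : NC G, Commute x.1 y.1 ↔ Commute (e x).1 (e y).1)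

include he in
lemma nonempty_iso (A : Subgroup G) (B : Subgroup H) (hAB : ∀ g : NC G, g.1 ∈ A ↔ (e g).1 ∈ B) :
    Nonempty (ncGraph A ≃g ncGraph B) := by
  -- elements of A not central in A
  have hA : ∀ u : NC A, (u.1 : G) ∉ center G := by
    intro u h
    apply u.2
    rw [Subgroup.mem_center_iff]
    intro g
    apply Subtype.ext
    exact Subgroup.mem_center_iff.mp h g
  have hB : ∀ u : NC B, (u.1 : H) ∉ center H := by
    intro u h
    apply u.2
    rw [Subgroup.mem_center_iff]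
    intro g
    apply Subtype.ext
    exact Subgroup.mem_center_iff.mp h g
  have hcA : ∀ u v : A, Commute u v ↔ Commute (u : G) (v : G) := by
    intro u v
    constructor
    · intro h; exact congrArg Subtype.val h.eq
    · intro h; exact Subtype.ext h
  have hcB : ∀ u v : B, Commute u v ↔ Commute (u : H) (v : H) := by
    intro u v
    constructor
    · intro h; exact congrArg Subtype.val h.eq
    · intro h; exact Subtype.ext h
  have fwd : ∀ u : NC A, ∃ h1 : (e ⟨u.1, hA u⟩).1 ∈ B,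
      (⟨(e ⟨u.1, hA u⟩).1, h1⟩ : B) ∉ center B := by
    intro u
    have h1 : (e ⟨u.1, hA u⟩).1 ∈ B := (hAB ⟨u.1, hA u⟩).mp u.1.2
    refine ⟨h1, fun hc => ?_⟩
    obtain ⟨v, hv⟩ := exists_noncomm u
    have hvc : v ∉ center A := fun h => hv (Subgroup.mem_center_iff.mp h u.1)
    have hvB : (e ⟨v, hA ⟨v, hvc⟩⟩).1 ∈ B := (hAB ⟨v, hA ⟨v, hvc⟩⟩).mp v.2
    have h2 : Commute (⟨(e ⟨u.1, hA u⟩).1, h1⟩ : B) ⟨(e ⟨v, hA ⟨v, hvc⟩⟩).1, hvB⟩ :=
      (Subgroup.mem_center_iff.mp hc _).symm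
    rw [hcB] at h2
    have h3 := (he ⟨u.1, hA u⟩ ⟨v, hA ⟨v, hvc⟩⟩).mpr h2
    exact hv ((hcA _ _).mpr h3)
  have bwd : ∀ u : NC B, ∃ h1 : (e.symm ⟨u.1, hB u⟩).1 ∈ A,
      (⟨(e.symm ⟨u.1, hB u⟩).1, h1⟩ : A) ∉ center A := by
    intro u
    have h1 : (e.symm ⟨u.1, hB u⟩).1 ∈ A := by
      rw [hAB, Equiv.apply_symm_apply]; exact u.1.2
    refine ⟨h1, fun hc => ?_⟩
    obtain ⟨v, hv⟩ := exists_noncomm u
    have hvc : v ∉ center B := fun h => hv (Subgroup.mem_center_iff.mp h u.1)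
    have hvA : (e.symm ⟨v, hB ⟨v, hvc⟩⟩).1 ∈ A := by
      rw [hAB, Equiv.apply_symm_apply]; exact v.2
    have h2 : Commute (⟨(e.symm ⟨u.1, hB u⟩).1, h1⟩ : A) ⟨(e.symm ⟨v, hB ⟨v, hvc⟩⟩).1, hvA⟩ :=
      (Subgroup.mem_center_iff.mp hc _).symm
    rw [hcA] at h2
    have h3 := (he (e.symm ⟨u.1, hB u⟩) (e.symm ⟨v, hB ⟨v, hvc⟩⟩)).mp h2
    rw [Equiv.apply_symm_apply, Equiv.apply_symm_apply] at h3
    exact hv ((hcB _ _).mpr h3)
  choose f1 f2 using fwd
  choose g1 g2 using bwd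
  refine ⟨⟨⟨fun u => ⟨⟨_, f1 u⟩, f2 u⟩, fun u => ⟨⟨_, g1 u⟩, g2 u⟩, ?_, ?_⟩, ?_⟩⟩
  · intro u
    apply Subtype.ext
    apply Subtype.ext
    change (e.symm ⟨(e ⟨u.1, hA u⟩).1, _⟩).1 = (u.1 : G)
    have h1 : (⟨(e ⟨u.1, hA u⟩).1, (e ⟨u.1, hA u⟩).2⟩ : NC H) = e ⟨u.1, hA u⟩ := rfl
    rw [h1, Equiv.symm_apply_apply]
  · intro u
    apply Subtype.ext
    apply Subtype.ext
    change (e ⟨(e.symm ⟨u.1, hB u⟩).1, _⟩).1 = (u.1 : H)
    have h1 : (⟨(e.symm ⟨u.1, hB u⟩).1, (e.symm ⟨u.1, hB u⟩).2⟩ : NC G) =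
      e.symm ⟨u.1, hB u⟩ := rfl
    rw [h1, Equiv.apply_symm_apply]
  · intro u v
    rw [adj_iff, adj_iff, not_iff_not, hcB, hcA]
    exact (he ⟨u.1, hA u⟩ ⟨v.1, hA v⟩).symm

include e in
lemma card_transfer [Finite G] [Finite H] (A : Subgroup G) (B : Subgroup H)
    (hA : center G ≤ A) (hB : center H ≤ B)
    (hAB : ∀ g : NC G, g.1 ∈ A ↔ (e g).1 ∈ B) :
    Nat.card A + Nat.card (center H) = Nat.card B + Nat.card (center G) := by
  have h1 : ((A : Set G) \ (center G : Set G)).ncard + (center G : Set G).ncard =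
      (A : Set G).ncard := Set.ncard_sdiff_add_ncard_of_subset hA
  have h2 : ((B : Set H) \ (center H : Set H)).ncard + (center H : Set H).ncard =
      (B : Set H).ncard := Set.ncard_sdiff_add_ncard_of_subset hB
  have h3 : ((A : Set G) \ (center G : Set G)).ncard = ((B : Set H) \ (center H : Set H)).ncard := by
    refine Set.ncard_congr (fun a ha => (e ⟨a, ha.2⟩).1) ?_ ?_ ?_
    · intro a ha
      exact ⟨(hAB ⟨a, ha.2⟩).mp ha.1, (e ⟨a, ha.2⟩).2⟩
    · intro a b ha hb hab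
      have h4 : e ⟨a, ha.2⟩ = e ⟨b, hb.2⟩ := Subtype.ext hab
      exact congrArg Subtype.val (e.injective h4)
    · intro b hb
      refine ⟨(e.symm ⟨b, hb.2⟩).1, ⟨?_, (e.symm ⟨b, hb.2⟩).2⟩, ?_⟩
      · rw [SetLike.mem_coe, hAB, Equiv.apply_symm_apply]; exact hb.1
      · change (e (e.symm ⟨b, hb.2⟩)).1 = b
        rw [Equiv.apply_symm_apply]
  have h5 : Nat.card A = (A : Set G).ncard := rfl
  have h6 : Nat.card B = (B : Set H).ncard := rfl
  have h7 : Nat.card (center G) = (center G : Set G).ncard := rfl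
  have h8 : Nat.card (center H) = (center H : Set H).ncard := rfl
  omega

include he in
lemma mem_Cz_transfer (y g : NC G) : g.1 ∈ Cz y.1 ↔ (e g).1 ∈ Cz (e y).1 := by
  rw [mem_Cz, mem_Cz]; exact he g y

include he in
lemma mem_Dz_transfer (y g : NC G) : g.1 ∈ Dz y.1 ↔ (e g).1 ∈ Dz (e y).1 := by
  rw [mem_Dz, mem_Dz]
  constructor
  · intro h v hv
    by_cases hvc : v ∈ center H
    · exact (Subgroup.mem_center_iff.mp hvc _).symm
    · have h1 := h (e.symm ⟨v, hvc⟩).1 (by rw [he, Equiv.apply_symm_apply]; exact hv)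
      rw [he, Equiv.apply_symm_apply] at h1
      exact h1
  · intro h v hv
    by_cases hvc : v ∈ center G
    · exact (Subgroup.mem_center_iff.mp hvc _).symm
    · have h1 := h (e ⟨v, hvc⟩).1 ((he ⟨v, hvc⟩ y).mp hv)
      exact (he ⟨v, hvc⟩ g).mpr h1

include he in
lemma Data.transfer [Finite G] [Finite H] {w : NC G} {n m : ℕ} {S : Subgroup H → Prop}
    (D : Data H (e w).1 n m S) :
    Data G w.1 (n + Nat.card (center G) - Nat.card (center H))
      (m + Nat.card (center G) - Nat.card (center H))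
      (fun K => ∃ y : NC G, K = Cz y.1 ∧ S (Cz (e y).1)) := by
  have hcz : ∀ y : NC G, Nat.card (Cz y.1) + Nat.card (center H) =
      Nat.card (Cz (e y).1) + Nat.card (center G) := fun y =>
    card_transfer e _ _ (center_le_Cz _) (center_le_Cz _) (mem_Cz_transfer e he y)
  have hdz : ∀ y : NC G, Nat.card (Dz y.1) + Nat.card (center H) =
      Nat.card (Dz (e y).1) + Nat.card (center G) := fun y =>
    card_transfer e _ _ (center_le_Dz _) (center_le_Dz _) (mem_Dz_transfer e he y)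
  have hnc : ∀ x : G, ¬ Commute x w.1 → x ∉ center G := fun x hx h =>
    hx (Subgroup.mem_center_iff.mp h w.1).symm
  constructor
  · exact w.2
  · intro u hu huw g hgu
    by_cases hg : g ∈ center G
    · exact (Subgroup.mem_center_iff.mp hg w.1).symm
    · rw [he ⟨g, hg⟩ w]
      exact D.a (e ⟨u, hu⟩).1 (e ⟨u, hu⟩).2 ((he ⟨u, hu⟩ w).mp huw) _
        ((he ⟨g, hg⟩ ⟨u, hu⟩).mp hgu)
  · intro x hx
    have hxc := hnc x hx
    obtain ⟨y, hyw, hyx, hyv, hyn, hym, hyS⟩ := D.b (e ⟨x, hxc⟩).1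
      (fun h => hx ((he ⟨x, hxc⟩ w).mpr h))
    have hyc : y ∉ center H := fun h => hyw (Subgroup.mem_center_iff.mp h _).symm
    obtain ⟨y', rfl⟩ : ∃ y' : NC G, (e y').1 = y :=
      ⟨e.symm ⟨y, hyc⟩, by rw [Equiv.apply_symm_apply]⟩
    refine ⟨y'.1, fun h => hyw ((he y' w).mp h), (he y' ⟨x, hxc⟩).mpr hyx, ?_, ?_, ?_, y', rfl, hyS⟩
    · intro v hv hvy
      obtain ⟨h1, h2⟩ := hyv (e ⟨v, hv⟩).1 (e ⟨v, hv⟩).2 ((he ⟨v, hv⟩ y').mp hvy)
      refine ⟨fun h => h1 ((he ⟨v, hv⟩ w).mp h), fun g hg => ?_⟩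
      by_cases hgc : g ∈ center G
      · exact (Subgroup.mem_center_iff.mp hgc _).symm
      · exact (he ⟨g, hgc⟩ y').mpr (h2 _ ((he ⟨g, hgc⟩ ⟨v, hv⟩).mp hg))
    · have := hcz y'
      omega
    · have := hdz y'
      omega
  · intro x hx
    have hxc := hnc x hx
    have h1 := hcz ⟨x, hxc⟩
    have h2 := hcz w
    have h3 := D.c (e ⟨x, hxc⟩).1 (fun h => hx ((he ⟨x, hxc⟩ w).mpr h))
    simp only at h1
    omega

end Pool.Agent.NCG
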